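import Mathlib

set_option linter.all false

section

set_option autoImplicit false

/-!
An abstract four-valent plane map whose straight-ahead walks pairwise meet at most twice,
and a lemma of Helly type.
-/

namespace Pool.Agent.MP_920d98_co

open Equiv Finset

/-- darts `X`, vertices `V`, curves `C`; `o` reverses a dart, `r` turns it around its vertex -/
structure Sys (X V C : Type) where
  o : X → X
  r : Perm X
  vt : X → V
  cu : X → C
  dir : X → Bool
  oo : ∀ x, o (o x) = x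
  r4 : ∀ x, r (r (r (r x))) = x
  vt_r : ∀ x, vt (r x) = vt x
  vt_eq : ∀ x y, vt x = vt y → y = x ∨ y = r x ∨ y = r (r x) ∨ y = r (r (r x))
  cu_o : ∀ x, cu (o x) = cu x
  cu_rr : ∀ x, cu (r (r x)) = cu x
  cu_r : ∀ x, cu (r x) ≠ cu x
  dir_o : ∀ x, dir (o x) = !dir x
  dir_rr : ∀ x, dir (r (r x)) = !dir x
  two : ∀ x y z, cu y = cu x → cu z = cu x → cu (r y) = cu (r x) → cu (r z) = cu (r x) →
    vt x = vt y ∨ vt y = vt z ∨ vt x = vt z
  planar : ∀ Z : X → ℤ, (∀ x, Z (o x) = -Z x) →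
    (∀ x, Z x + Z (r x) + Z (r (r x)) + Z (r (r (r x))) = 0) →
    ∃ w : X → ℤ, (∀ x, w (r (o x)) = w x) ∧ ∀ x, w x - w (o x) = Z x

namespace Sys

variable {X V C : Type} (G : Sys X V C)

theorem r_inv (x : X) : G.r⁻¹ x = G.r (G.r (G.r x)) := by
  rw [Perm.inv_eq_iff_eq, G.r4]

theorem r_inv2 (x : X) : G.r⁻¹ (G.r⁻¹ x) = G.r (G.r x) := by
  rw [G.r_inv, G.r_inv, G.r4]

/-- the mirror image -/
def mir : Sys X V C where
  o := G.o
  r := G.r⁻¹
  vt := G.vt
  cu := G.cu
  dir := G.dir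
  oo := G.oo
  r4 x := by rw [G.r_inv2, G.r_inv2, G.r4]
  vt_r x := by rw [G.r_inv, G.vt_r, G.vt_r, G.vt_r]
  vt_eq x y h := by
    rw [G.r_inv2, G.r_inv x, Perm.inv_def, symm_apply_apply]
    have := G.vt_eq x y h
    tauto
  cu_o := G.cu_o
  cu_rr x := by rw [G.r_inv2, G.cu_rr]
  cu_r x := by rw [G.r_inv, G.cu_rr]; exact G.cu_r x
  dir_o := G.dir_o
  dir_rr x := by rw [G.r_inv2, G.dir_rr]
  two x y z := by simp only [G.r_inv, G.cu_rr]; exact G.two x y z
  planar Z h1 h2 := by
    obtain ⟨w, a1, a2⟩ := G.planar Z h1 fun x => by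
      have := h2 x
      rw [G.r_inv2, G.r_inv x, Perm.inv_def, symm_apply_apply] at this
      linarith
    refine ⟨fun x => -w (G.o x), fun x => ?_, fun x => by beta_reduce; rw [G.oo]; linarith [a2 x]⟩
    beta_reduce
    rw [← a1 (G.o (G.r⁻¹ (G.o x))), G.oo]
    simp

/-- the next dart on the face to the left -/
def ph (x : X) : X := G.r (G.o x)
/-- the next dart on the same curve -/
def st (x : X) : X := G.r (G.r (G.o x))
/-- the end vertex -/
def hd (x : X) : V := G.vt (G.o x)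
/-- functions on faces -/
def Inv (w : X → ℤ) : Prop := ∀ x, w (G.ph x) = w x
/-- the jump across a dart -/
def jmp (w : X → ℤ) (x : X) : ℤ := w x - w (G.o x)
/-- flows -/
def Anti (Z : X → ℤ) : Prop := ∀ x, Z (G.o x) = -Z x

theorem mir_st : G.mir.st = G.st := funext fun _ => G.r_inv2 _
theorem o_inj : Function.Injective G.o := Function.LeftInverse.injective G.oo
theorem st_inj : Function.Injective G.st := fun _ _ h => G.o_inj (G.r.injective (G.r.injective h))
theorem vt_st (x : X) : G.vt (G.st x) = G.hd x := by rw [st, G.vt_r, G.vt_r, hd]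
theorem vt_ph (x : X) : G.vt (G.ph x) = G.hd x := G.vt_r _
theorem hd_o (x : X) : G.hd (G.o x) = G.vt x := by rw [hd, G.oo]
theorem cu_st (x : X) : G.cu (G.st x) = G.cu x := by rw [st, G.cu_rr, G.cu_o]
theorem cu_ph (x : X) : G.cu (G.ph x) ≠ G.cu x := by rw [← G.cu_o x]; exact G.cu_r _
theorem dir_st (x : X) : G.dir (G.st x) = G.dir x := by rw [st, G.dir_rr, G.dir_o, Bool.not_not]
theorem st_o (x : X) : G.st (G.o x) = G.r (G.r x) := by rw [st, G.oo]
theorem st_o_st (x : X) : G.st (G.o (G.st x)) = G.o x := by rw [st_o, st, G.r4]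
theorem st_orr (x : X) : G.st (G.o (G.r (G.r x))) = x := by rw [st_o, G.r4]
theorem cu_iter (x : X) (k : ℕ) : G.cu (G.st^[k] x) = G.cu x :=
  congrFun (Function.iterate_invariant (funext G.cu_st) k) x
theorem dir_iter (x : X) (k : ℕ) : G.dir (G.st^[k] x) = G.dir x :=
  congrFun (Function.iterate_invariant (funext G.dir_st) k) x
theorem line {x y : X} (h : G.vt x = G.vt y) (hc : G.cu y = G.cu x) : y = x ∨ y = G.r (G.r x) := by
  rcases G.vt_eq x y h with h | h | h | h
  · exact Or.inl h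
  · exact (G.cu_r x (h ▸ hc)).elim
  · exact Or.inr h
  · exact (G.cu_r x (by rw [← hc, h, G.cu_rr])).elim
theorem eq_of_dir {x y : X} (h : G.vt x = G.vt y) (hc : G.cu y = G.cu x) (hd : G.dir y = G.dir x) :
    y = x := (G.line h hc).resolve_right fun e => by rw [e, G.dir_rr] at hd; simp at hd

variable {G}

theorem Inv.r {w : X → ℤ} (h : G.Inv w) (x : X) : w (G.r x) = w (G.o x) := by
  rw [← h (G.o x), ph, G.oo]

theorem Inv.st {w : X → ℤ} (h : G.Inv w) (x : X) : w (G.st x) = w x - G.jmp w (G.ph x) := by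
  rw [jmp, h x, ← h.r (G.ph x)]; simp [Sys.st, ph]

theorem Inv.mir {w : X → ℤ} (h : G.Inv w) : G.mir.Inv fun x => w (G.o x) := fun x => by
  change w (G.o (G.r⁻¹ (G.o x))) = _
  rw [← h.r]; simp

theorem Inv.of_mir {w : X → ℤ} (h : G.mir.Inv w) : G.Inv fun x => w (G.o x) := fun x => by
  have := h.r (G.r (G.o x))
  change w (G.r⁻¹ _) = w (G.o _) at this
  simpa [ph] using this.symm

theorem anti_jmp (w : X → ℤ) : G.Anti (G.jmp w) := fun x => by simp [jmp, G.oo]

variable [Fintype X] [DecidableEq V]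

variable (G) in
/-- the outflow at a vertex -/
def div (Z : X → ℤ) (v : V) : ℤ := ∑ x, if G.vt x = v then Z x else 0

theorem div_vt (Z : X → ℤ) (x : X) :
    G.div Z (G.vt x) = Z x + Z (G.r x) + Z (G.r (G.r x)) + Z (G.r (G.r (G.r x))) := by
  classical
  have n1 : ∀ x, x ≠ G.r x := fun x h => G.cu_r x (by rw [← h])
  have n2 : ∀ x, x ≠ G.r (G.r x) := fun x h => by
    have := G.dir_rr x
    rw [← h] at this
    simp at this
  have n3 : x ≠ G.r (G.r (G.r x)) := fun h => G.cu_r x (by rw [← G.cu_rr (G.r x), ← h])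
  have : univ.filter (fun y => G.vt y = G.vt x) =
      {x, G.r x, G.r (G.r x), G.r (G.r (G.r x))} := by
    ext y
    simp only [mem_filter, mem_univ, true_and, mem_insert, mem_singleton]
    refine ⟨fun h => G.vt_eq x y h.symm, ?_⟩
    rintro (rfl | rfl | rfl | rfl) <;> simp [G.vt_r]
  rw [div, ← sum_filter, this, sum_insert (by simp [n1, n2, n3]), sum_insert (by simp [n1, n2]),
    sum_insert (by simp [n1]), sum_singleton]
  ring

theorem div_congr {Z Z' : X → ℤ} {v : V} (h : ∀ x, G.vt x = v → Z x = Z' x) :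
    G.div Z v = G.div Z' v :=
  sum_congr rfl fun x _ => by split_ifs with hx; exacts [h x hx, rfl]

theorem div_zero {Z : X → ℤ} {v : V} (h : ∀ x, G.vt x = v → Z x = 0) : G.div Z v = 0 :=
  sum_eq_zero fun x _ => by split_ifs with hx; exacts [h x hx, rfl]

theorem div_sub (Z Z' : X → ℤ) (v : V) :
    G.div (fun x => Z x - Z' x) v = G.div Z v - G.div Z' v := by
  rw [div, div, div, ← sum_sub_distrib]
  exact sum_congr rfl fun x _ => by split_ifs <;> simp

theorem div_add (Z Z' : X → ℤ) (v : V) :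
    G.div (fun x => Z x + Z' x) v = G.div Z v + G.div Z' v := by
  rw [div, div, div, ← sum_add_distrib]
  exact sum_congr rfl fun x _ => by split_ifs <;> simp

theorem div_mul (c : ℤ) (Z : X → ℤ) (v : V) : G.div (fun x => c * Z x) v = c * G.div Z v := by
  rw [div, div, mul_sum]
  exact sum_congr rfl fun x _ => by split_ifs <;> simp

theorem div_sum {ι : Type} (s : Finset ι) (Z : ι → X → ℤ) (v : V) :
    G.div (fun x => ∑ i ∈ s, Z i x) v = ∑ i ∈ s, G.div (Z i) v := by
  simp only [div]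
  rw [sum_comm]
  exact sum_congr rfl fun x _ => by split_ifs <;> simp

theorem Inv.div_jmp {w : X → ℤ} (h : G.Inv w) (v : V) : G.div (G.jmp w) v = 0 := by
  by_cases hv : ∃ x, G.vt x = v
  · obtain ⟨x, rfl⟩ := hv
    simp only [div_vt, jmp, ← h.r, G.r4]
    ring
  · exact div_zero fun x hx => (hv ⟨x, hx⟩).elim

theorem planar' {Z : X → ℤ} (h : G.Anti Z) (h0 : ∀ v, G.div Z v = 0) :
    ∃ w, G.Inv w ∧ ∀ x, G.jmp w x = Z x :=
  G.planar Z h fun x => by rw [← div_vt, h0]

open Classical in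
/-- the total flow out of a set of vertices without sources vanishes -/
theorem flux_sum {Z : X → ℤ} (h : G.Anti Z) {S : Set V} (h0 : ∀ v ∈ S, G.div Z v = 0) :
    ∑ x, (if G.vt x ∈ S ∧ G.hd x ∉ S then Z x else 0) = 0 := by
  have e1 : ∑ x, (if G.vt x ∈ S then Z x else 0) = 0 := by
    rw [← sum_fiberwise_of_maps_to (t := univ.image G.vt) (g := G.vt)
      fun x _ => mem_image_of_mem _ (mem_univ x)]
    refine sum_eq_zero fun v _ => ?_
    by_cases hv : v ∈ S
    · rw [← h0 v hv, div, sum_filter]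
      exact sum_congr rfl fun x _ => by split_ifs <;> simp_all
    · exact sum_eq_zero fun x hx => if_neg ((mem_filter.1 hx).2 ▸ hv)
  have e2 : ∑ x, (if G.vt x ∈ S ∧ G.hd x ∈ S then Z x else 0) =
      ∑ x, -(if G.vt x ∈ S ∧ G.hd x ∈ S then Z x else 0) := by
    rw [← Equiv.sum_comp ⟨G.o, G.o, G.oo, G.oo⟩]
    refine sum_congr rfl fun x _ => ?_
    simp only [coe_fn_mk, G.hd_o, h x]
    rw [if_congr and_comm rfl rfl]
    change (if G.vt x ∈ S ∧ G.hd x ∈ S then _ else _) = _
    split_ifs <;> simp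
  rw [sum_neg_distrib] at e2
  have e3 : ∑ x, (if G.vt x ∈ S then Z x else 0) =
      ∑ x, ((if G.vt x ∈ S ∧ G.hd x ∈ S then Z x else 0) +
        if G.vt x ∈ S ∧ G.hd x ∉ S then Z x else 0) := by
    refine sum_congr rfl fun x _ => ?_
    by_cases c1 : G.vt x ∈ S <;> by_cases c2 : G.hd x ∈ S <;> simp [c1, c2]
  rw [sum_add_distrib] at e3
  linarith

theorem flux {Z : X → ℤ} (h : G.Anti Z) {S : Set V} (h0 : ∀ v ∈ S, G.div Z v = 0) {y : X}
    (hy : G.vt y ∈ S) (hy' : G.hd y ∉ S)
    (hz : ∀ x, G.vt x ∈ S → G.hd x ∉ S → x ≠ y → Z x = 0) : Z y = 0 := by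
  classical
  have := flux_sum h h0
  rwa [sum_eq_single y (fun x _ c => ite_eq_right_iff.2 fun a => hz x a.1 a.2 c) (by simp),
    if_pos ⟨hy, hy'⟩] at this

theorem flux_le {Z : X → ℤ} (h : G.Anti Z) {S : Set V} (h0 : ∀ v ∈ S, G.div Z v = 0) {y : X}
    (hy : G.vt y ∈ S) (hy' : G.hd y ∉ S)
    (hz : ∀ x, G.vt x ∈ S → G.hd x ∉ S → Z x ≤ 0) : Z y = 0 := by
  classical
  have := (sum_eq_zero_iff_of_nonpos fun x _ => ?_).1 (flux_sum h h0) y (mem_univ y)
  · rwa [if_pos ⟨hy, hy'⟩] at this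
  · split_ifs with a
    exacts [hz x a.1 a.2, le_rfl]

variable (G) in
/-- the unit flow along a dart -/
def unit [DecidableEq X] (y x : X) : ℤ := (if x = y then 1 else 0) - if G.o x = y then 1 else 0

omit [Fintype X] [DecidableEq V] in
theorem anti_unit [DecidableEq X] (y : X) : G.Anti (G.unit y) := fun x => by simp [unit, G.oo]

theorem div_unit [DecidableEq X] (y : X) (v : V) :
    G.div (G.unit y) v = (if G.vt y = v then 1 else 0) - if G.hd y = v then 1 else 0 := by
  have : ∀ x, G.o x = y ↔ x = G.o y := fun x =>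
    ⟨fun h => by rw [← h, G.oo], fun h => by rw [h, G.oo]⟩
  unfold unit
  rw [div_sub, div, div]
  simp only [this]
  rw [sum_eq_single y (fun x _ h => by simp [h]) (by simp),
    sum_eq_single (G.o y) (fun x _ h => by simp [h]) (by simp)]
  simp [hd]

variable (G) in
/-- vertices joined by a walk along darts in `W` -/
def Lnk (W : X → Prop) : V → V → Prop :=
  Relation.ReflTransGen fun u v => ∃ x, W x ∧ G.vt x = u ∧ G.hd x = v

theorem Lnk.flow {W : X → Prop} (hW : ∀ x, W (G.o x) → W x) {u v : V} (h : G.Lnk W u v) :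
    ∃ τ, G.Anti τ ∧ (∀ x, τ x ≠ 0 → W x) ∧
      ∀ t, G.div τ t = (if u = t then 1 else 0) - if v = t then 1 else 0 := by
  classical
  induction h with
  | refl => exact ⟨fun _ => 0, fun _ => by simp, by simp, fun t => by simp [div]⟩
  | tail _ h ih =>
    obtain ⟨τ, h1, h2, h3⟩ := ih
    obtain ⟨y, hy, rfl, rfl⟩ := h
    refine ⟨fun x => τ x + G.unit y x, fun x => by beta_reduce; rw [h1, anti_unit]; ring, fun x hx => ?_,
      fun t => by rw [div_add, h3, div_unit]; ring⟩
    by_cases c : τ x = 0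
    · by_cases c1 : x = y
      · exact c1 ▸ hy
      · by_cases c2 : G.o x = y
        · exact hW x (c2 ▸ hy)
        · simp [c, unit, c1, c2] at hx
    · exact h2 x c

omit [Fintype X] [DecidableEq V] in
theorem Lnk.symm {W : X → Prop} (hW : ∀ x, W x → W (G.o x)) {u v : V} (h : G.Lnk W u v) :
    G.Lnk W v u := by
  induction h with
  | refl => exact .refl
  | tail _ h ih =>
    obtain ⟨x, hx, rfl, rfl⟩ := h
    exact .head ⟨G.o x, hW x hx, rfl, G.hd_o x⟩ ih

omit [Fintype X] [DecidableEq V] in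
theorem lnk_iter {W : X → Prop} (x : X) {j k : ℕ} (hjk : j ≤ k)
    (h : ∀ i, j ≤ i → i < k → W (G.st^[i] x)) : G.Lnk W (G.vt (G.st^[j] x)) (G.vt (G.st^[k] x)) := by
  induction k, hjk using Nat.le_induction with
  | base => exact .refl
  | succ k hk ih =>
    refine (ih fun i a b => h i a (by omega)).tail ⟨_, h k hk (by omega), rfl, ?_⟩
    rw [Function.iterate_succ_apply', vt_st]

end Sys

end Pool.Agent.MP_920d98_co

end

section

set_option autoImplicit false

/-!
The intersection of the left sides of oriented curves has no component away from the base face.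
-/

namespace Pool.Agent.MP_920d98_co

open Equiv Finset

variable {X V C A : Type} [Fintype X] [DecidableEq V]

/-- oriented pieces of curves `fw a` with their left sides `lam a` -/
structure HData (G : Sys X V C) (A : Type) where
  act : Set V
  Rel : X → Prop
  x0 : X
  fw : A → X → Prop
  lam : A → X → ℤ
  rel_o : ∀ x, Rel x → Rel (G.o x)
  rel_act : ∀ x, G.vt x ∈ act → Rel x
  pot : ∀ Z, G.Anti Z → (∀ v ∈ act, G.div Z v = 0) → ∃ w, G.Inv w ∧ ∀ x, Rel x → G.jmp w x = Z x
  conn : ∀ w, G.Inv w → (∀ x, Rel x → G.jmp w x = 0) → ∀ x, Rel x → w x = w x0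
  fw_rel : ∀ a x, fw a x → Rel x
  fw_uniq : ∀ a b x, fw a x → fw b x → a = b
  fw_o : ∀ a b x, fw a x → ¬ fw b (G.o x)
  fw_cu : ∀ a x y, fw a x → fw a y → G.cu x = G.cu y
  thru : ∀ a x, G.vt x ∈ act → (fw a x ↔ fw a (G.o (G.r (G.r x))))
  lam_inv : ∀ a, G.Inv (lam a)
  lam_fw : ∀ a x, fw a x → lam a x = 1 ∧ lam a (G.o x) = 0
  lam_else : ∀ a x, Rel x → ¬ fw a x → ¬ fw a (G.o x) → lam a x = lam a (G.o x)
  lam_01 : ∀ a x, Rel x → lam a x = 0 ∨ lam a x = 1
  lam_x0 : ∀ a, lam a x0 = 1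
  chain : ∀ a (u : X → ℤ), (∀ x, fw a x → fw a (G.st x) → Rel (G.ph x) → u (G.st x) = u x) →
    ∀ x y, fw a x → fw a y → u x = u y
  tau : ∀ a b x, G.vt x ∈ act → (fw a x ∨ fw a (G.o x)) → (fw b (G.r x) ∨ fw b (G.o (G.r x))) →
    ∃ u ∉ act, G.Lnk (fun y => ¬ (lam a y = 1 ∧ lam a (G.o y) = 1) ∧
      ¬ (lam b y = 1 ∧ lam b (G.o y) = 1)) (G.vt x) u

namespace HData

variable {G : Sys X V C} (H : HData G A)

/-- the dart lies on the piece `a` -/
def Own (a : A) (x : X) : Prop := H.fw a x ∨ H.fw a (G.o x)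
/-- the dart is not strictly on the left of `a` -/
def WR (a : A) (x : X) : Prop := ¬ (H.lam a x = 1 ∧ H.lam a (G.o x) = 1)

theorem own_o {a : A} {x : X} : H.Own a (G.o x) ↔ H.Own a x := by
  rw [Own, Own, G.oo, or_comm]

theorem own_uniq {a b : A} {x : X} (h : H.Own a x) (h' : H.Own b x) : a = b := by
  rcases h with h | h <;> rcases h' with h' | h'
  · exact H.fw_uniq _ _ _ h h'
  · exact (H.fw_o _ _ _ h h').elim
  · exact (H.fw_o _ _ _ h' h).elim
  · exact H.fw_uniq _ _ _ h h'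

theorem own_rr {a : A} {x : X} (hx : G.vt x ∈ H.act) : H.Own a (G.r (G.r x)) ↔ H.Own a x := by
  rw [Own, Own, ← H.thru a x hx, H.thru a (G.r (G.r x)) (by rwa [G.vt_r, G.vt_r]), G.r4, or_comm]

theorem own_wr {a : A} {x : X} (h : H.Own a x) : H.WR a x := by
  rintro ⟨h1, h2⟩
  rcases h with h | h
  · simp [(H.lam_fw a x h).2] at h2
  · have := (H.lam_fw a _ h).2
    rw [G.oo] at this
    simp [this] at h1

theorem const {a : A} {w : X → ℤ} (hw : G.Inv w)
    (h : ∀ x, H.Rel x → G.jmp w x ≠ 0 → H.WR a x) {d f : X} (hd : H.fw a d) (hf : H.Rel f)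
    (hf1 : H.lam a f = 1) : w f = w H.x0 := by
  have k1 := H.chain a w fun x h1 h2 h3 => by
    rw [hw.st, sub_eq_self]
    by_contra h0
    refine h _ h3 h0 ⟨by rw [H.lam_inv a, (H.lam_fw a x h1).1], ?_⟩
    rw [← (H.lam_inv a).r]
    exact (H.lam_fw a _ h2).1
  have k2 := H.conn (fun x => (w x - w d) * H.lam a x) (fun x => by beta_reduce; rw [hw, H.lam_inv a])
    fun x hx => by
      simp only [Sys.jmp]
      by_cases c1 : H.fw a x
      · rw [k1 x d c1 hd, (H.lam_fw a x c1).2]; ring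
      by_cases c2 : H.fw a (G.o x)
      · have := (H.lam_fw a _ c2).2
        rw [G.oo] at this
        rw [k1 _ d c2 hd, this]; ring
      have e := H.lam_else a x hx c1 c2
      rcases H.lam_01 a x hx with c | c
      · rw [← e, c]; ring
      · have : G.jmp w x = 0 := by
          by_contra h0
          exact h x hx h0 ⟨c, e ▸ c⟩
        rw [← e, ← sub_eq_zero.1 this]; ring
  have a1 := k2 f hf
  have a2 := k2 _ (H.rel_o d (H.fw_rel a d hd))
  simp only [hf1, (H.lam_fw a d hd).2, H.lam_x0] at a1 a2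
  linarith

theorem helly_aux [Fintype A] [Fintype V] {μ : X → ℤ} (hi : G.Inv μ)
    (h01 : ∀ x, H.Rel x → μ x = 0 ∨ μ x = 1)
    (h1 : ∀ a x, H.fw a x → μ (G.o x) ≤ μ x)
    (h2 : ∀ x, H.Rel x → (∀ a, ¬ H.Own a x) → μ x = μ (G.o x)) {f : X} (hf : H.Rel f)
    (hB : ∀ a d, H.fw a d → μ d = 1 → H.lam a f = 1) : μ f = μ H.x0 := by
  classical
  let Y : A → X → ℤ := fun a x => if H.Own a x then G.jmp μ x else 0
  have hY : ∀ x, H.Rel x → ∑ a, Y a x = G.jmp μ x := fun x hx => by
    by_cases c : ∃ a, H.Own a x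
    · obtain ⟨a, ha⟩ := c
      rw [sum_eq_single a (fun b _ hb => if_neg fun h => hb (H.own_uniq h ha)) (by simp)]
      exact if_pos ha
    · push Not at c
      rw [sum_eq_zero fun a _ => if_neg (c a), Sys.jmp, h2 x hx c, sub_self]
  have hc : ∀ a v, G.div (Y a) v ≠ 0 → ∃ x, G.vt x = v ∧ H.Own a x := fun a v h => by
    by_contra h'
    push Not at h'
    exact h (Sys.div_zero fun x hx => if_neg (h' x hx))
  have hs : ∀ v ∈ H.act, ∑ a, G.div (Y a) v = 0 := fun v hv => by
    rw [← Sys.div_sum, ← hi.div_jmp v]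
    exact Sys.div_congr fun x hx => hY x (H.rel_act x (hx ▸ hv))
  have hτ : ∀ v, ∃ τ, G.Anti τ ∧ (v ∈ H.act → ∀ a, G.div (Y a) v ≠ 0 →
      (∀ x, τ x ≠ 0 → H.WR a x) ∧ ∀ t ∈ H.act, G.div τ t = if v = t then 1 else 0) := fun v => by
    by_cases c : v ∈ H.act ∧ ∃ a, G.div (Y a) v ≠ 0
    swap
    · exact ⟨fun _ => 0, fun _ => by simp, fun hv a ha => (c ⟨hv, a, ha⟩).elim⟩
    obtain ⟨hv, a, ha⟩ := c
    obtain ⟨x, rfl, hx⟩ := hc a v ha
    have key : ∀ b, G.div (Y b) (G.vt x) ≠ 0 → b = a ∨ H.Own b (G.r x) := fun b hb => by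
      obtain ⟨y, hy, hy'⟩ := hc b _ hb
      rcases G.vt_eq x y hy.symm with rfl | rfl | rfl | rfl
      · exact Or.inl (H.own_uniq hy' hx)
      · exact Or.inr hy'
      · exact Or.inl (H.own_uniq ((H.own_rr hv).1 hy') hx)
      · exact Or.inr ((H.own_rr (by rwa [G.vt_r])).1 hy')
    obtain ⟨b, hb, hb'⟩ : ∃ b, b ≠ a ∧ G.div (Y b) (G.vt x) ≠ 0 := by
      by_contra h
      push Not at h
      have := hs _ hv
      rw [sum_eq_single a (fun b _ hb => h b hb) (by simp)] at this
      exact ha this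
    have hb2 := (key b hb').resolve_left hb
    obtain ⟨u, hu, hl⟩ := H.tau a b x hv hx hb2
    obtain ⟨τ, t1, t2, t3⟩ := hl.flow fun y hy => by rw [G.oo] at hy; tauto
    refine ⟨τ, t1, fun _ c hc' => ⟨fun y hy => ?_, fun t ht => ?_⟩⟩
    · rcases key c hc' with rfl | h
      · exact (t2 y hy).1
      · exact H.own_uniq h hb2 ▸ (t2 y hy).2
    · rw [t3, if_neg fun h : u = t => hu (h ▸ ht), sub_zero]
  choose τ hτ1 hτ2 using hτ
  let Z : A → X → ℤ := fun a x =>
    Y a x - ∑ v ∈ univ.filter (· ∈ H.act), G.div (Y a) v * τ v x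
  have hw : ∀ a, ∃ w, G.Inv w ∧ (∀ x, H.Rel x → G.jmp w x = Z a x) ∧ w f = w H.x0 := fun a => by
    obtain ⟨w, w1, w2⟩ := H.pot (Z a) (fun x => by
      simp only [Z, Y, H.own_o, hτ1 _ x, Sys.anti_jmp μ x, mul_neg, sum_neg_distrib]
      split_ifs <;> ring) fun t ht => by
      simp only [Z]
      rw [Sys.div_sub, Sys.div_sum, sum_eq_single t _ (by simp [ht]), Sys.div_mul]
      · by_cases c : G.div (Y a) t = 0
        · simp [c]
        · rw [(hτ2 t ht a c).2 t ht]; simp
      · intro v hv hne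
        rw [Sys.div_mul]
        by_cases c : G.div (Y a) v = 0
        · simp [c]
        · rw [(hτ2 v (mem_filter.1 hv).2 a c).2 t ht]; simp [hne]
    refine ⟨w, w1, w2, ?_⟩
    by_cases c : ∃ d, H.fw a d ∧ μ d = 1
    · obtain ⟨d, hd, hd'⟩ := c
      refine H.const w1 (fun x hx h => ?_) hd hf (hB a d hd hd')
      by_contra hn
      rw [w2 x hx] at h
      refine h (sub_eq_zero.2 ?_)
      rw [sum_eq_zero fun v hv => ?_]
      · exact if_neg fun h => hn (H.own_wr h)
      · by_contra h'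
        exact hn ((hτ2 v (mem_filter.1 hv).2 a (left_ne_zero_of_mul h')).1 x
          (right_ne_zero_of_mul h'))
    · have k : ∀ d, H.fw a d → G.jmp μ d = 0 := fun d hd => by
        have a1 := h1 a d hd
        have a2 := (h01 d (H.fw_rel a d hd)).resolve_right fun h => c ⟨d, hd, h⟩
        have a3 := h01 _ (H.rel_o d (H.fw_rel a d hd))
        rw [Sys.jmp]; omega
      have k2 : ∀ x, Y a x = 0 := fun x => by
        simp only [Y]
        split_ifs with h
        · rcases h with h | h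
          · exact k x h
          · rw [← neg_eq_zero, ← Sys.anti_jmp μ x]; exact k _ h
        · rfl
      refine H.conn w w1 (fun x hx => ?_) f hf
      simp [w2 x hx, Z, k2, Sys.div_zero (G := G) (Z := Y a) fun x _ => k2 x]
  choose w w1 w2 w3 using hw
  have := H.conn (fun x => ∑ a, w a x - μ x) (fun x => by simp only [w1 _ x, hi x])
    (fun x hx => by
      have e : G.jmp (fun x => ∑ a, w a x - μ x) x = ∑ a, G.jmp (w a) x - G.jmp μ x := by
        simp only [Sys.jmp, sum_sub_distrib]; ring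
      rw [e, sum_congr rfl fun a _ => w2 a x hx, sum_sub_distrib, hY x hx, sum_comm,
        sum_eq_zero fun v hv => by rw [← sum_mul, hs v (mem_filter.1 hv).2, zero_mul]]
      ring) f hf
  simp only [w3] at this
  linarith

theorem helly [Fintype A] [Fintype V] {μ : X → ℤ} (hi : G.Inv μ)
    (h01 : ∀ x, H.Rel x → μ x = 0 ∨ μ x = 1) (h0 : μ H.x0 = 0)
    (h1 : ∀ a x, H.fw a x → μ (G.o x) ≤ μ x)
    (h2 : ∀ x, H.Rel x → (∀ a, ¬ H.Own a x) → μ x = μ (G.o x)) {f : X} (hf : H.Rel f) :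
    μ f = 0 := by
  classical
  induction hm : (univ.filter fun x => H.Rel x ∧ μ x = 1).card using Nat.strong_induction_on
    generalizing μ f with
  | _ m ih =>
    by_contra hne
    have hf1 := (h01 f hf).resolve_left hne
    refine hne (h0 ▸ H.helly_aux hi h01 h1 h2 hf fun a d hd hd1 => ?_)
    by_contra hl
    suffices h : μ d * H.lam a d = 0 by simp [hd1, (H.lam_fw a d hd).1] at h
    refine ih _ (hm ▸ card_lt_card ⟨fun x hx => ?_, fun h => ?_⟩)
      (μ := fun x => μ x * H.lam a x) (fun x => by beta_reduce; rw [hi, H.lam_inv a])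
      (fun x hx => by
        rcases h01 x hx with h | h <;> rcases H.lam_01 a x hx with h' | h' <;> simp [h, h'])
      (by simp [h0]) (fun b x hx => ?_) (fun x hx h => ?_) (H.fw_rel a d hd) rfl
    · have r := H.fw_rel b x hx
      by_cases c : b = a
      · subst c
        rcases h01 x r with h | h <;> simp [H.lam_fw b x hx, h]
      · have := h1 b x hx
        beta_reduce
        rw [← H.lam_else a x r (fun h => c (H.fw_uniq _ _ _ hx h)) (H.fw_o _ _ _ hx)]
        rcases H.lam_01 a x r with h | h <;> simp [h, this]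
    · beta_reduce
      rw [h2 x hx h, H.lam_else a x hx (fun h' => h a (Or.inl h')) fun h' => h a (Or.inr h')]
    · obtain ⟨-, a1, a2⟩ := mem_filter.1 hx
      refine mem_filter.2 ⟨mem_univ _, a1, (h01 x a1).resolve_left fun h => ?_⟩
      simp [h] at a2
    · have := (mem_filter.1 (h (mem_filter.2 ⟨mem_univ f, hf, hf1⟩))).2.2
      simp [hf1, hl] at this

end HData

end Pool.Agent.MP_920d98_co

end

section

set_option autoImplicit false

/-!
Rays entering a set of vertices through prescribed darts.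
-/

namespace Pool.Agent.MP_920d98_co

open Equiv Finset Function

namespace Sys

variable {X V C ι : Type} (G : Sys X V C) (S : Set V) (p : ι → X)

/-- the first `k` steps from `y` stay in `S` -/
def In (y : X) (k : ℕ) : Prop := ∀ j < k, G.hd (G.st^[j] y) ∈ S
/-- the straight walk from `y` inside `S` reaches `x` -/
def On (y x : X) : Prop := ∃ k, G.In S y k ∧ G.st^[k] y = x
/-- the darts that matter -/
def Rel (x : X) : Prop := G.vt x ∈ S ∨ G.hd x ∈ S ∨ ∃ i, x = p i ∨ G.o x = p i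
/-- forward darts on the ray starting at `p i` -/
def Fw (i : ι) (x : X) : Prop := G.On S (p i) x ∧ ∀ j, ¬ G.On S (p j) (G.o x)

theorem mir_on : G.mir.On = G.On := by
  unfold On In
  rw [mir_st]; rfl

theorem mir_fw : G.mir.Fw S p = G.Fw S p := by
  unfold Fw
  rw [mir_on]; rfl

variable {G S p}

theorem In.mono {y : X} {k l : ℕ} (h : G.In S y l) (hkl : k ≤ l) : G.In S y k :=
  fun j hj => h j (by omega)

theorem In.vt {y : X} {k l : ℕ} (h : G.In S y l) (h0 : 0 < k) (hkl : k ≤ l) :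
    G.vt (G.st^[k] y) ∈ S := by
  obtain ⟨k, rfl⟩ := Nat.exists_eq_add_one.2 h0
  rw [iterate_succ_apply', vt_st]
  exact h k hkl

theorem on_refl (y : X) : G.On S y y := ⟨0, fun _ h => by omega, rfl⟩

theorem On.cu {y x : X} (h : G.On S y x) : G.cu x = G.cu y := by
  obtain ⟨k, -, rfl⟩ := h
  exact G.cu_iter _ _

theorem on_st {y x : X} (hy : G.vt y ∉ S) (hx : G.hd x ∈ S) : G.On S y (G.st x) ↔ G.On S y x := by
  constructor
  · rintro ⟨_ | k, h1, h2⟩
    · exact (hy (by rw [show y = G.st x from h2, vt_st]; exact hx)).elim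
    · rw [iterate_succ_apply'] at h2
      exact ⟨k, h1.mono (by omega), G.st_inj h2⟩
  · rintro ⟨k, h1, rfl⟩
    refine ⟨k + 1, fun j hj => ?_, iterate_succ_apply' _ _ _⟩
    rcases Nat.lt_succ_iff_lt_or_eq.1 hj with h | rfl
    exacts [h1 j h, hx]

theorem In.le {y y' : X} {k l : ℕ} (hy : G.vt y' ∉ S) (h : G.In S y l)
    (e : G.st^[k] y' = G.st^[l] y) : l ≤ k := by
  by_contra hlt
  obtain ⟨t, rfl⟩ := Nat.exists_eq_add_of_le (not_le.1 hlt).le
  rw [iterate_add_apply] at e
  exact hy (G.st_inj.iterate k e ▸ h.vt (by omega) (by omega))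

theorem On.uniq {y y' x : X} (hy : G.vt y ∉ S) (hy' : G.vt y' ∉ S) (h : G.On S y x)
    (h' : G.On S y' x) : y = y' := by
  obtain ⟨k, h1, rfl⟩ := h
  obtain ⟨l, h2, e⟩ := h'
  obtain rfl := le_antisymm (h1.le hy' e) (h2.le hy e.symm)
  exact (G.st_inj.iterate _ e).symm

theorem In.vinj {y : X} {k l n : ℕ} (hy : G.vt y ∉ S) (h : G.In S y n) (hk : k ≤ n) (hl : l ≤ n)
    (e : G.vt (G.st^[k] y) = G.vt (G.st^[l] y)) : k = l := by
  have := G.eq_of_dir e (by rw [cu_iter, cu_iter]) (by rw [dir_iter, dir_iter])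
  exact le_antisymm ((h.mono hk).le hy this) ((h.mono hl).le hy this.symm)

theorem exists_end [Finite X] {y : X} (hy : G.vt y ∉ S) :
    ∃ L, G.In S y L ∧ G.hd (G.st^[L] y) ∉ S := by
  classical
  obtain ⟨N, h0, hN⟩ := G.st_inj.mem_periodicPts y
  obtain ⟨N, rfl⟩ := Nat.exists_eq_add_one.2 h0
  have : ∃ L, G.hd (G.st^[L] y) ∉ S :=
    ⟨N, by rw [← vt_st, ← iterate_succ_apply' G.st, hN.eq]; exact hy⟩
  exact ⟨Nat.find this, fun j hj => not_not.1 (Nat.find_min this hj), Nat.find_spec this⟩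

theorem fw_st (ho : ∀ i, G.vt (p i) ∉ S) {i : ι} {x : X} (hx : G.hd x ∈ S) :
    G.Fw S p i (G.st x) ↔ G.Fw S p i x := by
  refine and_congr (on_st (ho i) hx) (forall_congr' fun j => not_congr ?_)
  rw [← on_st (ho j) (by rwa [hd_o, vt_st]), st_o_st]

theorem fw_iter (ho : ∀ i, G.vt (p i) ∉ S) {i : ι} {x : X} {k : ℕ} (h : G.In S x k) :
    G.Fw S p i (G.st^[k] x) ↔ G.Fw S p i x := by
  induction k with
  | zero => rfl
  | succ k ih => rw [iterate_succ_apply', fw_st ho (h k (by omega)), ih (h.mono (by omega))]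

theorem Fw.start (ho : ∀ i, G.vt (p i) ∉ S) {i : ι} {x : X} (h : G.Fw S p i x) :
    G.Fw S p i (p i) := by
  obtain ⟨k, h1, rfl⟩ := h.1
  exact (fw_iter ho h1).1 h

theorem rel_o {x : X} (h : G.Rel S p x) : G.Rel S p (G.o x) := by
  unfold Rel at *
  rw [hd_o, G.oo]
  rcases h with h | h | ⟨i, h⟩
  exacts [Or.inr (Or.inl h), Or.inl h, Or.inr (Or.inr ⟨i, h.symm⟩)]

theorem On.rel {i : ι} {x : X} (h : G.On S (p i) x) : G.Rel S p x := by
  obtain ⟨_ | k, h1, rfl⟩ := h
  · exact Or.inr (Or.inr ⟨i, Or.inl rfl⟩)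
  · exact Or.inl (h1.vt (by omega) le_rfl)

theorem retrace {y z : X} {l : ℕ} (e : G.o y = G.st^[l] z) {t : ℕ} (ht : t ≤ l) :
    G.st^[t] y = G.o (G.st^[l - t] z) := by
  induction t with
  | zero => simp [← e, G.oo]
  | succ t ih =>
    rw [iterate_succ_apply', ih (by omega), show l - t = l - (t + 1) + 1 by omega,
      iterate_succ_apply', st_o_st]

theorem exists_change {t : ℕ → ℤ} {i j : ℕ} (hij : i ≤ j) (h : t j ≠ t i) :
    ∃ k, i ≤ k ∧ k < j ∧ t (k + 1) ≠ t k := by
  by_contra h'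
  push Not at h'
  refine h ?_
  induction j, hij using Nat.le_induction with
  | base => rfl
  | succ j hj ih =>
    by_cases c : t j = t i
    · rw [h' j hj (by omega), c]
    · exact (c (ih c fun k a b => h' k a (by omega))).elim

variable [Fintype X] [DecidableEq V]

theorem div_rr {Z : X → ℤ} {v : V} (h : ∀ x, G.vt x = v → Z (G.r (G.r x)) = -Z x) :
    G.div Z v = 0 := by
  by_cases hv : ∃ x, G.vt x = v
  · obtain ⟨x, rfl⟩ := hv
    rw [div_vt, h x rfl, h (G.r x) (G.vt_r x)]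
    ring
  · exact div_zero fun x hx => (hv ⟨x, hx⟩).elim

variable (G S p) in
/-- a state of the sweep -/
structure State : Prop where
  out : ∀ i, G.vt (p i) ∉ S
  pot : ∀ Z, G.Anti Z → (∀ v ∈ S, G.div Z v = 0) →
    ∃ w, G.Inv w ∧ ∀ x, G.Rel S p x → G.jmp w x = Z x
  st : ∀ x, G.vt x ∈ S → ∃ i, G.On S (p i) x ∨ G.On S (p i) (G.o x)

theorem State.mir (h : G.State S p) : G.mir.State S p where
  out := h.out
  pot Z h1 h2 := by
    obtain ⟨w, a1, a2⟩ := h.pot Z h1 h2
    refine ⟨fun x => -w (G.o x), fun x => congrArg Neg.neg (a1.mir x), fun x hx => ?_⟩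
    rw [← a2 x hx]
    change -w (G.o x) - -w (G.o (G.o x)) = _
    rw [G.oo, jmp]; ring
  st := by rw [mir_on]; exact h.st

/-- removing a vertex that is last on every ray through it -/
theorem State.erase (h : G.State S p) {y : X} (hy : G.vt y ∈ S) (hy' : G.hd y ∉ S)
    (hp : ∀ i, G.o y ≠ p i) (hg : ∀ i x, G.vt x = G.vt y → G.Fw S p i x → G.hd x ∉ S) :
    G.State (S \ {G.vt y}) p where
  out i hi := h.out i hi.1
  pot Z h1 h2 := by
    classical
    obtain ⟨w, a1, a2⟩ := h.pot (fun x => Z x - G.div Z (G.vt y) * G.unit y x)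
      (fun x => by beta_reduce; rw [h1, anti_unit]; ring) fun v hv => by
        rw [div_sub, div_mul, div_unit, if_neg fun e : G.hd y = v => hy' (e ▸ hv)]
        by_cases c : G.vt y = v
        · simp [c]
        · simp [c, h2 v ⟨hv, fun e => c e.symm⟩]
    have k : ∀ x, G.Rel (S \ {G.vt y}) p x → x ≠ y := by
      rintro x (a | a | ⟨i, a | a⟩) rfl
      exacts [a.2 rfl, hy' a.1, h.out i (a ▸ hy), hp i a]
    refine ⟨w, a1, fun x hx => ?_⟩
    rw [a2 x (hx.imp And.left (Or.imp_left And.left)), unit, if_neg (k x hx), if_neg (k _ (rel_o hx))]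
    ring
  st x hx := by
    have key : ∀ z i, G.On S (p i) z → G.vt z ∈ S \ {G.vt y} ∨ G.hd z ∈ S →
        ∃ i, G.On (S \ {G.vt y}) (p i) z ∨ G.On (S \ {G.vt y}) (p i) (G.o z) := by
      rintro _ i ⟨k, h1, rfl⟩ hz
      by_contra hn
      push Not at hn
      obtain ⟨a, ha, ha'⟩ : ∃ a < k, G.hd (G.st^[a] (p i)) = G.vt y := by
        by_contra h'
        push Not at h'
        exact (hn i).1 ⟨k, fun j hj => ⟨h1 j hj, h' j hj⟩, rfl⟩
      rw [← vt_st, ← iterate_succ_apply' G.st] at ha'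
      by_cases c : G.Fw S p i (G.st^[k] (p i))
      · have := hg i _ ha' ((fw_iter h.out (h1.mono ha)).2 ((fw_iter h.out h1).1 c))
        obtain rfl : k = a + 1 := by
          by_contra h'
          exact this (h1 _ (by omega))
        exact hz.elim (fun h => h.2 ha') this
      · obtain ⟨j, l, h2, e⟩ := not_forall_not.1 fun h => c ⟨⟨k, h1, rfl⟩, h⟩
        obtain ⟨b, hb, hb'⟩ : ∃ b < l, G.hd (G.st^[b] (p j)) = G.vt y := by
          by_contra h'
          push Not at h'
          exact (hn j).2 ⟨l, fun j hj => ⟨h2 j hj, h' j hj⟩, e⟩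
        have r : ∀ t ≤ l, G.st^[t + k] (p i) = G.o (G.st^[l - t] (p j)) := fun t ht => by
          rw [iterate_add_apply, retrace e.symm ht]
        have h3 : G.In S (p i) (l + k) := fun t ht => by
          by_cases c : t < k
          · exact h1 t c
          · rw [show t = t - k + k by omega, r _ (by omega), hd_o]
            exact h2.vt (by omega) (by omega)
        have := h3.vinj (h.out i) (k := a + 1) (l := l - b + k) (by omega) (by omega)
          (by rw [ha', r _ (by omega), show l - (l - b) = b by omega]; exact hb'.symm)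
        omega
    obtain ⟨i, hi | hi⟩ := h.st x hx.1
    · exact key x i hi (Or.inl hx)
    · obtain ⟨j, hj⟩ := key _ i hi (Or.inr (by rw [hd_o]; exact hx.1))
      rw [G.oo] at hj
      exact ⟨j, hj.symm⟩

end Sys

end Pool.Agent.MP_920d98_co

end

section

set_option autoImplicit false

/-!
The sweeping lemma: two entering darts meet at their first vertex.
-/

namespace Pool.Agent.MP_920d98_co

open Equiv Finset Function

namespace Sys

variable {X V C ι : Type} {G : Sys X V C} {S : Set V} {p : ι → X}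
variable [Fintype X] [DecidableEq V] [Fintype ι]

variable (G p) in
/-- the entering darts are crossed in the order `pos`, starting from the face of `x0` -/
def Pre (pos : ι → ℤ) (x0 : X) : Prop :=
  ∀ w, G.Inv w → ∀ i, w (p i) = w x0 - ∑ j, if pos j < pos i then G.jmp w (p j) else 0

theorem State.conn (h : G.State S p) {pos : ι → ℤ} {x0 : X} (hp : G.Pre p pos x0) (w : X → ℤ)
    (hw : G.Inv w) (h0 : ∀ x, G.Rel S p x → G.jmp w x = 0) (x : X) (hx : G.Rel S p x) :
    w x = w x0 := by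
  have k1 : ∀ i y, G.On S (p i) y → w y = w x0 := by
    rintro i _ ⟨k, h1, rfl⟩
    induction k with
    | zero =>
      rw [iterate_zero_apply, hp w hw i, sum_eq_zero fun j _ => by
        rw [h0 _ (on_refl _).rel, ite_self], sub_zero]
    | succ k ih =>
      rw [iterate_succ_apply', hw.st, ih (h1.mono (by omega)),
        h0 _ (Or.inl (by rw [vt_ph]; exact h1 k (by omega))), sub_zero]
  have k2 : ∀ y, G.Rel S p y → w (G.o y) = w x0 → w y = w x0 := fun y hy e =>
    (sub_eq_zero.1 (h0 y hy)).trans e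
  have k3 : ∀ y, G.vt y ∈ S → w y = w x0 := fun y hy => by
    obtain ⟨i, a | a⟩ := h.st y hy
    exacts [k1 i y a, k2 y (Or.inl hy) (k1 i _ a)]
  rcases id hx with a | a | ⟨i, a | a⟩
  exacts [k3 x a, k2 x hx (k3 _ a), k1 i x (a ▸ on_refl _), k2 x hx (k1 i _ (a ▸ on_refl _))]

open Classical in
theorem State.exists_lam (h : G.State S p) (x0 : X) (a : ι) :
    ∃ w, G.Inv w ∧ w x0 = 1 ∧ ∀ x, G.Rel S p x → G.jmp w x =
      (if G.Fw S p a x then 1 else 0) - if G.Fw S p a (G.o x) then 1 else 0 := by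
  obtain ⟨w, a1, a2⟩ := h.pot (fun x => (if G.Fw S p a x then 1 else 0) -
    if G.Fw S p a (G.o x) then 1 else 0) (fun x => by simp [G.oo]) fun v hv => div_rr fun x hx => by
      rw [← G.st_o, fw_st h.out (by rwa [hd_o, hx]), G.st_o,
        ← fw_st (x := G.o (G.r (G.r x))) h.out (by rwa [hd_o, G.vt_r, G.vt_r, hx]), st_orr]
      ring
  refine ⟨fun x => w x - w x0 + 1, fun x => by beta_reduce; rw [a1 x], by simp, fun x hx => ?_⟩
  rw [← a2 x hx, jmp, jmp]; ring

theorem State.le_base [Fintype V] (h : G.State S p) (hi : Injective p) {pos : ι → ℤ}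
    (hpos : Injective pos) {x0 : X} (hp : G.Pre p pos x0) {w : X → ℤ} (hw : G.Inv w)
    (h1 : ∀ i x, G.Fw S p i x → w (G.o x) ≤ w x)
    (h2 : ∀ x, G.Rel S p x → (∀ i, ¬ (G.Fw S p i x ∨ G.Fw S p i (G.o x))) → w x = w (G.o x))
    {y : X} (hy : G.Rel S p y) : w y ≤ w x0 := by
  classical
  choose lam l1 l2 l3 using h.exists_lam x0
  have uq : ∀ a b x, G.Fw S p a x → G.Fw S p b x → a = b := fun a b x ha hb =>
    hi (ha.1.uniq (h.out a) (h.out b) hb.1)
  have fo : ∀ a b x, G.Fw S p a x → ¬ G.Fw S p b (G.o x) := fun a b x ha hb => ha.2 b hb.1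
  have jp : ∀ a j, G.jmp (lam a) (p j) = if j = a ∧ G.Fw S p a (p a) then 1 else 0 := fun a j => by
    rw [l3 a _ (on_refl _).rel, 
      if_neg fun h : G.Fw S p a (G.o (p j)) => h.2 j (by rw [G.oo]; exact on_refl _), sub_zero]
    refine if_congr ⟨fun c => ?_, by rintro ⟨rfl, c⟩; exact c⟩ rfl rfl
    obtain rfl := hi (c.1.uniq (h.out a) (h.out j) (on_refl _))
    exact ⟨rfl, c⟩
  have lp : ∀ a b, G.Fw S p a (p a) → lam a (p b) = if pos a < pos b then 0 else 1 := fun a b ha => by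
    rw [hp _ (l1 a), l2, sum_eq_single a (fun j _ hj => by simp [jp, hj]) (by simp)]
    split_ifs <;> simp [jp, ha]
  have jc : ∀ a x, G.hd x ∈ S → lam a (G.st x) ≠ lam a x → G.cu (G.ph x) = G.cu (p a) := by
    intro a x hx hne
    by_contra c
    rw [(l1 a).st, l3 a _ (Or.inl (by rwa [vt_ph])), if_neg fun h => c h.1.cu,
      if_neg fun h => c (G.cu_o _ ▸ h.1.cu)] at hne
    simp at hne
  have lf : ∀ a x, G.Fw S p a x → lam a x = 1 ∧ lam a (G.o x) = 0 := fun a x hx => by
    have e1 : lam a x = 1 := by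
      have s := hx.start h.out
      obtain ⟨k, k1, rfl⟩ := hx.1
      clear hx
      induction k with
      | zero => simpa using lp a a s
      | succ k ih =>
        rw [← ih (k1.mono (by omega)), iterate_succ_apply']
        by_contra c
        exact G.cu_ph _ ((jc a _ (k1 k (by omega)) c).trans (G.cu_iter _ _).symm)
    have := l3 a x hx.1.rel
    rw [if_pos hx, if_neg (fo a a x hx), jmp] at this
    exact ⟨e1, by linarith⟩
  have le : ∀ a x, G.Rel S p x → ¬ G.Fw S p a x → ¬ G.Fw S p a (G.o x) →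
      lam a x = lam a (G.o x) := fun a x hx c1 c2 => by
    have := l3 a x hx
    rw [if_neg c1, if_neg c2, jmp] at this
    linarith
  have l01 : ∀ a x, G.Rel S p x → lam a x = 0 ∨ lam a x = 1 := fun a x hx => by
    have := h.conn hp (fun x => lam a x * (lam a x - 1)) (fun x => by beta_reduce; rw [l1 a x])
      (fun x hx => by
        rw [jmp]
        by_cases c1 : G.Fw S p a x
        · simp [lf a x c1]
        by_cases c2 : G.Fw S p a (G.o x)
        · have := lf a _ c2
          rw [G.oo] at this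
          simp [this]
        · rw [le a x hx c1 c2, sub_self]) x hx
    simpa [l2, sub_eq_zero] using this
  have orr : ∀ a x, G.vt x ∈ S → (G.Fw S p a x ∨ G.Fw S p a (G.o x)) →
      G.Fw S p a (G.r (G.r x)) ∨ G.Fw S p a (G.o (G.r (G.r x))) := fun a x hx c => by
    rw [← fw_st (x := G.o (G.r (G.r x))) h.out (by rwa [hd_o, G.vt_r, G.vt_r]), st_orr, ← st_o,
      fw_st h.out (by rwa [hd_o])]
    exact c.symm
  have tau : ∀ a b x, lam a (p b) = 0 → G.vt x ∈ S → G.Fw S p b x →
      (G.Fw S p a (G.r x) ∨ G.Fw S p a (G.o (G.r x))) → ∃ u ∉ S, G.Lnk (fun y =>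
      ¬ (lam a y = 1 ∧ lam a (G.o y) = 1) ∧ ¬ (lam b y = 1 ∧ lam b (G.o y) = 1)) (G.vt x) u := by
    intro a b x h0 hx hb ha
    have s := hb.start h.out
    obtain ⟨_ | m, m1, rfl⟩ := hb.1
    · exact (h.out b hx).elim
    obtain ⟨L, L1, L2⟩ := exists_end (h.out b)
    have hL : m + 1 ≤ L := by
      by_contra c
      exact L2 (m1 L (by omega))
    set t : ℕ → ℤ := fun k => lam a (G.st^[k] (p b)) with ht
    have fk : ∀ k ≤ L, G.Fw S p b (G.st^[k] (p b)) := fun k hk => (fw_iter h.out (L1.mono hk)).2 s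
    have t01 : ∀ k ≤ L, t k = 0 ∨ t k = 1 := fun k hk => l01 a _ (fk k hk).1.rel
    have tm : t (m + 1) ≠ t m := by
      have := orr a _ (by rwa [G.vt_r]) ha
      rw [iterate_succ_apply', Sys.st, G.r4] at this
      simp only [ht, iterate_succ_apply', (l1 a).st, ne_eq, sub_eq_self, jmp]
      rcases this with c | c
      · simp [ph, lf a _ c]
      · have := lf a _ c
        rw [G.oo] at this
        simp [ph, this]
    have three : ∀ i j k, i < j → j < k → k < L → t (i + 1) ≠ t i → t (j + 1) ≠ t j →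
        t (k + 1) ≠ t k → False := fun i j k hij hjk hk a1 a2 a3 => by
      simp only [ht, iterate_succ_apply'] at a1 a2 a3
      have b1 := jc a _ (L1 i (by omega)) a1
      have b2 := jc a _ (L1 j (by omega)) a2
      have b3 := jc a _ (L1 k (by omega)) a3
      have v : ∀ i j, i < L → j < L → G.vt (G.o (G.st^[i] (p b))) = G.vt (G.o (G.st^[j] (p b))) →
          i = j := fun i j hi hj e => by
        have := L1.vinj (h.out b) (k := i + 1) (l := j + 1) hi hj
          (by rw [iterate_succ_apply', iterate_succ_apply', vt_st, vt_st]; exact e)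
        omega
      rcases G.two (G.o (G.st^[i] (p b))) (G.o (G.st^[j] (p b))) (G.o (G.st^[k] (p b)))
        (by simp [G.cu_o, cu_iter]) (by simp [G.cu_o, cu_iter]) (b2.trans b1.symm)
        (b3.trans b1.symm) with e | e | e <;> have := v _ _ (by omega) (by omega) e <;> omega
    have W : ∀ k ≤ L, t k = 0 → ¬ (lam a (G.st^[k] (p b)) = 1 ∧ lam a (G.o (G.st^[k] (p b))) = 1) ∧
        ¬ (lam b (G.st^[k] (p b)) = 1 ∧ lam b (G.o (G.st^[k] (p b))) = 1) := fun k hk e =>
      ⟨fun c => by simp [ht, c.1] at e, fun c => by simp [lf b _ (fk k hk)] at c⟩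
    have t0 : t 0 = 0 := h0
    rcases t01 m (by omega) with c | c
    · refine ⟨G.vt (p b), h.out b, Lnk.symm (fun y hy => by rw [G.oo]; tauto)
        (lnk_iter (p b) (Nat.zero_le _) fun i _ hi => W i (by omega) ?_)⟩
      by_contra c'
      obtain ⟨k1, -, a1, b1⟩ := exists_change (t := t) (Nat.zero_le i) (by rwa [t0])
      obtain ⟨k2, a2, a3, b2⟩ := exists_change (t := t) (show i ≤ m by omega) (by rw [c]; exact Ne.symm c')
      exact three k1 k2 m (by omega) a3 hL b1 b2 tm
    · refine ⟨G.vt (G.st^[L + 1] (p b)), by rwa [iterate_succ_apply', vt_st],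
        lnk_iter (p b) (by omega) fun i hi hi' => W i (by omega) ?_⟩
      by_contra c'
      have c2 := (t01 (m + 1) hL).resolve_right (c ▸ tm)
      obtain ⟨k1, -, a1, b1⟩ := exists_change (t := t) (Nat.zero_le m) (by simp [t0, c])
      obtain ⟨k2, a2, a3, b2⟩ := exists_change (t := t) hi (by rwa [c2])
      exact three k1 m k2 a1 a2 (by omega) b1 tm b2
  have tau' : ∀ a b x, pos a < pos b → G.vt x ∈ S → (G.Fw S p b x ∨ G.Fw S p b (G.o x)) →
      (G.Fw S p a (G.r x) ∨ G.Fw S p a (G.o (G.r x))) → ∃ u ∉ S, G.Lnk (fun y =>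
      ¬ (lam a y = 1 ∧ lam a (G.o y) = 1) ∧ ¬ (lam b y = 1 ∧ lam b (G.o y) = 1)) (G.vt x) u := by
    intro a b x hab hx hb ha
    have h0 : lam a (p b) = 0 := by
      rw [lp a b (ha.elim (·.start h.out) (·.start h.out)), if_pos hab]
    rcases hb with hb | hb
    · exact tau a b x h0 hx hb ha
    · rw [← fw_st h.out (by rwa [hd_o]), st_o] at hb
      have := tau a b _ h0 (by rwa [G.vt_r, G.vt_r]) hb (orr a _ (by rwa [G.vt_r]) ha)
      rwa [G.vt_r, G.vt_r] at this
  let H : HData G ι :=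
    { act := S
      Rel := G.Rel S p
      x0 := x0
      fw := G.Fw S p
      lam := lam
      rel_o := fun _ => rel_o
      rel_act := fun _ => Or.inl
      pot := h.pot
      conn := h.conn hp
      fw_rel := fun a x hx => hx.1.rel
      fw_uniq := uq
      fw_o := fo
      fw_cu := fun a x y hx hy => hx.1.cu.trans hy.1.cu.symm
      thru := fun a x hx => by
        rw [← fw_st (x := G.o (G.r (G.r x))) h.out (by rwa [hd_o, G.vt_r, G.vt_r]), st_orr]
      lam_inv := l1
      lam_fw := lf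
      lam_else := le
      lam_01 := l01
      lam_x0 := l2
      chain := fun a u hu => by
        have : ∀ x, G.Fw S p a x → u x = u (p a) := fun x hx => by
          have s := hx.start h.out
          obtain ⟨k, k1, rfl⟩ := hx.1
          clear hx
          induction k with
          | zero => rfl
          | succ k ih =>
            rw [← ih (k1.mono (by omega)), iterate_succ_apply']
            refine hu _ ((fw_iter h.out (k1.mono (by omega))).2 s) ?_
              (Or.inl (by rw [vt_ph]; exact k1 k (by omega)))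
            rw [← iterate_succ_apply' G.st]
            exact (fw_iter h.out k1).2 s
        exact fun x y hx hy => (this x hx).trans (this y hy).symm
      tau := fun a b x hx ha hb => by
        have hab : a ≠ b := by
          rintro rfl
          have k : ∀ z, G.Fw S p a z ∨ G.Fw S p a (G.o z) → G.cu z = G.cu (p a) := fun z hz =>
            hz.elim (·.1.cu) fun c => G.cu_o z ▸ c.1.cu
          exact G.cu_r x ((k _ hb).trans (k _ ha).symm)
        rcases lt_or_gt_of_ne (hpos.ne hab) with c | c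
        · have := tau' a b _ c (by rwa [G.vt_r]) hb (orr a _ hx ha)
          rwa [G.vt_r] at this
        · simpa only [and_comm] using tau' b a x c hx ha hb }
  have := H.helly (μ := fun x => if w x0 < w x then 1 else 0) (fun x => by beta_reduce; rw [hw x])
    (fun x _ => by beta_reduce; split_ifs <;> simp) (if_neg (lt_irrefl _))
    (fun a x hx => by have := h1 a x hx; beta_reduce; split_ifs <;> omega)
    (fun x hx c => by beta_reduce; rw [h2 x hx c]) hy
  by_contra c
  simp [not_le.1 c] at this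

theorem State.exists_front (h : G.State S p) (hne : ∃ x, G.vt x ∈ S)
    (hf : ∀ L : Set ι, L.Nonempty → ∃ i ∈ L, ∃ w, G.Inv w ∧ G.jmp w (p i) ≠ 0 ∧
      ∀ j ∈ L, j ≠ i → G.jmp w (p j) = 0) :
    ∃ y, G.vt y ∈ S ∧ G.hd y ∉ S ∧ ∀ i, G.o y ≠ p i := by
  by_contra hn
  push Not at hn
  obtain ⟨x, hx⟩ := hne
  obtain ⟨i, hi, w, w1, w2, w3⟩ := hf {i | G.hd (p i) ∈ S} (by
    obtain ⟨i, ⟨_ | k, h1, e⟩ | ⟨_ | k, h1, e⟩⟩ := h.st x hx
    · exact (h.out i (by rwa [← e] at hx)).elim
    · exact ⟨i, h1 0 (by omega)⟩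
    · exact ⟨i, by rw [Set.mem_ofPred_eq, show p i = G.o x from e, hd_o]; exact hx⟩
    · exact ⟨i, h1 0 (by omega)⟩)
  refine w2 (neg_eq_zero.1 ((anti_jmp w _).symm.trans (flux (anti_jmp w)
    (fun v _ => w1.div_jmp v) (S := S) hi (by rw [hd_o]; exact h.out i) fun z a b c => ?_)))
  obtain ⟨j, e⟩ := hn z a b
  rw [← neg_eq_zero, ← anti_jmp w, e]
  exact w3 j (by rw [Set.mem_ofPred_eq, ← e, hd_o]; exact a) fun e' => c (by rw [← e', ← e, G.oo])

theorem State.exists_good [Fintype V] (h : G.State S p) (hi : Injective p) {pos pos' : ι → ℤ}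
    (hpos : Injective pos) (hpos' : Injective pos') {x0 x1 : X} (hp : G.Pre p pos x0)
    (hp' : G.mir.Pre p pos' x1) (hf : ∃ y, G.vt y ∈ S ∧ G.hd y ∉ S ∧ ∀ i, G.o y ≠ p i) :
    ∃ y, G.vt y ∈ S ∧ G.hd y ∉ S ∧ (∀ i, G.o y ≠ p i) ∧
      ∀ i x, G.vt x = G.vt y → G.Fw S p i x → G.hd x ∉ S := by
  classical
  by_contra hn
  push Not at hn
  let D := {x // G.vt x ∈ S ∧ G.hd x ∈ S ∧ ∃ i, G.Fw S p i x}
  have k : ∀ y, G.vt y ∈ S → G.hd y ∉ S → (∀ i, G.o y ≠ p i) → ∃ x : D, G.vt x.1 = G.vt y :=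
    fun y a b c => by
      obtain ⟨i, x, e, h1, h2⟩ := hn y a b c
      exact ⟨⟨x, e ▸ a, h2, i, h1⟩, e⟩
  have : ∀ x : D, ∃ y : D, G.vt y.1 = G.hd x.1 := by
    rintro ⟨x, a, b, i, c⟩
    rw [← fw_st h.out b] at c
    rw [← vt_st] at b ⊢
    by_cases c' : G.hd (G.st x) ∈ S
    · exact ⟨⟨_, b, c', i, c⟩, rfl⟩
    · exact k _ b c' fun j e => c.2 j (e ▸ on_refl _)
  choose f hf' using this
  obtain ⟨y, a, b, c⟩ := hf
  obtain ⟨x, -⟩ := k y a b c
  let P := univ.filter (· ∈ periodicPts f)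
  obtain ⟨z, hz⟩ : ∃ z, z ∈ periodicPts f := by
    obtain ⟨m, n, hmn, e⟩ := Finite.exists_ne_map_eq_of_infinite fun n : ℕ => f^[n] x
    wlog hlt : m < n generalizing m n
    · exact this n m hmn.symm e.symm (by omega)
    refine ⟨f^[m] x, n - m, by omega, ?_⟩
    rw [IsPeriodicPt, IsFixedPt, ← iterate_add_apply, Nat.sub_add_cancel hlt.le, e]
  obtain ⟨w, w1, w2⟩ := planar' (G := G) (Z := fun x => ∑ y ∈ P, G.unit y.1 x)
    (fun x => by simp only [anti_unit _ x, sum_neg_distrib]) fun v => by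
      simp only [div_sum, div_unit, sum_sub_distrib, ← hf']
      rw [sub_eq_zero, eq_comm]
      exact sum_nbij f (by simpa [P, Set.MapsTo] using (bijOn_periodicPts f).mapsTo)
        (by simpa [P] using (bijOn_periodicPts f).injOn)
        (by simpa [P] using (bijOn_periodicPts f).surjOn) fun _ _ => rfl
  have fo : ∀ i x, G.Fw S p i x → ∀ y : D, G.o x ≠ y.1 := fun i x hx y e => by
    obtain ⟨j, hj⟩ := y.2.2.2
    exact hx.2 j (e ▸ hj.1)
  have j1 : ∀ i x, G.Fw S p i x → G.jmp w x = ∑ y ∈ P, if x = y.1 then 1 else 0 := fun i x hx => by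
    simp only [w2, unit, fo i x hx, if_false, sub_zero]
  have h1 : ∀ i x, G.Fw S p i x → w (G.o x) ≤ w x := fun i x hx =>
    sub_nonneg.1 ((sum_nonneg fun _ _ => by split_ifs <;> simp).trans_eq (j1 i x hx).symm)
  have j0 : ∀ x, (∀ y : D, x ≠ y.1 ∧ G.o x ≠ y.1) → G.jmp w x = 0 := fun x hx => by
    simp [w2, unit, hx]
  have h2 : ∀ x, G.Rel S p x → (∀ i, ¬ (G.Fw S p i x ∨ G.Fw S p i (G.o x))) → w x = w (G.o x) :=
    fun x _ hx => sub_eq_zero.1 (j0 x fun y => by
      obtain ⟨j, hj⟩ := y.2.2.2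
      exact ⟨fun e => hx j (Or.inl (e ▸ hj)), fun e => hx j (Or.inr (e ▸ hj))⟩)
  have jp : ∀ i, G.jmp w (p i) = 0 := fun i => j0 _ fun y =>
    ⟨fun e => h.out i (e ▸ y.2.1), fun e => h.out i (by rw [← hd_o, e]; exact y.2.2.1)⟩
  obtain ⟨i, hz'⟩ := z.2.2.2
  have a1 := h.le_base hi hpos hp w1 h1 h2 hz'.1.rel
  have iv : G.mir.Inv fun x => -w (G.o x) := fun x => congrArg Neg.neg (w1.mir x)
  have a2 : -w (G.o z.1) ≤ -w (G.o x1) := h.mir.le_base hi hpos' hp' iv
    (fun i x hx => by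
      rw [mir_fw] at hx
      change -w (G.o (G.o x)) ≤ _
      rw [G.oo]; exact neg_le_neg (h1 i x hx))
    (fun x hx c => by
      rw [mir_fw] at c
      change _ = -w (G.o (G.o x))
      rw [G.oo, h2 x hx c]) hz'.1.rel
  have a3 := hp w w1 i
  have a4 := hp' _ iv i
  have a5 := jp i
  have a6 := j1 i _ hz'
  rw [sum_eq_single z (fun b _ hb => if_neg fun e => hb (Subtype.ext e.symm)) (by simp [P, hz]),
    if_pos rfl] at a6
  have e : ∀ j, G.mir.jmp (fun x => -w (G.o x)) (p j) = 0 := fun j => by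
    change -w (G.o _) - -w (G.o (G.o _)) = 0
    rw [G.oo, ← jp j, jmp]; ring
  simp only [jp, e, ite_self, sum_const_zero] at a3 a4
  rw [jmp] at a5 a6
  linarith

/-- the sweeping lemma -/
theorem State.sweep [Fintype V] (h : G.State S p) (hi : Injective p) {pos pos' : ι → ℤ}
    (hpos : Injective pos) (hpos' : Injective pos') {x0 x1 : X} (hp : G.Pre p pos x0)
    (hp' : G.mir.Pre p pos' x1) (hne : ∃ x, G.vt x ∈ S)
    (hf : ∀ L : Set ι, L.Nonempty → ∃ i ∈ L, ∃ w, G.Inv w ∧ G.jmp w (p i) ≠ 0 ∧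
      ∀ j ∈ L, j ≠ i → G.jmp w (p j) = 0) :
    ∃ i j, G.hd (p i) = G.hd (p j) ∧ G.cu (p i) ≠ G.cu (p j) := by
  induction hm : S.ncard using Nat.strong_induction_on generalizing S with
  | _ m ih =>
    obtain ⟨y, a, b, c, d⟩ := h.exists_good hi hpos hpos' hp hp' (h.exists_front hne hf)
    by_cases e : ∃ x, G.vt x ∈ S \ {G.vt y}
    · exact ih _ (hm ▸ Set.ncard_diff_singleton_lt_of_mem a) (h.erase a b c d) e rfl
    have e' : ∀ x, G.vt x ∈ S → G.vt x = G.vt y := fun x hx => by
      by_contra c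
      exact e ⟨x, hx, c⟩
    have k : ∀ x, G.vt x = G.vt y → ∃ i, G.hd (p i) = G.vt y ∧ G.cu (p i) = G.cu x := fun x hx => by
      obtain ⟨i, hi | hi⟩ := h.st x (hx ▸ a)
      · refine ⟨i, ?_, hi.cu.symm⟩
        obtain ⟨_ | k, h1, e⟩ := hi
        exacts [(h.out i (by rwa [← hx, ← e] at a)).elim, e' _ (h1 0 (by omega))]
      · refine ⟨i, ?_, hi.cu.symm.trans (G.cu_o x)⟩
        obtain ⟨_ | k, h1, e⟩ := hi
        exacts [by rw [show p i = G.o x from e, hd_o, hx], e' _ (h1 0 (by omega))]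
    obtain ⟨i, a1, a2⟩ := k y rfl
    obtain ⟨j, b1, b2⟩ := k _ (G.vt_r y)
    exact ⟨i, j, a1.trans b1.symm, by rw [a2, b2]; exact (G.cu_r y).symm⟩

end Sys

end Pool.Agent.MP_920d98_co

end

section

set_option autoImplicit false

/-!
A closed walk through distinct faces whose last part crosses every curve at most once makes a
sharp turn in its first part.
-/

namespace Pool.Agent.MP_920d98_co

open Equiv Finset Function

namespace Sys

variable {X V C : Type} (G : Sys X V C)

/-- the two darts lie on the same face -/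
def SF (y z : X) : Prop := ∀ w, G.Inv w → w y = w z
/-- crossing the dart `x i` leads from the face of `f i` to the face of `f (i + 1)` -/
def Walk (f x : ℕ → X) (N : ℕ) : Prop :=
  ∀ i < N, G.SF (G.o (x i)) (f i) ∧ G.SF (x i) (f (i + 1))
/-- any two curves meet -/
def Meet : Prop := ∀ x y, ∃ k l, G.vt (G.st^[k] x) = G.vt (G.st^[l] y)

variable {G}

theorem SF.refl (x : X) : G.SF x x := fun _ _ => rfl
theorem SF.symm {x y : X} (h : G.SF x y) : G.SF y x := fun w hw => (h w hw).symm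
theorem SF.trans {x y z : X} (h : G.SF x y) (h' : G.SF y z) : G.SF x z :=
  fun w hw => (h w hw).trans (h' w hw)
theorem sf_ph (x : X) : G.SF (G.ph x) x := fun _ hw => hw x

theorem adj_of_hd {a b : X} (h : G.hd a = G.hd b) (hc : G.cu a ≠ G.cu b) :
    G.ph a = G.o b ∨ G.ph b = G.o a := by
  rw [← G.cu_o a, ← G.cu_o b] at hc
  rcases G.vt_eq _ _ h with e | e | e | e
  · exact (hc (e ▸ rfl)).elim
  · exact Or.inl e.symm
  · exact (hc (by rw [e, G.cu_rr])).elim
  · exact Or.inr (by rw [ph, e, G.r4])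

variable [Fintype X] [DecidableEq V]

theorem pre1 {q g : ℕ → X} {m : ℕ}
    (h : ∀ w, G.Inv w → ∀ i < m, w (q i) = w (g i) ∧ w (G.o (q i)) = w (g (i + 1))) :
    G.Pre (fun i : Fin m => q i) (fun i => (i : ℕ)) (g 0) := fun w hw i => by
  rw [Fin.sum_univ_eq_sum_range (fun j : ℕ => if (j : ℤ) < (i : ℕ) then G.jmp w (q j) else 0),
    ← sum_filter, show (range m).filter (fun j : ℕ => (j : ℤ) < (i : ℕ)) = range i by
      ext j; simp only [mem_filter, mem_range]; omega,
    sum_congr rfl fun j hj => show _ = w (g j) - w (g (j + 1)) by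
      have := h w hw j ((mem_range.1 hj).trans i.2)
      rw [jmp, this.1, this.2],
    sum_range_sub' fun j => w (g j), (h w hw i i.2).1]
  ring

theorem pre2 {q g : ℕ → X} {m : ℕ}
    (h : ∀ w, G.Inv w → ∀ i < m, w (G.o (q i)) = w (g i) ∧ w (q i) = w (g (i + 1))) :
    G.Pre (fun i : Fin m => q i) (fun i => -(i : ℕ)) (g m) := fun w hw i => by
  rw [Fin.sum_univ_eq_sum_range (fun j : ℕ => if -(j : ℤ) < -(i : ℕ) then G.jmp w (q j) else 0),
    ← sum_filter, show (range m).filter (fun j : ℕ => -(j : ℤ) < -(i : ℕ)) = Ico ((i : ℕ) + 1) m by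
      ext j; simp only [mem_filter, mem_range, mem_Ico]; omega,
    sum_congr rfl fun j hj => show _ = w (g (j + 1)) - w (g j) by
      have := h w hw j (mem_Ico.1 hj).2
      rw [jmp, this.1, this.2],
    sum_Ico_sub (fun j => w (g j)) i.2, (h w hw i i.2).2]
  ring

theorem exists_side {c : ℕ → X} {N : ℕ} (h0 : 0 < N) (hi : ∀ k < N, ∀ l < N, c k = c l → k = l)
    (hne : ∀ k < N, ∀ l < N, c k ≠ G.o (c l))
    (h1 : ∀ w, G.Inv w → ∑ k ∈ range N, G.jmp w (c k) = 0)
    (hu : ∀ a : ℕ → ℤ, ∑ k ∈ range N, a k = 0 → ∃ u, G.Inv u ∧ ∀ k < N, G.jmp u (c k) = a k) :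
    ∃ S : Set V, (∀ k < N, G.vt (c k) ∉ S ∧ G.hd (c k) ∈ S) ∧
      ∀ x, G.vt x ∉ S → G.hd x ∈ S → ∃ k < N, x = c k := by
  classical
  let W : X → Prop := fun x => ∀ k < N, x ≠ c k ∧ G.o x ≠ c k
  have wo : ∀ x, W x → W (G.o x) := fun x hx k hk => by rw [G.oo]; exact (hx k hk).symm
  let S := {v | G.Lnk W (G.hd (c 0)) v}
  have a : ∀ x, W x → G.vt x ∈ S → G.hd x ∈ S := fun x hx h => h.tail ⟨x, hx, rfl, rfl⟩
  have a' : ∀ x, G.vt x ∈ S → G.hd x ∉ S → ∃ k < N, x = c k ∨ G.o x = c k := fun x h h' => by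
    by_contra hn
    push Not at hn
    exact h' (a x hn h)
  have b : G.vt (c 0) ∉ S := fun h => by
    obtain ⟨τ, t1, t2, t3⟩ := Lnk.flow (fun x hx => G.oo x ▸ wo _ hx) h
    obtain ⟨w, w1, w2⟩ := planar' (G := G) (Z := fun x => τ x + G.unit (c 0) x)
      (fun x => by beta_reduce; rw [t1, anti_unit]; ring) fun v => by
        rw [div_add, t3, div_unit]; ring
    have e : ∀ k < N, G.jmp w (c k) = if k = 0 then 1 else 0 := fun k hk => by
      rw [w2, not_not.1 fun h => (t2 _ h k hk).1 rfl, unit, if_neg (hne 0 h0 k hk).symm,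
        if_congr ⟨hi k hk 0 h0, fun e => e ▸ rfl⟩ rfl rfl]
      ring
    have := h1 w w1
    rw [sum_congr rfl fun k hk => e k (mem_range.1 hk)] at this
    simp [h0] at this
  have b' : G.hd (c 0) ∈ S := .refl
  have d : ∀ k < N, G.vt (c k) ∉ S ∧ G.hd (c k) ∈ S := fun k hk => by
    by_contra hn
    have k0 : k ≠ 0 := fun e => hn (e ▸ ⟨b, b'⟩)
    obtain ⟨u, u1, u2⟩ := hu (fun l => (if l = 0 then 1 else 0) - if l = k then 1 else 0)
      (by simp [h0, hk])
    have := flux_le (anti_jmp u) (fun v _ => u1.div_jmp v) (S := S) (y := G.o (c 0)) b'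
      (by rwa [hd_o]) fun x x1 x2 => by
        obtain ⟨l, hl, rfl | e⟩ := a' x x1 x2
        · rw [u2 l hl, if_neg fun e : l = 0 => b (e ▸ x1)]
          split_ifs <;> simp
        · rw [← neg_nonneg, ← anti_jmp u, e, u2 l hl, if_neg fun e' : l = k =>
            hn (by rw [← e', ← e, hd_o]; exact ⟨x2, x1⟩)]
          split_ifs <;> simp
    simp [anti_jmp u _, u2 0 h0, k0.symm] at this
  refine ⟨S, d, fun x x1 x2 => ?_⟩
  obtain ⟨k, hk, e | e⟩ := a' (G.o x) x2 (by rwa [hd_o])
  · exact ((d k hk).1 (e ▸ x2)).elim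
  · exact ⟨k, hk, G.oo x ▸ e⟩

theorem side [Fintype V] {c : ℕ → X} {N m : ℕ} (h0 : 0 < m) (hm : m < N) {S : Set V}
    (hS : ∀ k < N, G.vt (c k) ∉ S ∧ G.hd (c k) ∈ S)
    (hS' : ∀ x, G.vt x ∉ S → G.hd x ∈ S → ∃ k < N, x = c k)
    (hi : ∀ k < N, ∀ l < N, c k = c l → k = l)
    (hu : ∀ a : ℕ → ℤ, ∑ k ∈ range N, a k = 0 → ∃ u, G.Inv u ∧ ∀ k < N, G.jmp u (c k) = a k)
    (hρ : ∀ k < N, ∀ l < N, m ≤ k → m ≤ l → G.cu (c k) = G.cu (c l) → k = l)
    (hw : ∀ x, G.vt x ∈ S → ∃ k, G.hd (G.st^[k] x) ∉ S) {pos pos' : Fin m → ℤ}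
    (hpos : Injective pos) (hpos' : Injective pos') {x0 x1 : X}
    (hp : G.Pre (fun i : Fin m => c i) pos x0) (hp' : G.mir.Pre (fun i : Fin m => c i) pos' x1) :
    ∃ i < m, ∃ j < m, G.ph (c i) = G.o (c j) := by
  classical
  have ex : ∀ x, G.vt x ∈ S → ∃ k < N, G.On S (c k) (G.o x) ∧ G.dir (c k) = !G.dir x := by
    intro x hx
    have a1 : G.In S x (Nat.find (hw x hx)) := fun j hj => not_not.1 (Nat.find_min _ hj)
    have a2 := Nat.find_spec (hw x hx)
    generalize Nat.find (hw x hx) = L at a1 a2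
    obtain ⟨k, hk, e⟩ := hS' (G.o (G.st^[L] x)) a2 (by
      rw [hd_o]
      rcases Nat.eq_zero_or_pos L with rfl | h
      exacts [hx, a1.vt h le_rfl])
    have r := fun t => retrace (y := c k) (z := x) (l := L) (t := t) (by rw [← e, G.oo])
    refine ⟨k, hk, ⟨L, fun t ht => ?_, by simp [r L le_rfl]⟩, by rw [← e, G.dir_o, dir_iter]⟩
    rw [r t ht.le, hd_o]
    exact a1.vt (by omega) (by omega)
  have st : G.State S fun i : Fin m => c i := by
    refine ⟨fun i => (hS i (by omega)).1, fun Z z1 z2 => ?_, fun x hx => ?_⟩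
    · obtain ⟨u, u1, u2⟩ := hu (fun k => Z (c k) - if k = 0 then ∑ l ∈ range N, Z (c l) else 0)
        (by simp [show 0 < N by omega])
      have e : ∀ k < N, G.jmp u (c k) = Z (c k) := fun k hk => by
        by_cases c0 : k = 0
        swap
        · simp [u2 k hk, c0]
        have := flux (Z := fun x => Z x - G.jmp u x) (S := S)
          (fun x => by beta_reduce; rw [z1, anti_jmp]; ring)
          (fun v hv => by rw [div_sub, z2 v hv, u1.div_jmp, sub_zero]) (y := G.o (c k))
          (hS k hk).2 (by rw [hd_o]; exact (hS k hk).1) fun x x1 x2 x3 => by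
            obtain ⟨l, hl, e⟩ := hS' (G.o x) x2 (by rwa [hd_o])
            have := u2 l hl
            rw [if_neg fun e' => x3 (by rw [c0, ← e', ← e, G.oo]), ← e, z1, anti_jmp] at this
            linarith
        simp only [z1 _, anti_jmp u _] at this
        linarith
      obtain ⟨w, w1, w2⟩ := planar' (G := G)
        (Z := fun x => if G.vt x ∈ S ∨ G.hd x ∈ S then Z x else G.jmp u x)
        (fun x => by
          beta_reduce
          rw [hd_o, z1, anti_jmp, if_congr or_comm rfl rfl]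
          change (if G.vt x ∈ S ∨ G.hd x ∈ S then _ else _) = _
          split_ifs <;> rfl) fun v => by
        by_cases hv : v ∈ S
        · rw [← z2 v hv]
          exact div_congr fun x hx => if_pos (Or.inl (hx ▸ hv))
        · rw [← u1.div_jmp v]
          refine div_congr fun x hx => ?_
          beta_reduce
          split_ifs with a
          · obtain ⟨k, hk, rfl⟩ := hS' x (hx ▸ hv) (a.resolve_left (hx ▸ hv))
            exact (e k hk).symm
          · rfl
      refine ⟨w, w1, fun x hx => (w2 x).trans (if_pos ?_)⟩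
      rcases hx with a | a | ⟨i, rfl | a⟩
      exacts [Or.inl a, Or.inr a, Or.inr (hS i (by omega)).2,
        Or.inl (by rw [← hd_o, a]; exact (hS i (by omega)).2)]
    · obtain ⟨k, hk, k1, k2⟩ := ex x hx
      have hx' : G.vt (G.r (G.r x)) ∈ S := by rwa [G.vt_r, G.vt_r]
      obtain ⟨l, hl, l1, l2⟩ := ex _ hx'
      rw [← on_st (hS l hl).1 (by rwa [hd_o]), st_orr] at l1
      by_cases c1 : k < m
      · exact ⟨⟨k, c1⟩, Or.inr k1⟩
      by_cases c2 : l < m
      · exact ⟨⟨l, c2⟩, Or.inl l1⟩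
      obtain rfl := hρ k hk l hl (by omega) (by omega) (by rw [← k1.cu, ← l1.cu, G.cu_o])
      rw [k2, G.dir_rr] at l2
      simp at l2
  obtain ⟨i, j, a, b⟩ := st.sweep (fun i j e => Fin.ext (hi i (by omega) j (by omega) e)) hpos hpos'
    hp hp' ⟨G.o (c 0), (hS 0 (by omega)).2⟩ fun L ⟨i, hL⟩ => by
      obtain ⟨u, u1, u2⟩ := hu (fun l => (if l = i then 1 else 0) - if l = m then 1 else 0)
        (by simp [hm, show i < N by omega])
      refine ⟨i, hL, u, u1, by simp [u2 i (by omega), i.2.ne], fun j _ hj => ?_⟩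
      simp [u2 j (by omega), j.2.ne, Fin.val_ne_of_ne hj]
  rcases adj_of_hd a b with e | e
  exacts [⟨i, i.2, j, j.2, e⟩, ⟨j, j.2, i, i.2, e⟩]

/-- the sharp turn -/
theorem cycle [Fintype V] (hM : G.Meet) {f x : ℕ → X} {N m : ℕ} (hw : G.Walk f x N)
    (hc : G.SF (f N) (f 0)) (hd : ∀ i < N, ∀ j < N, G.SF (f i) (f j) → i = j)
    (hne : ∀ i < N, ∀ j < N, x i ≠ G.o (x j)) (h0 : 0 < m) (hm : m < N)
    (hρ : ∀ k < N, ∀ l < N, m ≤ k → m ≤ l → G.cu (x k) = G.cu (x l) → k = l) :
    ∃ i, i + 1 < m ∧ (G.ph (x i) = G.o (x (i + 1)) ∨ G.ph (G.o (x (i + 1))) = x i) := by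
  classical
  have hi : ∀ k < N, ∀ l < N, x k = x l → k = l := fun k hk l hl e =>
    hd k hk l hl ((hw k hk).1.symm.trans (e ▸ (hw l hl).1))
  have jw : ∀ w, G.Inv w → ∀ k < N, G.jmp w (x k) = w (f (k + 1)) - w (f k) := fun w h k hk => by
    rw [jmp, (hw k hk).1 w h, (hw k hk).2 w h]
  have hu : ∀ a : ℕ → ℤ, ∑ k ∈ range N, a k = 0 →
      ∃ u, G.Inv u ∧ ∀ k < N, G.jmp u (x k) = a k := fun a ha => by
    let u : X → ℤ := fun z => ∑ i ∈ range N, if G.SF z (f i) then ∑ j ∈ range i, a j else 0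
    have u1 : G.Inv u := fun z => sum_congr rfl fun i _ =>
      if_congr ⟨(sf_ph z).symm.trans, (sf_ph z).trans⟩ rfl rfl
    have u2 : ∀ i < N, u (f i) = ∑ j ∈ range i, a j := fun i hi => by
      simp only [u]
      rw [sum_eq_single i (fun j hj c => if_neg fun e => c (hd i hi j (mem_range.1 hj) e).symm)
        (by simp [hi]), if_pos (SF.refl _)]
    refine ⟨u, u1, fun k hk => ?_⟩
    rw [jw u u1 k hk, u2 k hk]
    rcases (show k + 1 < N ∨ k + 1 = N by omega) with c | rfl
    · rw [u2 _ c, sum_range_succ]; ring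
    · rw [sum_range_succ] at ha
      rw [hc u u1, u2 0 (by omega), sum_range_zero]; linarith
  obtain ⟨S, s1, s2⟩ := exists_side (by omega) hi hne (fun w h => by
    rw [sum_congr rfl fun k hk => jw w h k (mem_range.1 hk), sum_range_sub fun k => w (f k),
      hc w h, sub_self]) hu
  have p1 : Injective fun i : Fin m => ((i : ℕ) : ℤ) := fun i j e => Fin.ext (by simpa using e)
  have p2 : Injective fun i : Fin m => -((i : ℕ) : ℤ) := fun i j e => Fin.ext (by simpa using e)
  have wm : ∀ w, G.mir.Inv w → ∀ i < m, w (x i) = w (G.o (f i)) ∧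
      w (G.o (x i)) = w (G.o (f (i + 1))) := fun w h i hi =>
    ⟨by simpa [G.oo] using (hw i (by omega)).1 _ h.of_mir, (hw i (by omega)).2 _ h.of_mir⟩
  by_cases c : ∀ y, G.vt y ∈ S → ∃ k, G.hd (G.st^[k] y) ∉ S
  · obtain ⟨i, a, j, b, e⟩ := side h0 hm s1 s2 hi hu hρ c p2 p1
      (pre2 fun w h i hi => ⟨(hw i (by omega)).1 w h, (hw i (by omega)).2 w h⟩)
      (pre1 (G := G.mir) (g := fun i => G.o (f i)) wm)
    obtain rfl := hd (i + 1) (by omega) j (by omega)
      ((hw i (by omega)).2.symm.trans ((sf_ph _).symm.trans (e ▸ (hw j (by omega)).1)))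
    exact ⟨i, b, Or.inl e⟩
  push Not at c
  obtain ⟨y, y1, y2⟩ := c
  have y3 : ∀ k, G.vt (G.st^[k] y) ∈ S := by
    rintro (_ | k)
    exacts [y1, by rw [iterate_succ_apply', vt_st]; exact y2 k]
  obtain ⟨i, a, j, b, e⟩ := side (c := fun k => G.o (x k)) (S := Sᶜ) h0 hm
    (fun k hk => ⟨not_not.2 (s1 k hk).2, by rw [hd_o]; exact (s1 k hk).1⟩)
    (fun z z1 z2 => by
      obtain ⟨k, hk, e⟩ := s2 (G.o z) z2 (by rw [hd_o]; exact not_not.1 z1)
      exact ⟨k, hk, by rw [← e, G.oo]⟩)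
    (fun k hk l hl e => hi k hk l hl (G.o_inj e))
    (fun a ha => by
      obtain ⟨u, u1, u2⟩ := hu (fun k => -a k) (by simp [ha])
      exact ⟨u, u1, fun k hk => by rw [anti_jmp, u2 k hk, neg_neg]⟩)
    (by simpa only [G.cu_o] using hρ)
    (fun z hz => by
      obtain ⟨_ | k, l, e⟩ := hM z y
      · exact (hz (by rw [show G.vt z = _ from e]; exact y3 l)).elim
      · exact ⟨k, not_not.2 (by rw [← vt_st, ← iterate_succ_apply' G.st, e]; exact y3 l)⟩)
    p1 p2 (pre1 (q := fun k => G.o (x k)) fun w h i hi =>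
      ⟨(hw i (by omega)).1 w h, by rw [G.oo]; exact (hw i (by omega)).2 w h⟩)
    (pre2 (G := G.mir) (q := fun k => G.o (x k)) (g := fun i => G.o (f i)) fun w h i hi =>
      ⟨by change w (G.o (G.o _)) = _; rw [G.oo]; exact (wm w h i hi).1, (wm w h i hi).2⟩)
  rw [G.oo] at e
  obtain rfl := hd i (by omega) (j + 1) (by omega)
    ((hw i (by omega)).1.symm.trans ((sf_ph _).symm.trans (e ▸ (hw j (by omega)).2)))
  exact ⟨j, a, Or.inr e⟩

end Sys

end Pool.Agent.MP_920d98_co

end

section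

set_option autoImplicit false

/-!
Funnels: walks through faces that never leave a face through an edge adjacent to the one through
which they entered it.  The counting lemma.
-/

namespace Pool.Agent.MP_920d98_co

open Equiv Finset Function

namespace Sys

variable {X V C : Type} (G : Sys X V C)

/-- enter a face through `x`, leave it through the edge `y` not adjacent to `x` -/
def Imp (x y : X) : Prop := G.SF x (G.o y) ∧ G.o y ≠ x ∧ G.ph x ≠ G.o y ∧ G.ph (G.o y) ≠ x
/-- the darts lie on different curves -/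
def Rain (y : ℕ → X) (l : ℕ) : Prop := ∀ i < l, ∀ j < l, G.cu (y i) = G.cu (y j) → i = j

variable {G}

theorem Imp.o {x y : X} (h : G.Imp x y) : G.Imp (G.o y) (G.o x) := by
  rw [Imp, G.oo]
  exact ⟨h.1.symm, h.2.1.symm, h.2.2.2, h.2.2.1⟩

variable [Fintype X] [DecidableEq V]

open Classical in
theorem exists_pot (c : C) : ∃ s, G.Inv s ∧
    ∀ x, G.jmp s x = if G.cu x = c then (if G.dir x then 1 else -1) else 0 :=
  planar' (fun x => by rw [G.cu_o, G.dir_o]; cases G.dir x <;> split_ifs <;> simp_all)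
    fun v => div_rr fun x _ => by rw [G.cu_rr, G.dir_rr]; cases G.dir x <;> split_ifs <;> simp_all

theorem Walk.ne {g y : ℕ → X} {l : ℕ} (hw : G.Walk g y l) (hr : G.Rain y l) {a b : ℕ} (hab : a < b)
    (hb : b ≤ l) : ¬ G.SF (g a) (g b) := fun h => by
  obtain ⟨s, s1, s2⟩ := exists_pot (G := G) (G.cu (y a))
  have e : ∀ k < l, s (g (k + 1)) - s (g k) = G.jmp s (y k) := fun k hk => by
    rw [jmp, (hw k hk).1 s s1, (hw k hk).2 s s1]
  have := sum_Ico_sub (fun k => s (g k)) hab.le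
  rw [sum_eq_single a (fun k hk c => by
    have := (mem_Ico.1 hk).2
    rw [e k (by omega), s2, if_neg fun e => c (hr k (by omega) a (by omega) e)]) (by simp [hab]),
    e a (by omega), s2, if_pos rfl, h s s1, sub_self] at this
  split_ifs at this <;> simp at this

variable [Fintype V]

theorem cycle' (hM : G.Meet) {f x : ℕ → X} {N m : ℕ} (hw : G.Walk f x N)
    (hc : G.SF (f N) (f 0)) (hd : ∀ i j, i < j → j < N → ¬ G.SF (f i) (f j))
    (hne : N = 2 → x 0 ≠ G.o (x 1)) (h0 : 0 < m) (hm : m < N)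
    (hρ : ∀ k < N, ∀ l < N, m ≤ k → m ≤ l → G.cu (x k) = G.cu (x l) → k = l) :
    ∃ i, i + 1 < m ∧ ¬ G.Imp (x i) (x (i + 1)) := by
  have hd' : ∀ i < N, ∀ j < N, G.SF (f i) (f j) → i = j := fun i hi j hj e => by
    rcases lt_trichotomy i j with c | c | c
    exacts [(hd i j c hj e).elim, c, (hd j i c hi e.symm).elim]
  have k : ∀ i < N, ∀ j < N, x i = G.o (x j) → j = i + 1 ∨ j = 0 ∧ i + 1 = N := fun i hi j hj e => by
    have a := (hw i hi).2.symm.trans (e ▸ (hw j hj).1)
    rcases (show i + 1 < N ∨ i + 1 = N by omega) with c | c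
    · exact Or.inl (hd' _ c j hj a).symm
    · exact Or.inr ⟨(hd' 0 (by omega) j hj (hc.symm.trans (c ▸ a))).symm, c⟩
  obtain ⟨i, a, b⟩ := cycle hM hw hc hd' (fun i hi j hj e => by
    have e' : x j = G.o (x i) := by rw [e, G.oo]
    have a := k i hi j hj e
    have b := k j hj i hi e'
    obtain ⟨rfl, rfl⟩ | ⟨rfl, rfl⟩ : i = 0 ∧ j = 1 ∨ i = 1 ∧ j = 0 := by omega
    exacts [hne (by omega) e, hne (by omega) e']) h0 hm hρ
  exact ⟨i, a, fun h => b.elim h.2.2.1 h.2.2.2⟩

/-- a funnel does not return to a rainbow walk that it has left -/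
theorem funnel (hM : G.Meet) {m : ℕ} {x g y : ℕ → X} {l : ℕ} (hw : G.Walk g y l) (hr : G.Rain y l)
    (hx : ∀ i < m, G.Imp (x i) (x (i + 1))) (h0 : G.SF (G.o (x 0)) (g 0))
    (h1 : 0 < l → x 0 ≠ y 0) {j : ℕ} (hj : j ≤ l) : ¬ G.SF (x m) (g j) := by
  induction m using Nat.strong_induction_on generalizing x g y l j with
  | _ m ih =>
  intro h
  have a : ∀ i < m, ∀ j ≤ l, ¬ G.SF (x i) (g j) := fun i hi j hj =>
    ih i hi hw hr (fun k hk => hx k (by omega)) h0 h1 hj
  have b : ∀ i j, i ≤ j → j < m → ¬ G.SF (x j) (G.o (x i)) := fun i j hij hj => by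
    have := ih (j - i) (by omega) (x := fun k => x (i + k)) (g := fun _ => G.o (x i)) (y := x) (l := 0)
      (fun _ h => by omega) (fun _ h => by omega) (fun k hk => hx _ (by omega)) (SF.refl _)
      (by omega) le_rfl
    rwa [Nat.add_sub_cancel' hij] at this
  by_cases c : m = 0 ∧ j = 0
  · obtain ⟨rfl, rfl⟩ := c
    exact Walk.ne (g := fun i => if i = 0 then G.o (x 0) else x 0) (y := x) (l := 1)
      (fun i hi => by obtain rfl : i = 0 := by omega
                      exact ⟨SF.refl _, SF.refl _⟩) (fun _ _ _ _ _ => by omega) zero_lt_one le_rfl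
      (h0.trans h.symm)
  obtain ⟨i, i1, i2⟩ := cycle' hM (f := fun i => if i ≤ m then G.o (x i) else g (m + 1 + j - i))
    (x := fun i => if i ≤ m then x i else G.o (y (m + j - i))) (N := m + 1 + j)
    (m := if j = 0 then m else m + 1) (fun i hi => by
      rcases lt_trichotomy i m with c | rfl | c
      · simp only [if_pos c.le, if_pos (show i + 1 ≤ m from c)]
        exact ⟨SF.refl _, (hx i c).1⟩
      · simp only [le_refl, if_true, if_neg i.not_succ_le_self]
        exact ⟨SF.refl _, by simpa using h⟩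
      · simp only [if_neg c.not_ge, if_neg (show ¬ i + 1 ≤ m by omega), G.oo]
        rw [show m + 1 + j - i = m + j - i + 1 by omega, show m + 1 + j - (i + 1) = m + j - i by omega]
        exact (hw _ (by omega)).symm)
    (by simpa [show ¬ m + 1 + j ≤ m by omega] using h0.symm)
    (fun i k hik hk => by
      by_cases c1 : k ≤ m
      · obtain ⟨k, rfl⟩ := Nat.exists_eq_add_one.2 (show 0 < k by omega)
        simp only [if_pos c1, if_pos (show i ≤ m by omega)]
        exact fun e => b i k (by omega) c1 ((hx k c1).1.trans e.symm)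
      by_cases c2 : i ≤ m
      · simp only [if_neg c1, if_pos c2]
        rcases i with _ | i
        · exact fun e => hw.ne hr (a := 0) (by omega) (by omega) (h0.symm.trans e)
        · exact fun e => a i c2 _ (by omega) ((hx i c2).1.trans e)
      · simp only [if_neg c1, if_neg c2]
        exact fun e => hw.ne hr (by omega) (by omega) e.symm)
    (fun e => by
      obtain ⟨rfl, rfl⟩ | ⟨rfl, rfl⟩ : m = 1 ∧ j = 0 ∨ m = 0 ∧ j = 1 := by omega
      · simpa using (hx 0 (by omega)).2.1.symm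
      · simpa [G.oo] using h1 hj)
    (by split_ifs <;> omega) (by split_ifs <;> omega)
    (fun k hk l' hl' c1 c2 => by
      split_ifs at c1 c2
      · omega
      · simp only [if_neg (show ¬ k ≤ m by omega), if_neg (show ¬ l' ≤ m by omega), G.cu_o]
        intro e
        have := hr _ (by omega) _ (by omega) e
        omega)
  have : i < m := by split_ifs at i1 <;> omega
  simp only [if_pos this.le, if_pos (show i + 1 ≤ m from this)] at i2
  exact i2 (hx i this)

omit [Fintype X] [DecidableEq V] [Fintype V] in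
theorem exists_seq {r : X → X → Prop} {a b : X} (h : Relation.ReflTransGen r a b) :
    ∃ (m : ℕ) (x : ℕ → X), x 0 = a ∧ x m = b ∧ ∀ i < m, r (x i) (x (i + 1)) := by
  induction h using Relation.ReflTransGen.head_induction_on with
  | refl => exact ⟨0, fun _ => b, rfl, rfl, by omega⟩
  | @head a c h _ ih =>
    obtain ⟨m, x, rfl, e, k⟩ := ih
    refine ⟨m + 1, fun i => Nat.casesOn i a x, rfl, e, ?_⟩
    rintro (_ | i) hi
    exacts [h, k i (by omega)]

theorem funnel' (hM : G.Meet) {a b : X} (h : Relation.ReflTransGen G.Imp a b) {g y : ℕ → X} {l : ℕ}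
    (hw : G.Walk g y l) (hr : G.Rain y l) (h0 : G.SF (G.o a) (g 0)) (h1 : 0 < l → a ≠ y 0) :
    ¬ G.SF b (g l) := by
  obtain ⟨m, x, rfl, rfl, k⟩ := exists_seq h
  exact funnel hM hw hr k h0 h1 le_rfl

theorem no_return (hM : G.Meet) {a b : X} (h : Relation.ReflTransGen G.Imp a b) :
    ¬ G.SF b (G.o a) :=
  funnel' hM h (g := fun _ => G.o a) (y := fun _ => a) (l := 0) (fun _ h => by omega)
    (fun _ h => by omega) (SF.refl _) (by omega)

end Sys

end Pool.Agent.MP_920d98_co

end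

section

set_option autoImplicit false

/-!
The counting lemma: labelling every edge by a side so that no face receives two labels on
edges that are not adjacent.
-/

namespace Pool.Agent.MP_920d98_co

open Equiv Finset Function Relation

namespace Sys

variable {X V C : Type} {G : Sys X V C}

theorem imp_rev {a b : X} (h : ReflTransGen G.Imp a b) : ReflTransGen G.Imp (G.o b) (G.o a) := by
  induction h with
  | refl => exact .refl
  | tail _ h ih => exact .head h.o ih

theorem ph_inj : Injective G.ph := fun _ _ h => G.o_inj (G.r.injective h)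

variable [Fintype X] [DecidableEq V] [Fintype V]

theorem exists_label (hM : G.Meet) {K : Set X} (hK : ∀ x ∈ K, ∀ y ∈ K, ¬ TransGen G.Imp x (G.o y)) :
    ∃ L : Set X, K ⊆ L ∧ (∀ x, x ∈ L ∨ G.o x ∈ L) ∧ (∀ x ∈ L, G.o x ∈ K → x ∈ K) ∧
      ∀ x ∈ L, ∀ y ∈ L, ¬ G.Imp x (G.o y) := by
  classical
  let up : X → ℤ := fun x => (univ.filter (ReflTransGen G.Imp x)).card
  have u1 : ∀ x y, G.Imp x y → up y < up x := fun x y h => by
    refine Int.ofNat_lt.2 (card_lt_card ⟨fun z hz => ?_, fun h' => ?_⟩)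
    · exact mem_filter.2 ⟨mem_univ _, .head h (mem_filter.1 hz).2⟩
    · exact no_return hM (mem_filter.1 (h' (mem_filter.2 ⟨mem_univ x, .refl⟩))).2 h.1
  let L0 := {y | ∃ x ∈ K, ReflTransGen G.Imp x y}
  refine ⟨{x | x ∈ L0 ∨ G.o x ∉ L0 ∧
    (up x < up (G.o x) ∨ up x = up (G.o x) ∧ G.dir x = true)}, fun x hx => Or.inl ⟨x, hx, .refl⟩,
    fun x => ?_, fun x hx h => ?_, fun x hx y hy h => ?_⟩
  · simp only [Set.mem_ofPred_eq, G.oo, G.dir_o]
    by_cases c1 : x ∈ L0
    · tauto
    by_cases c2 : G.o x ∈ L0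
    · tauto
    cases G.dir x <;> simp [c1, c2] <;> omega
  · obtain ⟨k, hk, a⟩ := hx.resolve_right fun a => a.1 ⟨_, h, .refl⟩
    rcases reflTransGen_iff_eq_or_transGen.1 a with rfl | a
    exacts [hk, (hK k hk _ h (by rwa [G.oo])).elim]
  · have h' := h.o
    rw [G.oo] at h'
    rcases hx with ⟨k, hk, a⟩ | ⟨a1, a2⟩ <;> rcases hy with ⟨k', hk', b⟩ | ⟨b1, b2⟩
    · exact hK k hk k' hk' ((TransGen.tail' a h).trans_left (imp_rev b))
    · exact b1 ⟨k, hk, a.tail h⟩
    · exact a1 ⟨k', hk', b.tail h'⟩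
    · have := u1 _ _ h
      have := u1 _ _ h'
      omega

open Classical in
variable (G) in
/-- the face of a dart -/
noncomputable def fc (x : X) : Finset X := univ.filter (G.SF x)

open Classical in
variable (G) in
/-- all faces -/
noncomputable def fcs : Finset (Finset X) := univ.image G.fc

omit [DecidableEq V] [Fintype V]

theorem mem_fc {x y : X} : y ∈ G.fc x ↔ G.SF x y := by simp [fc]

theorem fc_eq {x y : X} : G.fc x = G.fc y ↔ G.SF x y :=
  ⟨fun h => mem_fc.1 (h ▸ mem_fc.2 (SF.refl _)), fun h => by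
    ext z; rw [mem_fc, mem_fc]; exact ⟨h.symm.trans, h.trans⟩⟩

theorem fc_mem (x : X) : G.fc x ∈ G.fcs := by
  classical
  unfold fcs
  convert mem_image_of_mem G.fc (mem_univ x)

theorem exists_fc {O : Finset X} (h : O ∈ G.fcs) : ∃ x, G.fc x = O := by simpa [fcs] using h

theorem card_three {x : X} (h : G.ph (G.ph (G.ph x)) = x) : (G.fc x).card ≤ 3 := by
  classical
  refine (card_le_card (t := {x, G.ph x, G.ph (G.ph x)}) fun y hy => ?_).trans card_le_three
  have := mem_fc.1 hy (fun z => if z ∈ ({x, G.ph x, G.ph (G.ph x)} : Finset X) then 1 else 0)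
    fun z => if_congr (by
      simp only [mem_insert, mem_singleton, ph_inj.eq_iff]
      rw [show G.ph z = x ↔ z = G.ph (G.ph x) by rw [← ph_inj.eq_iff (b := G.ph (G.ph x)), h]]
      tauto) rfl rfl
  by_contra c
  simp [c] at this

theorem card_face {L O : Finset X} (hL : ∀ x ∈ L, ∀ y ∈ L, ¬ G.Imp x (G.o y)) (hO : O ∈ G.fcs)
    (h : L ⊆ O) : L.card ≤ 2 + if O.card = 3 then 1 else 0 := by
  classical
  split_ifs with c
  · exact (card_le_card h).trans c.le
  by_contra hn
  obtain ⟨x, hx, y, hy, z, hz, a1, a2, a3⟩ := two_lt_card.1 (not_le.1 hn)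
  obtain ⟨t, rfl⟩ := exists_fc hO
  have k : ∀ x ∈ L, ∀ y ∈ L, x ≠ y → G.ph x = y ∨ G.ph y = x := fun x hx y hy hxy => by
    have := hL x hx y hy
    rw [Imp, G.oo] at this
    have s := (mem_fc.1 (h hx)).symm.trans (mem_fc.1 (h hy))
    by_contra hn
    push Not at hn
    exact this ⟨s, hxy.symm, hn⟩
  have e : G.ph (G.ph (G.ph x)) = x := by
    rcases k x hx y hy a1 with b1 | b1 <;> rcases k x hx z hz a2 with b2 | b2 <;>
      rcases k y hy z hz a3 with b3 | b3
    all_goals first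
      | rw [b1, b3, b2]
      | rw [b2, b3, b1]
      | exact (a3 (b1.symm.trans b2)).elim
      | exact (a3 (ph_inj (b1.trans b2.symm))).elim
      | exact (a2 (ph_inj (b1.trans b3.symm))).elim
      | exact (a2 (b1.symm.trans b3)).elim
  have := card_three e
  rw [fc_eq.2 (mem_fc.1 (h hx)).symm] at this
  have := card_le_card h
  omega

theorem card_label {L : Finset X} (hL : ∀ x ∈ L, ∀ y ∈ L, ¬ G.Imp x (G.o y))
    {R : Finset (Finset X)} (hR : R ⊆ G.fcs) (h : ∀ x ∈ L, G.fc x ∈ R) :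
    L.card ≤ 2 * R.card + (R.filter fun O => O.card = 3).card := by
  classical
  rw [card_eq_sum_card_fiberwise h, card_filter, card_eq_sum_ones R, mul_sum, ← sum_add_distrib]
  refine sum_le_sum fun O hO => card_face (fun x hx y hy =>
    hL x (mem_filter.1 hx).1 y (mem_filter.1 hy).1) (hR hO) fun x hx => ?_
  rw [← (mem_filter.1 hx).2]
  exact mem_fc.2 (SF.refl _)

variable [DecidableEq V] [Fintype V] [DecidableEq X]

/-- a family of faces joined by rainbow walks through the edges in `T` -/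
theorem count (hM : G.Meet) {Src : Finset (Finset X)} (hS : Src ⊆ G.fcs) {T : Finset X}
    (hT : ∀ x ∈ T, G.o x ∈ T) (h : ∀ a b, G.fc a ∈ Src → G.fc b ∈ Src → ∃ g y l, G.Walk g y l ∧
      G.Rain y l ∧ G.SF a (g 0) ∧ G.SF b (g l) ∧ (0 < l → y 0 ∈ T)) :
    Fintype.card X + 4 * Src.card ≤
      T.card + 4 * G.fcs.card + 2 * ((G.fcs \ Src).filter fun O => O.card = 3).card := by
  classical
  have nf : ∀ x y, G.fc (G.o x) ∈ Src → x ∉ T → ReflTransGen G.Imp x y → G.fc y ∉ Src :=
    fun x y a b c d => by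
      obtain ⟨g, z, l, h1, h2, h3, h4, h5⟩ := h _ _ a d
      exact funnel' hM c h1 h2 h3 (fun e e' => b (e' ▸ h5 e)) h4
  obtain ⟨L, l1, l2, l3, l4⟩ := exists_label hM (K := {x | G.fc (G.o x) ∈ Src ∧ x ∉ T})
    fun x hx y hy c => nf x _ hx.1 hx.2 c.to_reflTransGen hy.1
  let L' := univ.filter fun x => x ∈ L ∧ x ∉ T
  have a := card_label (L := L') (R := G.fcs \ Src)
    (fun x hx y hy => l4 x (mem_filter.1 hx).2.1 y (mem_filter.1 hy).2.1) sdiff_subset
    fun x hx => mem_sdiff.2 ⟨fc_mem x, fun c => by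
      obtain ⟨-, a, b⟩ := mem_filter.1 hx
      exact nf x x (l3 x a ⟨by rwa [G.oo], fun e => b (G.oo x ▸ hT _ e)⟩).1 b .refl c⟩
  have b : (univ : Finset X) ⊆ T ∪ (L' ∪ L'.image G.o) := fun x _ => by
    by_cases c : x ∈ T
    · exact mem_union_left _ c
    refine mem_union_right _ (mem_union.2 ((l2 x).imp (fun e => ?_) fun e => ?_))
    · exact mem_filter.2 ⟨mem_univ _, e, c⟩
    · exact mem_image.2 ⟨_, mem_filter.2 ⟨mem_univ _, e, fun e => c (G.oo x ▸ hT _ e)⟩, G.oo x⟩
  have b1 := (card_le_card b).trans ((card_union_le _ _).trans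
    (Nat.add_le_add_left ((card_union_le _ _).trans (Nat.add_le_add_left card_image_le _)) _))
  have := card_sdiff_add_card_eq_card hS
  rw [card_univ] at b1
  omega

end Sys

end Pool.Agent.MP_920d98_co

end

section

set_option autoImplicit false

/-!
Two faces separated by every curve: through every face there is a walk from one to the other
that crosses every curve once.
-/

namespace Pool.Agent.MP_920d98_co

open Equiv Finset Function

namespace Sys

variable {X V C : Type} (G : Sys X V C)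

/-- every curve is a single closed walk -/
def Cyc : Prop := ∀ x y, G.cu x = G.cu y → ∃ k, G.vt (G.st^[k] x) = G.vt y

/-- `σ c` is the indicator of one side of the curve `c` -/
structure Side (σ : C → X → ℤ) : Prop where
  inv : ∀ c, G.Inv (σ c)
  zo : ∀ c x, σ c x = 0 ∨ σ c x = 1
  eq : ∀ c x, σ c x = σ c (G.o x) ↔ G.cu x ≠ c

variable {G} {σ : C → X → ℤ}

theorem Meet.const (hM : G.Meet) {w : X → ℤ} (hw : G.Inv w) (h0 : ∀ x, G.jmp w x = 0) (x y : X) :
    w x = w y := by
  have a : ∀ x, w (G.r x) = w x := fun x => (hw.r x).trans (sub_eq_zero.1 (h0 x)).symm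
  have b : ∀ x k, w (G.st^[k] x) = w x := fun x k =>
    congrFun (iterate_invariant (funext fun x => by simp [hw.st, h0]) k) x
  obtain ⟨k, l, e⟩ := hM x y
  rw [← b x k, ← b y l]
  rcases G.vt_eq _ _ e with e | e | e | e <;> simp [e, a]

theorem Side.compl (h : G.Side σ) : G.Side fun c x => 1 - σ c x :=
  ⟨fun c x => by beta_reduce; rw [h.inv c x], fun c x => by rcases h.zo c x with e | e <;> simp [e],
    fun c x => by rw [sub_right_inj, h.eq]⟩

theorem Side.st (h : G.Side σ) (c : C) (x : X) : σ c (G.st x) = σ c x ↔ G.cu (G.ph x) ≠ c := by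
  rw [(h.inv c).st, sub_eq_self, jmp, sub_eq_zero, h.eq]

theorem Side.walk (h : G.Side σ) (hM : G.Meet) {a b : C} {xa xb : X} (ha : G.cu xa = a)
    (hb : G.cu xb = b) (hab : a ≠ b) {x : X}
    (hx : (G.cu x = a ∨ σ a x = 0) ∧ (G.cu x = b ∨ σ b x = 0)) :
    ∃ y, G.cu y = G.cu x ∧ G.dir y = G.dir x ∧ σ a y = σ a x ∧ σ b y = σ b x ∧
      (G.cu (G.ph y) = a ∨ G.cu (G.ph y) = b) ∧ G.Lnk (fun y => ¬ (σ a y = 1 ∧ σ a (G.o y) = 1) ∧
        ¬ (σ b y = 1 ∧ σ b (G.o y) = 1)) (G.vt x) (G.hd y) := by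
  classical
  have k : ∀ z, G.cu z ≠ G.cu x → ∃ k, G.cu (G.ph (G.st^[k] x)) = G.cu z := fun z hz => by
    obtain ⟨k, l, e⟩ := hM (G.st x) z
    rw [← iterate_succ_apply, iterate_succ_apply', vt_st] at e
    refine ⟨k, ?_⟩
    rw [← G.cu_iter z l, ← G.cu_iter x k, ← G.cu_o (G.st^[k] x)] at hz
    rw [← G.cu_iter z l]
    rcases G.vt_eq _ _ e with e | e | e | e <;> simp_all [ph, G.cu_rr]
  have ex : ∃ k, G.cu (G.ph (G.st^[k] x)) = a ∨ G.cu (G.ph (G.st^[k] x)) = b := by
    by_cases c : G.cu x = a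
    · exact (k xb (by rw [hb, c]; exact hab.symm)).imp fun k e => Or.inr (e.trans hb)
    · exact (k xa (by rw [ha]; exact Ne.symm c)).imp fun k e => Or.inl (e.trans ha)
  have e : ∀ i ≤ Nat.find ex, σ a (G.st^[i] x) = σ a x ∧ σ b (G.st^[i] x) = σ b x := fun i hi => by
    induction i with
    | zero => exact ⟨rfl, rfl⟩
    | succ i ih =>
      have := not_or.1 (Nat.find_min ex hi)
      rw [iterate_succ_apply', (h.st _ _).2 this.1, (h.st _ _).2 this.2]
      exact ih (by omega)
  refine ⟨_, G.cu_iter x _, G.dir_iter x _, (e _ le_rfl).1, (e _ le_rfl).2, Nat.find_spec ex, ?_⟩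
  rw [← vt_st, ← iterate_succ_apply' G.st]
  refine lnk_iter x (Nat.zero_le _) fun i _ hi => ⟨fun c => ?_, fun c => ?_⟩
  · refine (h.eq a _).1 (c.1.trans c.2.symm) ((G.cu_iter x i).trans (hx.1.resolve_right fun c' => ?_))
    simp [(e i (by omega)).1, c'] at c
  · refine (h.eq b _).1 (c.1.trans c.2.symm) ((G.cu_iter x i).trans (hx.2.resolve_right fun c' => ?_))
    simp [(e i (by omega)).2, c'] at c

theorem Side.tau (h : G.Side σ) (hM : G.Meet) {Q : X} (hQ : ∀ c, σ c Q = 0) {a b : C} {x : X}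
    (ha : G.cu x = a) (hb : G.cu (G.r x) = b) : G.Lnk (fun y => ¬ (σ a y = 1 ∧ σ a (G.o y) = 1) ∧
        ¬ (σ b y = 1 ∧ σ b (G.o y) = 1)) (G.vt x) (G.vt Q) := by
  have hab : a ≠ b := fun e => G.cu_r x (by rw [ha, hb, e])
  have wk := fun z => h.walk hM ha hb hab (x := z)
  set W := fun y => ¬ (σ a y = 1 ∧ σ a (G.o y) = 1) ∧ ¬ (σ b y = 1 ∧ σ b (G.o y) = 1)
  have c1 : ∀ z, (G.cu z = a ∨ σ a z = 0) ∧ (G.cu z = b ∨ σ b z = 0) → G.cu z = a ∨ G.cu z = b →
      ∃ u, G.cu u = a ∧ G.cu (G.r u) = b ∧ G.Lnk W (G.vt z) (G.vt u) := fun z hz c => by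
    obtain ⟨y, y1, -, -, -, y2, y3⟩ := wk z hz
    have := G.cu_ph y
    rcases c with c | c
    · exact ⟨G.o y, by rw [G.cu_o, y1, c], y2.resolve_left (by rwa [y1, c] at this), y3⟩
    · exact ⟨G.ph y, y2.resolve_right (by rwa [y1, c] at this), by rw [← c, ← y1, ← G.cu_st y]; rfl,
        by rwa [vt_ph]⟩
  obtain ⟨u, u1, u2, u3⟩ : ∃ u, G.cu u = a ∧ G.cu (G.r u) = b ∧ G.Lnk W (G.vt Q) (G.vt u) := by
    obtain ⟨y, -, -, y1, y2, y3, y4⟩ := wk Q ⟨Or.inr (hQ a), Or.inr (hQ b)⟩
    obtain ⟨u, u1, u2, u3⟩ := c1 (G.ph y) ⟨Or.inr (by rw [h.inv, y1, hQ]),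
      Or.inr (by rw [h.inv, y2, hQ])⟩ y3
    exact ⟨u, u1, u2, y4.trans (by rwa [vt_ph] at u3)⟩
  refine Relation.ReflTransGen.trans ?_ (Lnk.symm (fun y hy => by simp only [W, G.oo]; tauto) u3)
  obtain ⟨z, z1, z2, z3⟩ : ∃ z, G.vt z = G.vt x ∧ G.cu z = a ∧ σ b z = 0 := by
    rcases h.zo b x with e | e
    · exact ⟨x, rfl, ha, e⟩
    · refine ⟨G.r (G.r x), by rw [G.vt_r, G.vt_r], by rw [G.cu_rr, ha],
        (h.zo b _).resolve_right fun e' => ?_⟩
      refine (h.eq b (G.r x)).1 ?_ hb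
      rw [← (h.inv b).r (G.r x), e', (h.inv b).r, ← (h.eq b x).2 (ha ▸ hab), e]
  obtain ⟨y, y1, y2, -, y3, y4, y5⟩ := wk z ⟨Or.inl z2, Or.inr z3⟩
  have y6 := y4.resolve_left (by have := G.cu_ph y; rwa [y1, z2] at this)
  rw [z1] at y5
  rcases G.two x (G.o y) u (by rw [G.cu_o, y1, z2, ha]) (u1.trans ha.symm) (y6.trans hb.symm)
    (u2.trans hb.symm) with e | e | e
  · have := G.eq_of_dir (x := z) (y := G.st y) (by rw [z1, vt_st]; exact e) (by rw [cu_st, y1])
      (by rw [dir_st, y2])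
    exact ((h.st b y).1 (by rw [this, y3]) y6).elim
  · exact e ▸ y5
  · exact e ▸ .refl

theorem Cyc.eq (hC : G.Cyc) {x y : X} (h : G.cu x = G.cu y) :
    ∃ k, G.st^[k] x = y ∨ G.st^[k] x = G.r (G.r y) :=
  (hC x y h).imp fun k e => G.line e.symm (by rw [cu_iter, h])

theorem Walk.cons {g y : ℕ → X} {k : ℕ} (h : G.Walk g y k) {f z : X} (h1 : G.SF (G.o z) f)
    (h2 : G.SF z (g 0)) :
    G.Walk (fun i => Nat.casesOn i f g) (fun i => Nat.casesOn i z y) (k + 1) := by
  rintro (_ | i) hi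
  exacts [⟨h1, h2⟩, h i (by omega)]

variable [Fintype X] [DecidableEq V]

open Classical in
theorem exists_sides (hM : G.Meet) (hC : G.Cyc) {P Q : X} (h : ∀ c s, G.Inv s →
    (∀ x, G.jmp s x = if G.cu x = c then (if G.dir x then 1 else -1) else 0) → s P ≠ s Q) :
    ∃ σ, G.Side σ ∧ (∀ c, σ c P = 1) ∧ ∀ c, σ c Q = 0 := by
  have : ∀ c, ∃ s, G.Inv s ∧ (∀ x, s x = 0 ∨ s x = 1) ∧ (∀ x, s x = s (G.o x) ↔ G.cu x ≠ c) ∧
      s P ≠ s Q := fun c => by
    obtain ⟨s, s1, s2⟩ := exists_pot (G := G) c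
    have s3 := h c s s1 s2
    obtain ⟨z, z1, z2⟩ : ∃ z, G.cu z = c ∧ G.dir z = true := by
      by_contra hn
      push Not at hn
      refine s3 (hM.const s1 (fun x => ?_) P Q)
      rw [s2, if_neg fun e => ?_]
      have := hn x e
      have := hn (G.o x) (by rwa [G.cu_o])
      simp_all [G.dir_o]
    have a : ∀ x, G.cu x = c → G.dir x = true → s x = s z ∧ s (G.o x) = s z - 1 := fun x x1 x2 => by
      have b : ∀ k, s (G.st^[k] z) = s z := fun k => by
        induction k with
        | zero => rfl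
        | succ k ih =>
          rw [iterate_succ_apply', s1.st, ih, s2, if_neg, sub_zero]
          rw [← z1, ← G.cu_iter z k]
          exact G.cu_ph _
      obtain ⟨k, e⟩ := hC z x (z1.trans x1.symm)
      have e1 := G.eq_of_dir e (by rw [cu_iter, x1, z1]) (by rw [dir_iter, x2, z2])
      have e2 := s2 x
      rw [if_pos x1, if_pos x2, jmp] at e2
      have := e1 ▸ b k
      exact ⟨this, by linarith⟩
    refine ⟨fun x => s x - s z + 1, fun x => by beta_reduce; rw [s1 x], fun x => ?_, fun x => ?_,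
      by simpa using s3⟩
    · have := hM.const (w := fun x => (s x - s z + 1) * (s x - s z + 1 - 1))
        (fun x => by beta_reduce; rw [s1 x]) (fun x => by
          rw [jmp]
          by_cases c1 : G.cu x = c
          · cases c2 : G.dir x
            · have := a (G.o x) (by rwa [G.cu_o]) (by simp [G.dir_o, c2])
              rw [G.oo] at this
              simp [this]
            · simp [a x c1 c2]
          · have := s2 x
            rw [if_neg c1, jmp, sub_eq_zero] at this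
            rw [this, sub_self]) x z
      rw [← mul_eq_zero.trans (or_congr_right sub_eq_zero), this]
      simp
    · rw [add_left_inj, sub_left_inj, ← sub_eq_zero, ← jmp, s2]
      split_ifs <;> simp_all
  choose s s1 s2 s3 s4 using this
  refine ⟨fun c x => if s c P = 1 then s c x else 1 - s c x, ⟨fun c x => by beta_reduce; rw [s1 c x],
    fun c x => ?_, fun c x => ?_⟩, fun c => ?_, fun c => ?_⟩
  · rcases s2 c x with e | e <;> split_ifs <;> simp [e]
  · split_ifs <;> simp [s3]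
  · rcases s2 c P with e | e <;> simp [e]
  · have := s4 c
    rcases s2 c P with e | e <;> rcases s2 c Q with e' | e' <;> simp_all

variable [Fintype V] [Fintype C]

theorem Side.up (h : G.Side σ) (hM : G.Meet) (hC : G.Cyc) {P Q : X} (hP : ∀ c, σ c P = 1)
    (hQ : ∀ c, σ c Q = 0) {f : X} (hf : ¬ G.SF f P) : ∃ x, G.SF (G.o x) f ∧ σ (G.cu x) x = 1 := by
  classical
  have fo : ∀ x, σ (G.cu x) x = 1 → σ (G.cu x) (G.o x) = 0 := fun x hx =>
    (h.zo _ _).resolve_right fun e => (h.eq _ x).1 (hx.trans e.symm) rfl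
  have fs : ∀ x, σ (G.cu x) (G.st x) = σ (G.cu x) x := fun x => (h.st _ x).2 (G.cu_ph x)
  let H : HData G C :=
    { act := {v | v ≠ G.vt Q}
      Rel := fun _ => True
      x0 := P
      fw := fun c x => G.cu x = c ∧ σ c x = 1
      lam := σ
      rel_o := fun _ => id
      rel_act := fun _ _ => trivial
      pot := fun Z z1 z2 => by
        refine (planar' z1 fun v => ?_).imp fun w hw => ⟨hw.1, fun x _ => hw.2 x⟩
        by_cases c : v = G.vt Q
        swap
        · exact z2 v c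
        have e1 : ∑ v, G.div Z v = ∑ x, Z x := by simp only [div]; rw [sum_comm]; simp
        have e2 : ∑ x, Z x = ∑ x, -Z x := by
          rw [← Equiv.sum_comp ⟨G.o, G.o, G.oo, G.oo⟩]
          exact sum_congr rfl fun x _ => z1 x
        rw [sum_neg_distrib] at e2
        rw [sum_eq_single v (fun u _ hu => z2 u (c ▸ hu)) (by simp)] at e1
        linarith
      conn := fun w hw h0 x _ => hM.const hw (fun x => h0 x trivial) x P
      fw_rel := fun _ _ _ => trivial
      fw_uniq := fun a b x ha hb => ha.1.symm.trans hb.1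
      fw_o := by
        rintro _ _ x ⟨rfl, a⟩ ⟨rfl, b⟩
        simp [G.cu_o, fo x a] at b
      fw_cu := fun a x y hx hy => hx.1.trans hy.1.symm
      thru := fun a x _ => by
        have := fs (G.o (G.r (G.r x)))
        rw [st_orr, G.cu_o, G.cu_rr] at this
        rw [G.cu_o, G.cu_rr]
        exact and_congr_right fun e => by rw [← e, this]
      lam_inv := h.inv
      lam_fw := by
        rintro _ x ⟨rfl, a⟩
        exact ⟨a, fo x a⟩
      lam_else := fun a x _ c1 c2 => by
        by_cases c : G.cu x = a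
        · rw [(h.zo a x).resolve_right fun e => c1 ⟨c, e⟩,
            (h.zo a _).resolve_right fun e => c2 ⟨by rwa [G.cu_o], e⟩]
        · exact (h.eq a x).2 c
      lam_01 := fun a x _ => h.zo a x
      lam_x0 := hP
      chain := fun a u hu x y hx hy => by
        have e : ∀ k, σ a (G.st^[k] x) = 1 ∧ u (G.st^[k] x) = u x := fun k => by
          induction k with
          | zero => exact ⟨hx.2, rfl⟩
          | succ k ih =>
            have c := (G.cu_iter x k).trans hx.1
            have := fs (G.st^[k] x)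
            rw [c, ih.1] at this
            rw [iterate_succ_apply', ← ih.2]
            exact ⟨this, hu _ ⟨c, ih.1⟩ ⟨by rwa [cu_st], this⟩ trivial⟩
        obtain ⟨k, c | c⟩ := hC.eq (hx.1.trans hy.1.symm)
        · rw [← c, (e k).2]
        · have a1 := (e k).1
          have a2 := fs (G.o y)
          have a3 := fo y (hy.1 ▸ hy.2)
          rw [G.cu_o, a3, st_o, hy.1, ← c, a1] at a2
          simp at a2
      tau := fun a b x _ ha hb => ⟨G.vt Q, by simp, h.tau hM hQ
        (ha.elim And.left fun e => G.cu_o x ▸ e.1) (hb.elim And.left fun e => G.cu_o _ ▸ e.1)⟩ }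
  by_contra hn
  push Not at hn
  have := H.helly (μ := fun x => if G.SF x f then 1 else 0)
    (fun x => if_congr ⟨(sf_ph x).symm.trans, (sf_ph x).trans⟩ rfl rfl)
    (fun x _ => by beta_reduce; split_ifs <;> simp) (if_neg fun e => hf e.symm)
    (fun a x hx => by
      beta_reduce
      rw [if_neg fun e => hn x e (hx.1 ▸ hx.2)]
      split_ifs <;> simp)
    (fun x _ c => (c (G.cu x) (by
      rcases h.zo (G.cu x) (G.o x) with e | e
      · exact Or.inl ⟨rfl, (h.zo _ x).resolve_left fun e' => (h.eq _ x).1 (e'.trans e.symm) rfl⟩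
      · exact Or.inr ⟨G.cu_o x, e⟩)).elim) (f := f) trivial
  simp [SF.refl] at this

end Sys

end Pool.Agent.MP_920d98_co

end
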