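import Pool.Agent.MP_920d98_co.Jordan
import Mathlib

set_option linter.all false

section

set_option autoImplicit false

/-!
Two Jordan curves crossing in exactly two points.
-/

namespace Pool.Agent.MP_920d98_co

open Complex Set Topology Metric Filter

/-- `C` enters `D` at time `s` and leaves it at time `t`. -/
structure Cross (C D : Curve) (s t : ℝ) : Prop where
  s0 : 0 ≤ s
  s1 : s < 1
  lt : s < t
  lt' : t < s + 1
  ins : ∀ x ∈ Ioo s t, C.Γ x ∈ D.In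
  out : ∀ x ∈ Ioo t (s + 1), C.Γ x ∈ D.Out
  hs : C.Γ s ∈ D.J
  ht : C.Γ t ∈ D.J

variable {C D : Curve} {s t s' t' : ℝ} {μ ν : ℂ}

theorem exists_cross_aux {x y : ℝ} (x0 : 0 ≤ x) (hxy : x < y) (y1 : y < 1) (hx : C.Γ x ∈ D.J)
    (hy : C.Γ y ∈ D.J) (h : ∀ z, C.Γ z ∈ D.J → C.Γ z = C.Γ x ∨ C.Γ z = C.Γ y)
    (hi : ∃ p ∈ C.J, p ∈ D.In) (ho : ∃ p ∈ C.J, p ∈ D.Out) : ∃ s t, Cross C D s t := by
  have n1 : ∀ p ∈ C.Γ '' Ioo x y, p ∉ D.J := by
    rintro _ ⟨z, ⟨a1, a2⟩, rfl⟩ hz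
    rcases h z hz with e | e
    · linarith [C.eq_of_close e (by linarith) (by linarith)]
    · linarith [C.eq_of_close e (by linarith) (by linarith)]
  have n2 : ∀ p ∈ C.Γ '' Ioo y (x + 1), p ∉ D.J := by
    rintro _ ⟨z, ⟨a1, a2⟩, rfl⟩ hz
    rcases h z hz with e | e
    · linarith [C.eq_of_close e (by linarith) (by linarith)]
    · linarith [C.eq_of_close e (by linarith) (by linarith)]
  have c1 : IsPreconnected (C.Γ '' Ioo x y) := isPreconnected_Ioo.image _ C.cont.continuousOn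
  have c2 : IsPreconnected (C.Γ '' Ioo y (x + 1)) := isPreconnected_Ioo.image _ C.cont.continuousOn
  have cov : ∀ p ∈ C.J, p ∉ D.J → p ∈ C.Γ '' Ioo x y ∨ p ∈ C.Γ '' Ioo y (x + 1) := by
    intro p hp hp'
    rw [C.J_eq x] at hp
    obtain ⟨z, ⟨a1, a2⟩, rfl⟩ := hp
    have b1 : z ≠ x := fun e => hp' (e ▸ hx)
    have b2 : z ≠ y := fun e => hp' (e ▸ hy)
    have b3 : z ≠ x + 1 := fun e => hp' (by rw [e, C.per]; exact hx)
    rcases lt_or_gt_of_ne b2 with b | b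
    · exact Or.inl ⟨z, ⟨lt_of_le_of_ne a1 b1.symm, b⟩, rfl⟩
    · exact Or.inr ⟨z, ⟨b, lt_of_le_of_ne a2 b3⟩, rfl⟩
  obtain ⟨p, hp, hp'⟩ := hi
  obtain ⟨q, hq, hq'⟩ := ho
  rcases cov p hp hp'.1 with a | a <;> rcases cov q hq hq'.1 with b | b
  · exact (D.not_In_of_Out hq' (D.In_const c1 n1 a b hp')).elim
  · exact ⟨x, y, x0, hxy.trans y1, hxy, by linarith,
      fun z hz => D.In_const c1 n1 a ⟨z, hz, rfl⟩ hp',
      fun z hz => D.Out_const c2 n2 b ⟨z, hz, rfl⟩ hq', hx, hy⟩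
  · refine ⟨y, x + 1, by linarith, y1, by linarith, by linarith,
      fun z hz => D.In_const c2 n2 a ⟨z, hz, rfl⟩ hp', fun z hz => ?_, hy, by rwa [C.per]⟩
    rw [← C.per.sub_eq z]
    exact D.Out_const c1 n1 b ⟨z - 1, ⟨by linarith [hz.1], by linarith [hz.2]⟩, rfl⟩ hq'
  · exact (D.not_In_of_Out hq' (D.In_const c2 n2 a b hp')).elim

theorem exists_cross (h2 : (C.J ∩ D.J).ncard = 2)
    (hx : ∃ x ∈ C.J \ D.J, ∃ y ∈ C.J \ D.J, y ∉ connectedComponentIn D.Jᶜ x) :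
    ∃ s t, Cross C D s t := by
  obtain ⟨u, v, huv, h⟩ := ncard_eq_two.1 h2
  have hu : u ∈ C.J ∩ D.J := by rw [h]; simp
  have hv : v ∈ C.J ∩ D.J := by rw [h]; simp
  obtain ⟨x', hx'⟩ := hu.1
  obtain ⟨y', hy'⟩ := hv.1
  obtain ⟨x, ⟨x0, x1⟩, ex⟩ := C.per.exists_mem_Ico₀ one_pos x'
  obtain ⟨y, ⟨y0, y1⟩, ey⟩ := C.per.exists_mem_Ico₀ one_pos y'
  rw [hx'] at ex
  rw [hy'] at ey
  have hz : ∀ z, C.Γ z ∈ D.J → C.Γ z = C.Γ x ∨ C.Γ z = C.Γ y := fun z hz => by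
    have : C.Γ z ∈ C.J ∩ D.J := ⟨C.mem_J z, hz⟩
    rwa [h, ex, ey] at this
  obtain ⟨p, hp, q, hq, hpq⟩ := hx
  have hio : (∃ p ∈ C.J, p ∈ D.In) ∧ ∃ p ∈ C.J, p ∈ D.Out := by
    rcases D.sep hp.2 hq.2 hpq with a | a
    exacts [⟨⟨p, hp.1, a.1⟩, q, hq.1, a.2⟩, ⟨⟨q, hq.1, a.2⟩, p, hp.1, a.1⟩]
  rcases lt_trichotomy x y with a | a | a
  · exact exists_cross_aux x0 a y1 (ex ▸ hu.2) (ey ▸ hv.2) hz hio.1 hio.2
  · exact (huv (by rw [ex, ey, a])).elim
  · exact exists_cross_aux y0 a x1 (ey ▸ hv.2) (ex ▸ hu.2) (fun z h => (hz z h).symm) hio.1 hio.2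

theorem Cross.mem_J (h : Cross C D s t) {z : ℝ} (hz : C.Γ z ∈ D.J) :
    C.Γ z = C.Γ s ∨ C.Γ z = C.Γ t := by
  obtain ⟨y, ⟨a1, a2⟩, e⟩ := C.per.exists_mem_Ico one_pos z s
  rw [e] at hz ⊢
  rcases a1.eq_or_lt with rfl | a1
  · exact Or.inl rfl
  rcases lt_trichotomy y t with a | rfl | a
  · exact ((h.ins y ⟨a1, a⟩).1 hz).elim
  · exact Or.inr rfl
  · exact ((h.out y ⟨a, a2⟩).1 hz).elim

theorem Cross.ne (h : Cross C D s t) : C.Γ s ≠ C.Γ t := (C.loop h.lt h.lt').ne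

theorem Cross.not_Out (h : Cross C D s t) : ∀ z ∈ (C.arc s t h.lt.le).im, z ∉ D.Out := by
  rintro _ ⟨x, ⟨a1, a2⟩, rfl⟩ hz
  rcases eq_or_lt_of_le a1 with rfl | a1
  · exact hz.1 h.hs
  rcases eq_or_lt_of_le a2 with rfl | a2
  · exact hz.1 h.ht
  exact D.not_In_of_Out hz (h.ins x ⟨a1, a2⟩)

theorem lens_val (hC : C.Pos μ) (h1 : s < t) (h2 : t < s + 1) {B : Arc}
    (hl : Loop (C.arc s t h1.le) B) (hB : ∀ z ∈ B.im, z ∉ C.Out) :
    ∃ p ∉ (C.arc s t h1.le).im ∪ B.im, (C.arc s t h1.le).inc p + B.inc p = μ := by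
  have hm : (s + t) / 2 ∈ Ioo s t := ⟨by linarith, by linarith⟩
  have hx : C.Γ ((s + t) / 2) ∈ (B.im ∪ (C.arc t (s + 1) h2.le).im)ᶜ := by
    rintro (h | h)
    exacts [hl.dA _ hm h, (C.loop h1 h2).dA _ hm h]
  obtain ⟨r, hr, hr'⟩ := Metric.isOpen_iff.1
    (B.compact.union (C.arc t (s + 1) h2.le).compact).isClosed.isOpen_compl _ hx
  obtain ⟨p, hp, hp'⟩ := mem_closure_iff.1 (C.subset_closure_In hC.1 (C.mem_J _)) _ isOpen_ball
    (mem_ball_self hr)
  obtain ⟨q, hq, hq'⟩ := mem_closure_iff.1 (C.subset_closure_Out hC.1 (C.mem_J _)) _ isOpen_ball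
    (mem_ball_self hr)
  have e1 := two_const (A := B) (B := C.arc t (s + 1) h2.le) (ε := -1)
    (fun g => by rw [hl.e2, ← hl.e1, (C.loop h1 h2).e2, ← (C.loop h1 h2).e1]; ring)
    (convex_ball _ _).isPreconnected (fun z hz => hr' hz) hp hq
  have e2 := two_zero (A := C.arc s t h1.le) (B := B) (ε := 1)
    (fun g => by rw [hl.e2, ← hl.e1]; ring) C.Out_preconnected
    (by
      rintro z hz (h | h)
      exacts [hz.1 (C.im_subset _ h), hB z h hz]) (C.Out_unbounded hq') hq'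
  have e3 := C.split hp'.1 h1.le h2.le
  have e4 := C.split hq'.1 h1.le h2.le
  rw [hC.2.1 p hp'] at e3
  rw [hq'.2] at e4
  refine ⟨p, ?_, by linear_combination e1 + e2 + e3 - e4⟩
  rintro (h | h)
  exacts [hp'.1 (C.im_subset _ h), hr' hp (Or.inl h)]

theorem Cross.loop (h : Cross C D s t) (h' : Cross D C s' t') (e1 : C.Γ t = D.Γ s')
    (e2 : D.Γ t' = C.Γ s) : Loop (C.arc s t h.lt.le) (D.arc s' t' h'.lt.le) :=
  ⟨e1, e2, h.ne, (C.loop h.lt h.lt').injA, (D.loop h'.lt h'.lt').injA,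
    fun x hx hz => (h.ins x hx).1 (D.im_subset _ hz),
    fun x hx hz => (h'.ins x hx).1 (C.im_subset _ hz)⟩

theorem Cross.loop_rev (h : Cross C D s t) (h' : Cross D C s' t') (e1 : C.Γ t = D.Γ t')
    (e2 : D.Γ s' = C.Γ s) : Loop (C.arc s t h.lt.le) (D.arc s' t' h'.lt.le).rev := by
  have hm : ∀ x ∈ Ioo (-t') (-s'), -x ∈ Ioo s' t' := fun x hx => ⟨lt_neg.1 hx.2, neg_lt.1 hx.1⟩
  refine ⟨by rw [Arc.rev_ini]; exact e1, by rw [Arc.rev_fin]; exact e2, h.ne,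
    (C.loop h.lt h.lt').injA, fun x hx x' hx' e => neg_injective ?_,
    fun x hx hz => (h.ins x hx).1 (D.im_subset h'.lt.le (by rwa [Arc.rev_im] at hz)),
    fun x hx hz => (h'.ins _ (hm x hx)).1 (C.im_subset _ hz)⟩
  exact (D.loop h'.lt h'.lt').injA _ (hm x hx) _ ⟨le_neg.1 hx'.2, neg_le.1 hx'.1⟩ e

theorem Curve.Pos.ne (hC : C.Pos μ) : μ ≠ 0 := by
  obtain ⟨a, ha⟩ := hC.1
  rw [← hC.2.1 a ha]
  exact ha.2

/-- where `C` enters `D`, the curve `D` leaves `C` -/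
theorem Cross.orient (h : Cross C D s t) (h' : Cross D C s' t') (hC : C.Pos μ) (hD : D.Pos ν) :
    C.Γ s = D.Γ t' ∧ C.Γ t = D.Γ s' ∧ μ = ν := by
  have key : ∀ x, C.Γ x ∈ D.J → C.Γ x = D.Γ s' ∨ C.Γ x = D.Γ t' := by
    rintro x ⟨z, hz⟩
    rw [← hz]
    exact h'.mem_J (hz ▸ C.mem_J x)
  rcases key s h.hs with a | a <;> rcases key t h.ht with b | b
  · exact (h.ne (a.trans b.symm)).elim
  · exfalso
    have l1 := h.loop_rev h' b a.symm
    have l2 := h'.loop_rev h b.symm a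
    obtain ⟨p, hp, ep⟩ := lens_val hC h.lt h.lt' l1 (by rw [Arc.rev_im]; exact h'.not_Out)
    obtain ⟨q, hq, eq⟩ := lens_val hD h'.lt h'.lt' l2 (by rw [Arc.rev_im]; exact h.not_Out)
    rw [Arc.rev_im] at hq
    rw [Arc.rev_inc _ fun h => hq (Or.inr h)] at eq
    have eq' : (C.arc s t h.lt.le).inc q + (D.arc s' t' h'.lt.le).rev.inc q = -ν := by
      rw [Arc.rev_inc _ fun h => hq (Or.inl h)]
      linear_combination -eq
    have := l1.eq_of_ne_zero hp (b := q) (by rw [Arc.rev_im, union_comm]; exact hq)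
      (ep ▸ hC.ne) (eq' ▸ neg_ne_zero.2 hD.ne)
    rw [ep, eq'] at this
    obtain ⟨m, hm, e1⟩ := hC.2.2
    obtain ⟨k, hk, e2⟩ := hD.2.2
    have e3 : ((m + k : ℤ) : ℂ) * (2 * Real.pi * I) = 0 := by
      push_cast
      linear_combination this - e1 - e2
    have : m + k = 0 := by exact_mod_cast (mul_eq_zero.1 e3).resolve_right two_pi_I_ne_zero
    omega
  · refine ⟨a, b, ?_⟩
    have l1 := h.loop h' b a.symm
    have l2 := h'.loop h a.symm b
    obtain ⟨p, hp, ep⟩ := lens_val hC h.lt h.lt' l1 h'.not_Out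
    obtain ⟨q, hq, eq⟩ := lens_val hD h'.lt h'.lt' l2 h.not_Out
    rw [add_comm] at eq
    have := l1.eq_of_ne_zero hp (b := q) (by rw [union_comm]; exact hq) (ep ▸ hC.ne) (eq ▸ hD.ne)
    rwa [ep, eq] at this
  · exact (h.ne (a.trans b.symm)).elim

end Pool.Agent.MP_920d98_co

end

section

set_option autoImplicit false

/-!
Cyclic successor of finitely many marked points on circles `ℝ / ℤ`.
-/

namespace Pool.Agent.MP_920d98_co

open Equiv Set

/-- `sc e` is the next marked point after `e` on the circle `cur e`, reached at time `b e`. -/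
structure CycOrd {E C : Type} (cur : E → C) (τ : E → ℝ) (sc : Perm E) (b : E → ℝ) : Prop where
  cur_sc : ∀ e, cur (sc e) = cur e
  cyc : ∀ e e', cur e = cur e' → sc.SameCycle e e'
  lt : ∀ e, τ e < b e
  le : ∀ e, b e ≤ τ e + 1
  wrap : ∀ e0, ∃ M, cur M = cur e0 ∧ b M = τ (sc M) + 1 ∧
    ∀ e, cur e = cur e0 → e ≠ M → b e = τ (sc e)
  gap : ∀ e e' (k : ℤ), cur e' = cur e → τ e < τ e' + k → b e ≤ τ e' + k
  cover : ∀ e0 (x : ℝ), ∃ e, ∃ k : ℤ, cur e = cur e0 ∧ τ e ≤ x + k ∧ x + k < b e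

theorem exists_cycOrd {E C : Type} [Finite E] {cur : E → C} {τ : E → ℝ}
    (h0 : ∀ e, 0 ≤ τ e) (h1 : ∀ e, τ e < 1)
    (hinj : ∀ e e', cur e = cur e' → τ e = τ e' → e = e') : ∃ sc b, CycOrd cur τ sc b := by
  classical
  let nxt : E → E → ℝ := fun e e' => if τ e < τ e' then τ e' else τ e' + 1
  have hex : ∀ e, ∃ f, cur f = cur e ∧ ∀ e', cur e' = cur e → nxt e f ≤ nxt e e' := fun e =>
    exists_min_image {e' | cur e' = cur e} (nxt e) (toFinite _) ⟨e, rfl⟩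
  choose f hf1 hf2 using hex
  have hlt : ∀ e, τ e < nxt e (f e) := fun e => by
    simp only [nxt]
    split_ifs with h
    · exact h
    · linarith [h1 e, h0 (f e)]
  have hb : ∀ e, nxt e (f e) = τ (f e) ∨ nxt e (f e) = τ (f e) + 1 := fun e => by
    simp only [nxt]
    split_ifs <;> simp
  have hgap : ∀ e e' (k : ℤ), cur e' = cur e → τ e < τ e' + k → nxt e (f e) ≤ τ e' + k := by
    intro e e' k hc hk
    refine (hf2 e e' hc).trans ?_
    have a1 : (-1 : ℝ) < k := by linarith [h1 e', h0 e]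
    have a2 : 0 ≤ k := by
      have : -1 < k := by exact_mod_cast a1
      omega
    simp only [nxt]
    split_ifs with h
    · have : (0 : ℝ) ≤ k := by exact_mod_cast a2
      linarith
    · have a3 : (0 : ℝ) < k := by linarith [not_lt.1 h]
      have : (1 : ℝ) ≤ k := by exact_mod_cast (show 1 ≤ k from by exact_mod_cast a3)
      linarith
  have hi : ∀ e e', f e = f e' → ¬ τ e < τ e' := by
    intro e e' he hlt'
    have hc : cur e = cur e' := by rw [← hf1 e, he, hf1]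
    have a1 := hgap e e' 0 hc.symm (by simpa using hlt')
    have a2 := hgap e' e 1 hc (by push_cast; linarith [h1 e', h0 e])
    have a3 := hlt e
    have a4 := hlt e'
    push_cast at a1 a2
    rcases hb e with h | h <;> rcases hb e' with h' | h' <;> rw [← he] at h' <;>
      rw [← he] at a2 a4 <;> linarith
  have hinj' : Function.Injective f := fun e e' he =>
    hinj e e' (by rw [← hf1 e, he, hf1])
      (le_antisymm (not_lt.1 (hi e' e he.symm)) (not_lt.1 (hi e e' he)))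
  have hM : ∀ e0, ∃ M, cur M = cur e0 ∧ (∀ e, cur e = cur e0 → τ e ≤ τ M) ∧
      nxt M (f M) = τ (f M) + 1 ∧ ∀ e, cur e = cur e0 → e ≠ M → nxt e (f e) = τ (f e) := by
    intro e0
    obtain ⟨M, hM1, hM2⟩ := exists_max_image {e | cur e = cur e0} τ (toFinite _) ⟨e0, rfl⟩
    refine ⟨M, hM1, hM2, if_neg (not_lt.2 (hM2 _ ((hf1 M).trans hM1))), fun e he hne => ?_⟩
    have a1 : τ e < τ M := (hM2 e he).lt_of_ne fun h => hne (hinj _ _ (he.trans hM1.symm) h)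
    have a2 := hgap e M 0 (hM1.trans he.symm) (by simpa using a1)
    refine (hb e).resolve_right fun h => ?_
    push_cast at a2
    linarith [h1 M, h0 (f e)]
  refine ⟨Equiv.ofBijective f (Finite.injective_iff_bijective.1 hinj'), fun e => nxt e (f e),
    hf1, fun e e' hc => ?_, hlt, fun e => ?_, fun e0 => ?_, hgap, fun e0 x => ?_⟩
  · obtain ⟨M, hM1, -, -, hM4⟩ := hM e'
    have key : ∀ (m : ℕ) (e : E), {e' | τ e < τ e'}.ncard = m → cur e = cur e' →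
        Perm.SameCycle (Equiv.ofBijective f (Finite.injective_iff_bijective.1 hinj')) e M := by
      intro m
      induction m using Nat.strong_induction_on with
      | _ m ih =>
        intro e hm hc
        by_cases he : e = M
        · rw [he]
        have a1 : τ e < τ (f e) := hM4 e hc he ▸ hlt e
        refine Perm.sameCycle_apply_left.1 (ih _ ?_ (f e) rfl ((hf1 e).trans hc))
        rw [← hm]
        exact ncard_lt_ncard ⟨fun x hx => a1.trans hx, fun h => lt_irrefl (τ (f e)) (h a1)⟩ (toFinite _)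
    exact (key _ e rfl hc).trans (key _ e' rfl rfl).symm
  · simpa using hgap e e 1 rfl (by simp)
  · obtain ⟨M, hM1, -, hM3, hM4⟩ := hM e0
    exact ⟨M, hM1, hM3, hM4⟩
  · have y0 := Int.fract_nonneg x
    have y1 := Int.fract_lt_one x
    have hy : x + ((-⌊x⌋ : ℤ) : ℝ) = Int.fract x := by rw [Int.fract]; push_cast; ring
    by_cases h : ∃ e, cur e = cur e0 ∧ τ e ≤ Int.fract x
    · obtain ⟨e, ⟨he1, he2⟩, he3⟩ :=
        exists_max_image {e | cur e = cur e0 ∧ τ e ≤ Int.fract x} τ (toFinite _) h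
      refine ⟨e, -⌊x⌋, he1, hy ▸ he2, hy ▸ not_le.1 fun h' => ?_⟩
      have a1 := hlt e
      rcases hb e with h2 | h2
      · have := he3 (f e) ⟨(hf1 e).trans he1, h2 ▸ h'⟩
        linarith
      · linarith [h0 (f e)]
    · obtain ⟨M, hM1, -, hM3, -⟩ := hM e0
      have a1 : Int.fract x < τ (f M) := not_le.1 fun h' => h ⟨_, (hf1 M).trans hM1, h'⟩
      refine ⟨M, -⌊x⌋ + 1, hM1, ?_, ?_⟩ <;> rw [Int.cast_add, ← add_assoc, hy] <;> push_cast
      · linarith [h1 M]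
      · linarith

end Pool.Agent.MP_920d98_co

end
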