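import Mathlib
import Pool.Agent.Mg.F920d98p.Ge5213f

set_option linter.all false

section

set_option autoImplicit false

/-!
Combinatorial model of a simple intersecting arrangement of `n` pseudocircles.
All curves are oriented with their inside on the left.
-/

namespace Pool.Agent.MP_920d98_co

open Equiv

/-- Ordered pairs of distinct curves; `(i, j)` names the crossing at which `i` enters `j`. -/
abbrev V (n : ℕ) := {p : Fin n × Fin n // p.1 ≠ p.2}

/-- Incidences: `((c, j), true)` is the point of `c` where `c` enters `j`, `((c, j), false)` the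
point of `c` where `c` leaves `j`.  An incidence also names the edge of `c` that starts there. -/
abbrev Inc (n : ℕ) := V n × Bool

/-- Darts: an incidence and a direction (`true` = forward along the curve). -/
abbrev D (n : ℕ) := Inc n × Bool

variable {n : ℕ}

/-- the curve of an incidence -/
def cur (e : Inc n) : Fin n := e.1.1.1

/-- the curve crossed at an incidence -/
def oth (e : Inc n) : Fin n := e.1.1.2

def V.swap (v : V n) : V n := ⟨(v.1.2, v.1.1), v.2.symm⟩

/-- the other incidence at the same crossing -/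
def tw (e : Inc n) : Inc n := (e.1.swap, !e.2)

/-- the crossing of an incidence -/
def vtx (e : Inc n) : V n := if e.2 then e.1 else e.1.swap

@[simp] theorem V.swap_swap (v : V n) : v.swap.swap = v := rfl
@[simp] theorem tw_tw (e : Inc n) : tw (tw e) = e := by simp [tw]
@[simp] theorem cur_tw (e : Inc n) : cur (tw e) = oth e := rfl
@[simp] theorem oth_tw (e : Inc n) : oth (tw e) = cur e := rfl
@[simp] theorem tw_snd (e : Inc n) : (tw e).2 = !e.2 := rfl
theorem cur_ne_oth (e : Inc n) : cur e ≠ oth e := e.1.2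
@[simp] theorem vtx_tw (e : Inc n) : vtx (tw e) = vtx e := by
  obtain ⟨v, _ | _⟩ := e <;> simp [vtx, tw]

theorem inc_ext {e e' : Inc n} (h1 : cur e = cur e') (h2 : oth e = oth e') (h3 : e.2 = e'.2) :
    e = e' := Prod.ext (Subtype.ext (Prod.ext h1 h2)) h3

theorem vtx_eq_iff {e e' : Inc n} : vtx e = vtx e' ↔ e' = e ∨ e' = tw e := by
  constructor
  · obtain ⟨v, _ | _⟩ := e <;> obtain ⟨w, _ | _⟩ := e' <;> intro h <;>
      simp only [vtx, Bool.false_eq_true, if_false, if_true] at h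
    · left; rw [← V.swap_swap v, h]; rfl
    · right; rw [← h]; rfl
    · right; rw [h]; rfl
    · left; rw [h]
  · rintro (rfl | rfl) <;> simp

/-- `tw` as a permutation -/
def twP : Perm (Inc n) := ⟨tw, tw, tw_tw, tw_tw⟩

/-- counterclockwise rotation at a crossing -/
def rot : Perm (D n) where
  toFun d := (tw d.1, xor d.1.2 d.2)
  invFun d := (tw d.1, xor (!d.1.2) d.2)
  left_inv := by rintro ⟨⟨v, _ | _⟩, _ | _⟩ <;> simp [tw]
  right_inv := by rintro ⟨⟨v, _ | _⟩, _ | _⟩ <;> simp [tw]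

/-- the dart at the other end of the edge, for the successor map `sc` along the curves -/
def opp (sc : Perm (Inc n)) : Perm (D n) where
  toFun d := (if d.2 then sc d.1 else sc⁻¹ d.1, !d.2)
  invFun d := (if d.2 then sc d.1 else sc⁻¹ d.1, !d.2)
  left_inv := by rintro ⟨e, _ | _⟩ <;> simp
  right_inv := by rintro ⟨e, _ | _⟩ <;> simp

/-- the next dart along the face on the left -/
def phi (sc : Perm (Inc n)) : Perm (D n) := rot⁻¹ * opp sc

theorem rot_apply (e : Inc n) (f : Bool) : rot (e, f) = (tw e, xor e.2 f) := rfl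
theorem rot_inv_apply (e : Inc n) (f : Bool) : rot⁻¹ (e, f) = (tw e, xor (!e.2) f) := rfl
@[simp] theorem opp_true (sc : Perm (Inc n)) (e : Inc n) : opp sc (e, true) = (sc e, false) := rfl
@[simp] theorem opp_false (sc : Perm (Inc n)) (e : Inc n) :
    opp sc (e, false) = (sc⁻¹ e, true) := rfl
@[simp] theorem opp_opp (sc : Perm (Inc n)) (d : D n) : opp sc (opp sc d) = d :=
  (opp sc).left_inv d
theorem phi_apply (sc : Perm (Inc n)) (d : D n) : phi sc d = rot⁻¹ (opp sc d) := rfl
theorem phi_opp (sc : Perm (Inc n)) (d : D n) : phi sc (opp sc d) = rot⁻¹ d := by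
  rw [phi_apply, opp_opp]
theorem phi_true (sc : Perm (Inc n)) (e : Inc n) :
    phi sc (e, true) = (tw (sc e), !(sc e).2) := by
  rw [phi_apply, opp_true, rot_inv_apply, Bool.xor_false]
theorem phi_false (sc : Perm (Inc n)) (e : Inc n) :
    phi sc (e, false) = (tw (sc⁻¹ e), (sc⁻¹ e).2) := by
  rw [phi_apply, opp_false, rot_inv_apply]; simp

/-- circulations with values in `R` -/
structure Circ {R : Type} [AddCommGroup R] (sc : Perm (Inc n)) (Z : D n → R) : Prop where
  anti : ∀ d, Z (opp sc d) = -Z d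
  cons : ∀ e : Inc n, Z (e, true) + Z (e, false) + Z (tw e, true) + Z (tw e, false) = 0

/-- `w` is constant on faces and jumps by `Z` across the edges -/
structure Pot {R : Type} [AddCommGroup R] (sc : Perm (Inc n)) (Z w : D n → R) : Prop where
  inv : ∀ d, w (phi sc d) = w d
  jump : ∀ d, w d - w (opp sc d) = Z d

/-- A simple intersecting arrangement of `n` pseudocircles on the sphere. -/
structure Arr (n : ℕ) where
  sc : Perm (Inc n)
  cur_sc : ∀ e, cur (sc e) = cur e
  cyc : ∀ e e', cur e = cur e' → sc.SameCycle e e'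
  planar : ∀ Z : D n → ℤ, Circ sc Z → ∃ w, Pot sc Z w

/-- the face on the left of a dart, as a set of darts -/
def face (sc : Perm (Inc n)) (d : D n) : Finset (D n) :=
  Finset.univ.filter fun x => (phi sc).SameCycle d x

/-- all faces -/
def faces (sc : Perm (Inc n)) : Finset (Finset (D n)) := Finset.univ.image (face sc)

/-- the circulation around the curve `c` -/
def curZ (c : Fin n) (d : D n) : ℤ := if cur d.1 = c then (if d.2 then 1 else -1) else 0

theorem mem_face {sc : Perm (Inc n)} {d x : D n} : x ∈ face sc d ↔ (phi sc).SameCycle d x := by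
  simp [face]

theorem mem_face_self (sc : Perm (Inc n)) (d : D n) : d ∈ face sc d :=
  mem_face.2 (Perm.SameCycle.refl _ _)

theorem phi_mem_face {sc : Perm (Inc n)} {d x : D n} : phi sc x ∈ face sc d ↔ x ∈ face sc d := by
  simp [mem_face]

theorem face_eq_of_mem {sc : Perm (Inc n)} {d x : D n} (h : x ∈ face sc d) :
    face sc x = face sc d := by
  ext y
  rw [mem_face, mem_face]
  exact ⟨fun h' => (mem_face.1 h).trans h', fun h' => (mem_face.1 h).symm.trans h'⟩

theorem inv_of_sameCycle {α β : Type} [Finite α] {σ : Perm α} {u : α → β}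
    (h : ∀ x, u (σ x) = u x) {x y : α} (hxy : σ.SameCycle x y) : u y = u x := by
  obtain ⟨k, rfl⟩ := hxy.exists_nat_pow_eq
  induction k with
  | zero => rfl
  | succ k ih => rw [pow_succ', Perm.mul_apply, h]; exact ih ⟨k, rfl⟩

theorem Pot.const {R : Type} [AddCommGroup R] {sc : Perm (Inc n)} {Z w : D n → R}
    (h : Pot sc Z w) {d x : D n} (hx : x ∈ face sc d) : w x = w d :=
  inv_of_sameCycle h.inv (mem_face.1 hx)

/-- A function on incidences invariant under `sc` and `tw` is constant. -/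
theorem inc_const {sc : Perm (Inc n)} (hc : ∀ e e', cur e = cur e' → sc.SameCycle e e') {β : Type}
    {u : Inc n → β} (h1 : ∀ e, u (sc e) = u e) (h2 : ∀ e, u (tw e) = u e) (e e' : Inc n) :
    u e = u e' := by
  by_cases h : cur e = cur e'
  · exact (inv_of_sameCycle h1 (hc e e' h)).symm
  · have a1 := inv_of_sameCycle h1 (hc e (⟨(cur e, cur e'), h⟩, true) rfl)
    have a2 := inv_of_sameCycle h1 (hc (tw (⟨(cur e, cur e'), h⟩, true)) e' rfl)
    rw [← a1, a2, h2]

/-- A function on darts invariant under `phi` and `opp` is constant. -/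
theorem dart_const {sc : Perm (Inc n)} (hc : ∀ e e', cur e = cur e' → sc.SameCycle e e')
    {β : Type} {u : D n → β} (h1 : ∀ d, u (phi sc d) = u d) (h2 : ∀ d, u (opp sc d) = u d)
    (d d' : D n) : u d = u d' := by
  have h3 : ∀ d, u (rot⁻¹ d) = u d := fun d => by rw [← phi_opp sc, h1, h2]
  have h4 : ∀ e, u (e, false) = u (e, true) := by
    intro e
    have := (h3 (rot⁻¹ (e, true))).trans (h3 (e, true))
    rw [rot_inv_apply, rot_inv_apply] at this
    obtain ⟨v, _ | _⟩ := e <;> simpa [tw] using this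
  have h5 : ∀ e f, u (e, f) = u (e, true) := by
    rintro e (_ | _)
    · exact h4 e
    · rfl
  have h6 := inc_const hc (u := fun e => u (e, true))
    (fun e => by rw [← h4, ← opp_true, h2]) (fun e => by
      have := h3 (e, true)
      rwa [rot_inv_apply, h5] at this) d.1 d'.1
  rw [h5 d.1 d.2, h5 d'.1 d'.2]
  exact h6

/-- the boundary of a face-constant function is a circulation -/
theorem circ_of_face {R : Type} [AddCommGroup R] {sc : Perm (Inc n)} {w : D n → R}
    (h : ∀ d, w (phi sc d) = w d) : Circ sc fun d => w d - w (opp sc d) := by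
  refine ⟨fun d => by rw [opp_opp, neg_sub], fun e => ?_⟩
  have h1 : ∀ d, w (opp sc d) = w (rot⁻¹ d) := fun d => by rw [← phi_opp sc, h]
  simp only [h1, rot_inv_apply, tw_tw, tw_snd]
  obtain ⟨v, _ | _⟩ := e <;> simp <;> abel

theorem circ_curZ {sc : Perm (Inc n)} (hs : ∀ e, cur (sc e) = cur e) (c : Fin n) :
    Circ sc (curZ c) := by
  have hs' : ∀ e, cur (sc⁻¹ e) = cur e := fun e => by rw [← hs]; simp
  refine ⟨?_, fun e => ?_⟩
  · rintro ⟨e, _ | _⟩ <;> simp only [curZ, opp_true, opp_false, hs, hs'] <;> split_ifs <;> simp_all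
  · simp only [curZ]
    split_ifs <;> simp_all

end Pool.Agent.MP_920d98_co

end

section

set_option autoImplicit false

/-!
An arrangement of Jordan curves, its crossings and its edges.
-/

namespace Pool.Agent.MP_920d98_co

open Complex Set Topology Metric Filter Equiv

variable {n : ℕ}

/-- the time at which an incidence is met -/
noncomputable def tau (s t : V n → ℝ) (e : Inc n) : ℝ := if e.2 then s e.1 else Int.fract (t e.1)

/-- oriented curves, pairwise crossing twice, without triple points -/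
structure Geo0 (n : ℕ) where
  C : Fin n → Curve
  μ : ℂ
  pos : ∀ c, (C c).Pos μ
  s : V n → ℝ
  t : V n → ℝ
  cross : ∀ v : V n, Cross (C v.1.1) (C v.1.2) (s v) (t v)
  triple : ∀ i j k, i ≠ j → j ≠ k → i ≠ k → ∀ z ∈ (C i).J, z ∈ (C j).J → z ∉ (C k).J

namespace Geo0

variable (G : Geo0 n)

/-- the time at which an incidence is met -/
noncomputable def τ (e : Inc n) : ℝ := tau G.s G.t e

/-- the crossing point of an incidence -/
noncomputable def P (e : Inc n) : ℂ := (G.C (cur e)).Γ (G.τ e)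

theorem τ_true (v : V n) : G.τ (v, true) = G.s v := rfl
theorem τ_false (v : V n) : G.τ (v, false) + (⌊G.t v⌋ : ℤ) = G.t v := Int.fract_add_floor _

theorem P_true (v : V n) : G.P (v, true) = (G.C v.1.1).Γ (G.s v) := rfl
theorem P_false (v : V n) : G.P (v, false) = (G.C v.1.1).Γ (G.t v) := by
  rw [← G.τ_false v, Curve.add_int]; rfl

theorem τ_nonneg (e : Inc n) : 0 ≤ G.τ e := by
  obtain ⟨v, _ | _⟩ := e
  exacts [Int.fract_nonneg _, (G.cross v).s0]

theorem τ_lt (e : Inc n) : G.τ e < 1 := by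
  obtain ⟨v, _ | _⟩ := e
  exacts [Int.fract_lt_one _, (G.cross v).s1]

theorem P_cur (e : Inc n) : G.P e ∈ (G.C (cur e)).J := Curve.mem_J _ _

theorem P_oth (e : Inc n) : G.P e ∈ (G.C (oth e)).J := by
  obtain ⟨v, _ | _⟩ := e
  · rw [P_false]; exact (G.cross v).ht
  · exact (G.cross v).hs

theorem P_tw (e : Inc n) : G.P (tw e) = G.P e := by
  obtain ⟨v, _ | _⟩ := e
  · rw [P_false]
    exact ((G.cross v).orient (G.cross v.swap) (G.pos _) (G.pos _)).2.1.symm
  · change G.P (v.swap, false) = _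
    rw [P_false]
    exact ((G.cross v).orient (G.cross v.swap) (G.pos _) (G.pos _)).1.symm

theorem cross_pt {i j : Fin n} (h : i ≠ j) {z : ℂ} (hi : z ∈ (G.C i).J) (hj : z ∈ (G.C j).J) :
    ∃ e, cur e = i ∧ oth e = j ∧ z = G.P e := by
  obtain ⟨x, rfl⟩ := hi
  rcases (G.cross ⟨(i, j), h⟩).mem_J hj with e | e
  · exact ⟨(⟨(i, j), h⟩, true), rfl, rfl, e⟩
  · exact ⟨(⟨(i, j), h⟩, false), rfl, rfl, by rw [P_false]; exact e⟩

theorem P_mem {e : Inc n} {j : Fin n} (h : G.P e ∈ (G.C j).J) : j = cur e ∨ j = oth e := by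
  by_contra h'
  push Not at h'
  exact G.triple _ _ _ (cur_ne_oth e) h'.2.symm h'.1.symm _ (G.P_cur e) (G.P_oth e) h

theorem eq_of_P {e e' : Inc n} (hc : cur e = cur e') (h : G.P e = G.P e') : e = e' := by
  have ho : oth e' = oth e :=
    (G.P_mem (h ▸ G.P_oth e')).resolve_left fun h' => cur_ne_oth e' (hc.symm.trans h'.symm)
  have hv : e.1 = e'.1 := Subtype.ext (Prod.ext hc ho.symm)
  obtain ⟨v, f⟩ := e
  obtain ⟨v', f'⟩ := e'
  obtain rfl : v = v' := hv
  cases f <;> cases f'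
  · rfl
  · rw [P_false, P_true] at h; exact ((G.cross v).ne h.symm).elim
  · rw [P_false, P_true] at h; exact ((G.cross v).ne h).elim
  · rfl

theorem P_inj {e e' : Inc n} (h : G.P e = G.P e') : e' = e ∨ e' = tw e := by
  rcases G.P_mem (h ▸ G.P_cur e') with h' | h'
  · exact Or.inl (G.eq_of_P h' h.symm)
  · exact Or.inr (G.eq_of_P h' (h.symm.trans (G.P_tw e).symm))

theorem exists_cyc : ∃ sc b, CycOrd cur G.τ sc b :=
  exists_cycOrd G.τ_nonneg G.τ_lt fun e e' hc h => G.eq_of_P hc (by rw [P, P, hc, h])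

end Geo0

/-- an arrangement together with the cyclic order of the crossings along the curves -/
structure Geo (n : ℕ) extends Geo0 n where
  sc : Perm (Inc n)
  b : Inc n → ℝ
  cyc : CycOrd cur toGeo0.τ sc b
  two : 2 ≤ n

theorem exists_geo (hn : 2 ≤ n) {γ : Fin n → Circle → ℂ}
    (h1 : ∀ i, Continuous (γ i) ∧ Function.Injective (γ i))
    (h2 : ∀ i j, i ≠ j → (range (γ i) ∩ range (γ j)).ncard = 2 ∧
      ∃ x ∈ range (γ i) \ range (γ j), ∃ y ∈ range (γ i) \ range (γ j),
        y ∉ connectedComponentIn (range (γ j))ᶜ x)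
    (h3 : ∀ i j k, i ≠ j → j ≠ k → i ≠ k → range (γ i) ∩ range (γ j) ∩ range (γ k) = ∅) :
    ∃ G : Geo n, ∀ c, (G.C c).J = range (γ c) := by
  have : Nontrivial (Fin n) := Fin.nontrivial_iff_two_le.2 hn
  have hC : ∀ c, ∃ (C : Curve) (μ : ℂ), C.J = range (γ c) ∧ C.Pos μ := fun c => by
    obtain ⟨i, hi⟩ := exists_ne c
    obtain ⟨x, hx, y, hy, hxy⟩ := (h2 i c hi).2
    have e := Curve.ofCircle_J (h1 c).1 (h1 c).2
    rw [← e] at hx hy hxy ⊢
    refine Curve.exists_pos _ ?_
    rcases Curve.sep _ hx.2 hy.2 hxy with a | a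
    exacts [⟨x, a.1⟩, ⟨y, a.2⟩]
  choose C μ hJ hpos using hC
  have hX : ∀ v : V n, ∃ s t, Cross (C v.1.1) (C v.1.2) s t := fun v =>
    exists_cross (by rw [hJ, hJ]; exact (h2 _ _ v.2).1) (by rw [hJ, hJ]; exact (h2 _ _ v.2).2)
  choose s t hX using hX
  have hμ : ∀ c, μ c = μ ⟨0, by omega⟩ := fun c => by
    by_cases h : c = ⟨0, by omega⟩
    · rw [h]
    · exact ((hX ⟨(c, _), h⟩).orient (hX (V.swap ⟨(c, _), h⟩)) (hpos _) (hpos _)).2.2
  let G : Geo0 n := ⟨C, μ ⟨0, by omega⟩, fun c => hμ c ▸ hpos c, s, t, hX,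
    fun i j k a b c z hi hj hk => by
      have : z ∈ range (γ i) ∩ range (γ j) ∩ range (γ k) := ⟨⟨hJ i ▸ hi, hJ j ▸ hj⟩, hJ k ▸ hk⟩
      rw [h3 i j k a b c] at this
      exact this⟩
  obtain ⟨sc, b, h⟩ := G.exists_cyc
  exact ⟨⟨G, sc, b, h, hn⟩, hJ⟩

namespace Geo

variable (G : Geo n)

/-- the edge starting at an incidence -/
noncomputable def edge (e : Inc n) : Arc := (G.C (cur e)).arc (G.τ e) (G.b e) (G.cyc.lt e).le
/-- the open edge -/
def op (e : Inc n) : Set ℂ := (G.C (cur e)).Γ '' Ioo (G.τ e) (G.b e)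
/-- a point of the open edge -/
noncomputable def mid (e : Inc n) : ℂ := (G.C (cur e)).Γ ((G.τ e + G.b e) / 2)
/-- the union of the curves -/
def K : Set ℂ := ⋃ c, (G.C c).J

include G in
theorem exists_inc (c : Fin n) : ∃ e : Inc n, cur e = c := by
  have : Nontrivial (Fin n) := Fin.nontrivial_iff_two_le.2 G.two
  obtain ⟨j, hj⟩ := exists_ne c
  exact ⟨(⟨(c, j), hj.symm⟩, true), rfl⟩

theorem cur_inv (e : Inc n) : cur (G.sc⁻¹ e) = cur e := by
  rw [← G.cyc.cur_sc]; simp

theorem b_eq (e : Inc n) : ∃ k : ℤ, G.b e = G.τ (G.sc e) + k := by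
  obtain ⟨M, -, h1, h2⟩ := G.cyc.wrap e
  by_cases h : e = M
  · exact ⟨1, by rw [h, h1]; simp⟩
  · exact ⟨0, by rw [h2 e rfl h]; simp⟩

theorem edge_ini (e : Inc n) : (G.edge e).ini = G.P e := rfl

theorem edge_fin (e : Inc n) : (G.edge e).fin = G.P (G.sc e) := by
  obtain ⟨k, hk⟩ := G.b_eq e
  change (G.C (cur e)).Γ (G.b e) = _
  rw [hk, Curve.add_int, Geo0.P, G.cyc.cur_sc]

theorem mid_mem (e : Inc n) : G.mid e ∈ G.op e :=
  ⟨_, ⟨by linarith [G.cyc.lt e], by linarith [G.cyc.lt e]⟩, rfl⟩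

theorem op_pre (e : Inc n) : IsPreconnected (G.op e) :=
  isPreconnected_Ioo.image _ (G.C _).cont.continuousOn

theorem im_subset_closure (e : Inc n) : (G.edge e).im ⊆ closure (G.op e) := by
  refine Subset.trans ?_ (image_closure_subset_closure_image (G.C _).cont)
  rw [closure_Ioo (G.cyc.lt e).ne]
  exact subset_rfl

theorem im_J (e : Inc n) : (G.edge e).im ⊆ (G.C (cur e)).J := Curve.im_subset _ _

theorem op_J (e : Inc n) : G.op e ⊆ (G.C (cur e)).J := image_subset_range _ _

theorem P_not_op (e e' : Inc n) : G.P e' ∉ G.op e := by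
  have key : ∀ e', cur e' = cur e → G.P e' ∉ G.op e := by
    rintro e' hc ⟨x, ⟨a1, a2⟩, hx⟩
    rw [Geo0.P, hc] at hx
    obtain ⟨k, rfl⟩ := (G.C _).inj _ _ hx.symm
    exact (G.cyc.gap e e' k hc a1).not_gt a2
  intro h
  rcases G.P_mem (G.op_J e h) with h' | h'
  · exact key e' h'.symm h
  · exact key (tw e') h'.symm (by rwa [G.P_tw])

theorem op_not_J {e : Inc n} {z : ℂ} (hz : z ∈ G.op e) {j : Fin n} (hj : j ≠ cur e) :
    z ∉ (G.C j).J := fun h => by
  obtain ⟨e', -, -, rfl⟩ := G.cross_pt hj h (G.op_J e hz)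
  exact G.P_not_op e e' hz

theorem edge_cross (e e' : Inc n) (x : ℝ) (hx : x ∈ Ioo (G.edge e).s (G.edge e).t) (x' : ℝ)
    (hx' : x' ∈ Icc (G.edge e').s (G.edge e').t) (h : (G.edge e).Γ x = (G.edge e').Γ x') :
    e = e' ∧ x = x' := by
  obtain ⟨a1, a2⟩ : G.τ e < x ∧ x < G.b e := hx
  obtain ⟨a3, a4⟩ : G.τ e' ≤ x' ∧ x' ≤ G.b e' := hx'
  change (G.C (cur e)).Γ x = (G.C (cur e')).Γ x' at h
  have hc : cur e' = cur e := by
    by_contra hc
    exact G.op_not_J ⟨x, ⟨a1, a2⟩, rfl⟩ hc (h ▸ Curve.mem_J _ _)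
  rw [hc] at h
  obtain ⟨k, rfl⟩ := (G.C _).inj _ _ h
  have b1 : G.τ e' + (-k : ℤ) ≤ G.τ e := not_lt.1 fun h' => by
    have := G.cyc.gap e e' (-k) hc h'
    push_cast at this
    linarith
  have b2 : G.τ e + k ≤ G.τ e' := not_lt.1 fun h' => by
    have := G.cyc.gap e' e k hc.symm h'
    linarith
  push_cast at b1
  have b3 : G.τ e' = G.τ e + k := by linarith
  have b4 : G.τ e = G.τ e' := (G.C (cur e)).eq_of_close (by rw [b3, Curve.add_int])
    (by linarith [G.τ_lt e, G.τ_nonneg e']) (by linarith [G.τ_lt e', G.τ_nonneg e])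
  exact ⟨G.eq_of_P hc.symm (by rw [Geo0.P, Geo0.P, hc, b4]), by linarith⟩

theorem eq_of_op {e e' : Inc n} {z : ℂ} (h : z ∈ G.op e) (h' : z ∈ (G.edge e').im) : e = e' := by
  obtain ⟨x, hx, rfl⟩ := h
  obtain ⟨x', hx', h⟩ := h'
  exact (G.edge_cross e e' x hx x' hx' h.symm).1

theorem mem_im {e : Inc n} {z : ℂ} (h : z ∈ (G.edge e).im) :
    z = G.P e ∨ z = G.P (G.sc e) ∨ z ∈ G.op e := by
  obtain ⟨x, ⟨a1, a2⟩, rfl⟩ := h
  rcases eq_or_lt_of_le a1 with rfl | a1
  · exact Or.inl rfl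
  rcases eq_or_lt_of_le a2 with rfl | a2
  · exact Or.inr (Or.inl (G.edge_fin e))
  exact Or.inr (Or.inr ⟨x, ⟨a1, a2⟩, rfl⟩)

theorem exists_edge {c : Fin n} {z : ℂ} (h : z ∈ (G.C c).J) :
    ∃ e, cur e = c ∧ z ∈ (G.edge e).im := by
  obtain ⟨x, rfl⟩ := h
  obtain ⟨e0, rfl⟩ := G.exists_inc c
  obtain ⟨e, k, hc, a1, a2⟩ := G.cyc.cover e0 x
  exact ⟨e, hc, x + k, ⟨a1, a2.le⟩, by rw [← hc]; exact Curve.add_int _ _ _⟩

theorem K_eq : G.K = ⋃ e, (G.edge e).im := by
  ext z
  simp only [K, mem_iUnion]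
  exact ⟨fun ⟨c, hc⟩ => let ⟨e, _, he⟩ := G.exists_edge hc; ⟨e, he⟩,
    fun ⟨e, he⟩ => ⟨_, G.im_J e he⟩⟩

theorem K_compact : IsCompact G.K := isCompact_iUnion fun c => (G.C c).compact

/-- the edge of a dart -/
def ed (d : D n) : Inc n := if d.2 then d.1 else G.sc⁻¹ d.1

theorem cur_ed (d : D n) : cur (G.ed d) = cur d.1 := by
  obtain ⟨e, _ | _⟩ := d
  exacts [G.cur_inv e, rfl]

theorem ed_opp (d : D n) : G.ed (opp G.sc d) = G.ed d := by
  obtain ⟨e, _ | _⟩ := d <;> simp [ed]

theorem P_mem_ed (d : D n) : G.P d.1 ∈ (G.edge (G.ed d)).im := by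
  obtain ⟨e, _ | _⟩ := d
  · have := (G.edge (G.sc⁻¹ e)).fin_mem
    rw [edge_fin] at this
    simpa [ed] using this
  · exact (G.edge e).ini_mem

theorem reach (d : D n) : IsPreconnected (insert (G.P d.1) (G.op (G.ed d))) :=
  (G.op_pre _).subset_closure (subset_insert _ _)
    (insert_subset (G.im_subset_closure _ (G.P_mem_ed d)) subset_closure)

/-- the edge `e` lies inside the curve `j` -/
def ins (e : Inc n) (j : Fin n) : Prop := G.mid e ∈ (G.C j).In

theorem ins_ed (d : D n) : G.ins (G.ed d) (oth d.1) ↔ d.1.2 = d.2 := by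
  obtain ⟨⟨v, f⟩, g⟩ := d
  have hX := G.cross v
  have h1 := hX.lt
  have h2 := hX.lt'
  have h3 := G.τ_false v
  have h4 := G.τ_true v
  have hI : ∀ (e : Inc n) (k : ℤ), cur e = v.1.1 → G.s v ≤ G.τ e + k → G.b e + k ≤ G.t v →
      G.ins e v.1.2 := fun e k hc a1 a2 => by
    rw [ins, mid, hc, ← Curve.add_int _ _ k]
    exact hX.ins _ ⟨by linarith [G.cyc.lt e], by linarith [G.cyc.lt e]⟩
  have hO : ∀ (e : Inc n) (k : ℤ), cur e = v.1.1 → G.t v ≤ G.τ e + k → G.b e + k ≤ G.s v + 1 →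
      ¬ G.ins e v.1.2 := fun e k hc a1 a2 => by
    rw [ins, mid, hc, ← Curve.add_int _ _ k]
    exact Curve.not_In_of_Out _
      (hX.out _ ⟨by linarith [G.cyc.lt e], by linarith [G.cyc.lt e]⟩)
  cases g
  · obtain ⟨k, hk⟩ := G.b_eq (G.sc⁻¹ (v, f))
    have hc := G.cur_inv (v, f)
    rw [show G.sc (G.sc⁻¹ (v, f)) = (v, f) by simp] at hk
    cases f
    · refine iff_of_true (hI (G.sc⁻¹ (v, false)) (⌊G.t v⌋ - k) hc (not_lt.1 fun h => ?_)
        (by push_cast; linarith)) rfl
      have := G.cyc.gap (G.sc⁻¹ (v, false)) (v, true) (k - ⌊G.t v⌋) hc.symm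
        (by push_cast at h ⊢; linarith)
      push_cast at this
      linarith
    · refine iff_of_false (hO (G.sc⁻¹ (v, true)) (1 - k) hc (not_lt.1 fun h => ?_)
        (by push_cast; linarith)) (by simp)
      have := G.cyc.gap (G.sc⁻¹ (v, true)) (v, false) (⌊G.t v⌋ + k - 1) hc.symm
        (by push_cast at h ⊢; linarith)
      push_cast at this
      linarith
  · cases f
    · refine iff_of_false (hO (v, false) ⌊G.t v⌋ rfl h3.ge ?_) (by simp)
      have := G.cyc.gap (v, false) (v, true) (1 - ⌊G.t v⌋) rfl (by push_cast; linarith)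
      push_cast at this
      linarith
    · refine iff_of_true (hI (v, true) 0 rfl (by push_cast; linarith) ?_) rfl
      have := G.cyc.gap (v, true) (v, false) ⌊G.t v⌋ rfl (by linarith)
      push_cast
      linarith

theorem ins_ed' (d : D n) {j : Fin n} (h1 : j ≠ cur d.1) (h2 : j ≠ oth d.1) :
    G.ins (G.ed d) j ↔ G.P d.1 ∈ (G.C j).In := by
  have hd : ∀ z ∈ insert (G.P d.1) (G.op (G.ed d)), z ∉ (G.C j).J := by
    rintro z (rfl | hz)
    · exact fun h => (G.P_mem h).elim h1 h2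
    · exact G.op_not_J hz (by rwa [G.cur_ed])
  have a := mem_insert_of_mem (G.P d.1) (G.mid_mem (G.ed d))
  exact ⟨(G.C j).In_const (G.reach d) hd a (mem_insert _ _),
    (G.C j).In_const (G.reach d) hd (mem_insert _ _) a⟩

end Geo

end Pool.Agent.MP_920d98_co

end

section

set_option autoImplicit false

/-!
Winding sums of circulations of an arrangement are constant on the faces of the model.
-/

namespace Pool.Agent.MP_920d98_co

open Complex Set Topology Metric Filter Equiv

variable {n : ℕ}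

/-- the inside (`true`) or the outside (`false`) -/
def Curve.sd (C : Curve) (σ : Bool) : Set ℂ := if σ then C.In else C.Out

theorem Curve.sd_not_J {C : Curve} {σ : Bool} {a : ℂ} (h : a ∈ C.sd σ) : a ∉ C.J := by
  cases σ <;> exact h.1

theorem Curve.exists_sd {C : Curve} {a : ℂ} (h : a ∉ C.J) : ∃ σ, a ∈ C.sd σ :=
  (C.mem_In_or_Out h).elim (fun h => ⟨true, h⟩) fun h => ⟨false, h⟩

theorem Curve.Pos.wn_sd {C : Curve} {μ : ℂ} (hC : C.Pos μ) {σ : Bool} {a : ℂ} (h : a ∈ C.sd σ) :
    C.wn a = if σ then μ else 0 := by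
  cases σ
  exacts [h.2, hC.2.1 a h]

theorem Curve.Pos.closure_sd {C : Curve} {μ : ℂ} (hC : C.Pos μ) (σ : Bool) :
    C.J ⊆ closure (C.sd σ) := by
  cases σ
  exacts [C.subset_closure_Out hC.1, C.subset_closure_In hC.1]

theorem Curve.not_closure_In (C : Curve) {a : ℂ} (h : a ∈ C.Out) : a ∉ closure C.In := fun h' => by
  obtain ⟨z, hz, hz'⟩ := mem_closure_iff.1 h' _
    (C.compact.isClosed.isOpen_compl.connectedComponentIn (x := a)) (mem_connectedComponentIn h.1)
  exact C.not_In_of_Out (C.cc_subset_Out h hz) hz'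

/-- conservation at every crossing -/
def Cons (sc : Perm (Inc n)) (y : Inc n → ℂ) : Prop :=
  ∀ e, y e - y (sc⁻¹ e) + y (tw e) - y (sc⁻¹ (tw e)) = 0

theorem Cons.sub_smul {sc : Perm (Inc n)} {y y' : Inc n → ℂ} (h : Cons sc y) (h' : Cons sc y')
    (c : ℂ) : Cons sc fun e => y e - c * y' e := fun e => by
  linear_combination h e - c * h' e

theorem W_sub_smul {ι : Type} [Fintype ι] (A : ι → Arc) (y y' : ι → ℂ) (c a : ℂ) :
    W A (fun e => y e - c * y' e) a = W A y a - c * W A y' a := by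
  simp only [W, Finset.mul_sum, ← Finset.sum_sub_distrib]
  exact Finset.sum_congr rfl fun _ _ => by ring

/-- the chain of the curve `c` -/
def one (c : Fin n) (e : Inc n) : ℂ := if cur e = c then 1 else 0

/-- the boundary of the part of `i` inside `j` -/
def dl (i j : Fin n) (e : Inc n) : ℂ :=
  if cur e = i ∧ oth e = j then (if e.2 then 1 else -1) else 0

theorem dl_tw (i j : Fin n) (e : Inc n) : dl i j (tw e) = -dl j i e := by
  simp only [dl, cur_tw, oth_tw, tw_snd]
  split_ifs <;> simp_all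

namespace Geo

variable (G : Geo n)

theorem closed {y : Inc n → ℂ} (h : Cons G.sc y) : Closed G.edge y := fun g => by
  simp only [edge_ini, edge_fin, mul_sub, Finset.sum_sub_distrib]
  have e1 : ∑ e, y e * g (G.P (G.sc e)) = ∑ e, y (G.sc⁻¹ e) * g (G.P e) := by
    rw [← Equiv.sum_comp G.sc fun e => y (G.sc⁻¹ e) * g (G.P e)]
    simp
  have e2 : ∑ e, (y e - y (G.sc⁻¹ e)) * g (G.P e) =
      ∑ e, -((y e - y (G.sc⁻¹ e)) * g (G.P e)) := by
    rw [← Equiv.sum_comp twP fun e => (y e - y (G.sc⁻¹ e)) * g (G.P e)]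
    refine Finset.sum_congr rfl fun e _ => ?_
    change (y (tw e) - y (G.sc⁻¹ (tw e))) * g (G.P (tw e)) = _
    rw [G.P_tw]
    linear_combination g (G.P e) * h e
  rw [Finset.sum_neg_distrib] at e2
  simp only [sub_mul, Finset.sum_sub_distrib] at e2
  linear_combination e1 - e2 / 2

theorem cons_one (c : Fin n) : Cons G.sc (one c) := fun e => by
  simp only [one, G.cur_inv]
  ring

theorem W_one {c : Fin n} {a : ℂ} (ha : a ∉ (G.C c).J) : W G.edge (one c) a = (G.C c).wn a := by
  obtain ⟨e0, rfl⟩ := G.exists_inc c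
  obtain ⟨L, hL, hL'⟩ := (G.C _).exists_glift ha
  obtain ⟨M, hM, h1, h2⟩ := G.cyc.wrap e0
  have e1 : ∀ e, one (cur e0) e * (G.edge e).inc a = one (cur e0) (G.sc e) * L (G.τ (G.sc e)) -
      one (cur e0) e * L (G.τ e) + if e = M then (G.C (cur e0)).wn a else 0 := by
    intro e
    simp only [one, G.cyc.cur_sc]
    by_cases hc : cur e = cur e0
    · have : (G.edge e).inc a = L (G.b e) - L (G.τ e) := by
        rw [← hL _ _ (G.cyc.lt e).le, ← hc]; rfl
      rw [this, if_pos hc]
      by_cases he : e = M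
      · rw [if_pos he, he, h1, hL']; ring
      · rw [if_neg he, h2 e hc he]; ring
    · rw [if_neg hc, if_neg fun h : e = M => hc (h ▸ hM)]; ring
  simp only [W, e1, Finset.sum_add_distrib, Finset.sum_sub_distrib]
  rw [Equiv.sum_comp G.sc fun e => one (cur e0) e * L (G.τ e)]
  simp

theorem side {e : Inc n} {x : ℂ} (hx : x ∈ G.op e) : ∃ r > 0, ∀ p ∈ ball x r,
    (∀ j, j ≠ cur e → p ∉ (G.C j).J ∧ (p ∈ (G.C j).In ↔ G.ins e j)) ∧
    ∀ σ, p ∈ (G.C (cur e)).sd σ → ∀ y, Cons G.sc y → W G.edge y p =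
      W G.edge (fun f => y f - y e * one (cur e) f) (G.mid e) + if σ then y e * G.μ else 0 := by
  have hU : IsOpen (⋃ f ∈ {f | f ≠ e}, (G.edge f).im)ᶜ :=
    ((toFinite _).isCompact_biUnion fun f _ => (G.edge f).compact).isClosed.isOpen_compl
  have hop : ∀ z ∈ G.op e, z ∈ (⋃ f ∈ {f | f ≠ e}, (G.edge f).im)ᶜ := fun z hz h => by
    obtain ⟨f, hf, h⟩ := mem_iUnion₂.1 h
    exact hf (G.eq_of_op hz h).symm
  obtain ⟨r, hr, hr'⟩ := Metric.isOpen_iff.1 hU x (hop x hx)
  have hS : IsPreconnected (ball x r ∪ G.op e) :=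
    (convex_ball x r).isPreconnected.union x (mem_ball_self hr) hx (G.op_pre e)
  have hS' : ∀ z ∈ ball x r ∪ G.op e, ∀ f, f ≠ e → z ∉ (G.edge f).im := fun z hz f hf h =>
    hz.elim (fun hz => hr' hz) (hop z) (mem_iUnion₂.2 ⟨f, hf, h⟩)
  refine ⟨r, hr, fun p hp => ⟨fun j hj => ?_, fun σ hσ y hy => ?_⟩⟩
  · have hd : ∀ z ∈ ball x r ∪ G.op e, z ∉ (G.C j).J := fun z hz h => by
      obtain ⟨f, hf, h⟩ := G.exists_edge h
      exact hS' z hz f (fun h' => hj (h' ▸ hf.symm)) h
    exact ⟨hd p (Or.inl hp), (G.C j).In_const hS hd (Or.inl hp) (Or.inr (G.mid_mem e)),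
      (G.C j).In_const hS hd (Or.inr (G.mid_mem e)) (Or.inl hp)⟩
  · rw [← W_const (G.closed (hy.sub_smul (G.cons_one (cur e)) (y e))) hS
      (fun z hz ⟨f, hf, h⟩ => hS' z hz f (by rintro rfl; simp [one] at hf) h) (Or.inl hp)
      (Or.inr (G.mid_mem e)), W_sub_smul, G.W_one (Curve.sd_not_J hσ), (G.pos _).wn_sd hσ]
    cases σ <;> simp

theorem exists_z (e : Inc n) (σ : Bool) : ∃ p ∈ (G.C (cur e)).sd σ,
    (∀ j, j ≠ cur e → p ∉ (G.C j).J ∧ (p ∈ (G.C j).In ↔ G.ins e j)) ∧
    ∀ y, Cons G.sc y → W G.edge y p =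
      W G.edge (fun f => y f - y e * one (cur e) f) (G.mid e) + if σ then y e * G.μ else 0 := by
  obtain ⟨r, hr, h⟩ := G.side (G.mid_mem e)
  obtain ⟨p, hp, hp'⟩ := mem_closure_iff.1 ((G.pos _).closure_sd σ (G.op_J e (G.mid_mem e))) _
    isOpen_ball (mem_ball_self hr)
  exact ⟨p, hp', (h p hp).1, (h p hp).2 σ hp'⟩

/-- a point close to the edge `e` on the side `σ` -/
noncomputable def z (e : Inc n) (σ : Bool) : ℂ := (G.exists_z e σ).choose

theorem z_sd (e : Inc n) (σ : Bool) : G.z e σ ∈ (G.C (cur e)).sd σ :=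
  (G.exists_z e σ).choose_spec.1

theorem z_In (e : Inc n) (σ : Bool) {j : Fin n} (hj : j ≠ cur e) :
    G.z e σ ∈ (G.C j).In ↔ G.ins e j := ((G.exists_z e σ).choose_spec.2.1 j hj).2

theorem z_not_J (e : Inc n) (σ : Bool) (j : Fin n) : G.z e σ ∉ (G.C j).J := by
  by_cases hj : j = cur e
  · exact hj ▸ Curve.sd_not_J (G.z_sd e σ)
  · exact ((G.exists_z e σ).choose_spec.2.1 j hj).1

theorem z_not_K (e : Inc n) (σ : Bool) : G.z e σ ∉ G.K := fun h =>
  let ⟨j, hj⟩ := mem_iUnion.1 h
  G.z_not_J e σ j hj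

variable {y : Inc n → ℂ}

theorem W_z (hy : Cons G.sc y) (e : Inc n) (σ : Bool) : W G.edge y (G.z e σ) =
    W G.edge (fun f => y f - y e * one (cur e) f) (G.mid e) + if σ then y e * G.μ else 0 :=
  (G.exists_z e σ).choose_spec.2.2 y hy

theorem W_jump (hy : Cons G.sc y) (e : Inc n) :
    W G.edge y (G.z e true) = W G.edge y (G.z e false) + y e * G.μ := by
  simp [G.W_z hy]

theorem W_z_zero (hy : Cons G.sc y) {e : Inc n} (h : y e = 0) (σ : Bool) :
    W G.edge y (G.z e σ) = W G.edge y (G.mid e) := by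
  simp [G.W_z hy, h]

theorem side' {e : Inc n} {x : ℂ} (hx : x ∈ G.op e) : ∃ r > 0, ∀ p ∈ ball x r, ∀ σ,
    p ∈ (G.C (cur e)).sd σ → p ∉ G.K ∧ ∀ y, Cons G.sc y → W G.edge y p = W G.edge y (G.z e σ) := by
  obtain ⟨r, hr, h⟩ := G.side hx
  refine ⟨r, hr, fun p hp σ hσ => ⟨fun hK => ?_, fun y hy => ?_⟩⟩
  · obtain ⟨j, hj⟩ := mem_iUnion.1 hK
    by_cases hc : j = cur e
    · exact Curve.sd_not_J hσ (hc ▸ hj)
    · exact ((h p hp).1 j hc).1 hj
  · rw [(h p hp).2 σ hσ y hy, G.W_z hy]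

open Classical in
/-- the edges of `i` inside `j` -/
noncomputable def half (i j : Fin n) (e : Inc n) : ℂ := if cur e = i ∧ G.ins e j then 1 else 0

theorem half_sub {i j : Fin n} (h : i ≠ j) (e : Inc n) : G.half i j e - G.half i j (G.sc⁻¹ e) =
    dl i j e := by
  classical
  simp only [half, G.cur_inv, dl]
  by_cases hc : cur e = i
  · by_cases ho : oth e = j
    · have a1 := G.ins_ed (e, true)
      have a2 := G.ins_ed (e, false)
      simp only [ed, ho, if_true, Bool.false_eq_true, if_false] at a1 a2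
      simp only [hc, ho, a1, a2]
      cases e.2 <;> simp
    · have a1 := G.ins_ed' (e, true) (j := j) (hc ▸ h.symm) (Ne.symm ho)
      have a2 := G.ins_ed' (e, false) (j := j) (hc ▸ h.symm) (Ne.symm ho)
      simp only [ed, if_true, Bool.false_eq_true, if_false] at a1 a2
      simp only [a1, a2]
      simp [ho]
  · simp [hc]

/-- the boundary of the intersection of the insides of `i` and `j` -/
noncomputable def lens (i j : Fin n) (e : Inc n) : ℂ := G.half i j e + G.half j i e

theorem lens_comm (i j : Fin n) : G.lens i j = G.lens j i := funext fun _ => add_comm _ _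

theorem cons_lens {i j : Fin n} (h : i ≠ j) : Cons G.sc (G.lens i j) := fun e => by
  have a1 := G.half_sub h e
  have a2 := G.half_sub h.symm e
  have a3 := G.half_sub h (tw e)
  have a4 := G.half_sub h.symm (tw e)
  rw [dl_tw] at a3 a4
  simp only [lens]
  linear_combination a1 + a2 + a3 + a4

open Classical in
theorem lens_apply {j : Fin n} {e : Inc n} (h : cur e ≠ j) :
    G.lens (cur e) j e = if G.ins e j then 1 else 0 := by
  simp [lens, half, h]

theorem W_lens_out {i j : Fin n} (h : i ≠ j) {a : ℂ} (ha : a ∈ (G.C j).Out) :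
    W G.edge (G.lens i j) a = 0 := by
  refine W_zero (G.closed (G.cons_lens h)) (G.C j).Out_preconnected ?_
    ((G.C j).Out_unbounded ha) ha
  rintro p hp ⟨f, hf, hpf⟩
  by_cases hc : cur f = j
  · exact hp.1 (hc ▸ G.im_J f hpf)
  have hi : G.ins f j := by
    by_contra hi
    simp [lens, half, hc, hi] at hf
  refine (G.C j).not_closure_In hp (closure_mono (fun w hw => ?_) (G.im_subset_closure f hpf))
  exact (G.C j).In_const (G.op_pre f) (fun w hw => G.op_not_J hw (Ne.symm hc)) (G.mid_mem f) hw hi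

open Classical in
theorem W_lens {j : Fin n} {e : Inc n} (h : cur e ≠ j) (σ : Bool) :
    W G.edge (G.lens (cur e) j) (G.z e σ) = if σ ∧ G.ins e j then G.μ else 0 := by
  have h0 : W G.edge (G.lens (cur e) j) (G.z e false) = 0 := by
    rw [lens_comm]; exact G.W_lens_out h.symm (G.z_sd e false)
  cases σ
  · simp [h0]
  · rw [G.W_jump (G.cons_lens h), h0, G.lens_apply h]
    simp

open Classical in
theorem W_one_z {j : Fin n} {e : Inc n} (h : cur e ≠ j) (σ : Bool) :
    W G.edge (one j) (G.z e σ) = if G.ins e j then G.μ else 0 := by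
  rw [G.W_one (G.z_not_J e σ j)]
  split_ifs with hi
  · exact (G.pos j).2.1 _ ((G.z_In e σ h.symm).2 hi)
  · exact (((G.C j).mem_In_or_Out (G.z_not_J e σ j)).resolve_left
      fun h' => hi ((G.z_In e σ h.symm).1 h')).2

theorem W_one_z' (e : Inc n) (σ : Bool) :
    W G.edge (one (cur e)) (G.z e σ) = if σ then G.μ else 0 := by
  rw [G.W_one (G.z_not_J e σ _), (G.pos _).wn_sd (G.z_sd e σ)]

theorem W_vertex (hy : Cons G.sc y) (e : Inc n) (h1 : ∀ f, y (G.ed (e, f)) = 0)
    (h2 : ∀ f, y (G.ed (tw e, f)) = 0) (f σ : Bool) :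
    W G.edge y (G.z (G.ed (e, f)) σ) = W G.edge y (G.P e) := by
  rw [G.W_z_zero hy (h1 f)]
  refine W_const (G.closed hy) (G.reach (e, f)) ?_ (mem_insert_of_mem _ (G.mid_mem _))
    (mem_insert _ _)
  rintro p (rfl | hp) ⟨g, hg, hpg⟩
  · rcases G.mem_im hpg with h | h | h
    · rcases G.P_inj h with rfl | rfl
      exacts [hg (h1 true), hg (h2 true)]
    · rcases G.P_inj h with rfl | h
      · exact hg (by simpa [ed] using h1 false)
      · exact hg (by simpa [ed, ← h] using h2 false)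
    · exact G.P_not_op _ _ h
  · exact hg (G.eq_of_op hp hpg ▸ h1 f)

theorem corner_aux (hy : Cons G.sc y) (e : Inc n) (he : e.2 = true) (f g : Bool) :
    W G.edge y (G.z (G.ed (e, f)) !g) = W G.edge y (G.z (G.ed (tw e, g)) f) := by
  classical
  have hne := cur_ne_oth e
  have c1 : ∀ f, cur (G.ed (e, f)) = cur e := fun f => G.cur_ed (e, f)
  have c2 : ∀ f, cur (G.ed (tw e, f)) = oth e := fun f => G.cur_ed (tw e, f)
  have i1 : ∀ f, G.ins (G.ed (e, f)) (oth e) ↔ f = true := fun f => by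
    rw [G.ins_ed (e, f), he, eq_comm]
  have i2 : ∀ f, G.ins (G.ed (tw e, f)) (cur e) ↔ f = false := fun f => by
    have := G.ins_ed (tw e, f)
    rw [oth_tw] at this
    rw [this, tw_snd, he, eq_comm]; rfl
  have l1 : ∀ f, G.lens (cur e) (oth e) (G.ed (e, f)) = if f then 1 else 0 := fun f => by
    have := G.lens_apply (e := G.ed (e, f)) (j := oth e) (by rwa [c1])
    rw [c1] at this
    simp only [this, i1]
  have l2 : ∀ f, G.lens (cur e) (oth e) (G.ed (tw e, f)) = if f then 0 else 1 := fun f => by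
    have := G.lens_apply (e := G.ed (tw e, f)) (j := cur e) (by rw [c2]; exact hne.symm)
    rw [c2, lens_comm] at this
    simp only [this, i2]
    cases f <;> simp
  have hy' := ((hy.sub_smul (G.cons_one (cur e)) (y (G.sc⁻¹ e))).sub_smul (G.cons_one (oth e))
    (y (tw e))).sub_smul (G.cons_lens hne) (y e - y (G.sc⁻¹ e))
  have z1 : ∀ f, y (G.ed (e, f)) - y (G.sc⁻¹ e) * one (cur e) (G.ed (e, f)) -
      y (tw e) * one (oth e) (G.ed (e, f)) -
      (y e - y (G.sc⁻¹ e)) * G.lens (cur e) (oth e) (G.ed (e, f)) = 0 := fun f => by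
    rw [l1, one, one, c1, if_pos rfl, if_neg hne]
    cases f <;> simp [ed]
  have z2 : ∀ f, y (G.ed (tw e, f)) - y (G.sc⁻¹ e) * one (cur e) (G.ed (tw e, f)) -
      y (tw e) * one (oth e) (G.ed (tw e, f)) -
      (y e - y (G.sc⁻¹ e)) * G.lens (cur e) (oth e) (G.ed (tw e, f)) = 0 := fun f => by
    rw [l2, one, one, c2, if_pos rfl, if_neg hne.symm]
    cases f
    · simp only [ed, Bool.false_eq_true, if_false]
      linear_combination -hy e
    · simp [ed]
  have k1 := G.W_vertex hy' e z1 z2 f !g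
  have k2 := G.W_vertex hy' (tw e) z2 (by simpa using z1) g f
  rw [G.P_tw, ← k1] at k2
  simp only [W_sub_smul] at k2
  have a1 := G.W_one_z' (G.ed (e, f)) !g
  have a2 := G.W_one_z' (G.ed (tw e, g)) f
  have a3 := G.W_one_z (e := G.ed (e, f)) (j := oth e) (by rwa [c1]) !g
  have a4 := G.W_one_z (e := G.ed (tw e, g)) (j := cur e) (by rw [c2]; exact hne.symm) f
  have a5 := G.W_lens (e := G.ed (e, f)) (j := oth e) (by rwa [c1]) !g
  have a6 := G.W_lens (e := G.ed (tw e, g)) (j := cur e) (by rw [c2]; exact hne.symm) f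
  rw [c1] at a1 a5
  rw [c2] at a2 a6
  rw [lens_comm] at a6
  rw [a1, a2, a3, a4, a5, a6] at k2
  simp only [i1, i2] at k2
  cases f <;> cases g <;> simp at k2 ⊢ <;> linear_combination -k2

/-- a point in the face on the left of the dart -/
noncomputable def zd (d : D n) : ℂ := G.z (G.ed d) d.2

theorem zd_not_K (d : D n) : G.zd d ∉ G.K := G.z_not_K _ _

theorem zd_opp (d : D n) : G.zd (opp G.sc d) = G.z (G.ed d) !d.2 := by
  rw [zd, ed_opp]; rfl

theorem W_phi (hy : Cons G.sc y) (d : D n) :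
    W G.edge y (G.zd (phi G.sc d)) = W G.edge y (G.zd d) := by
  obtain ⟨⟨e, f⟩, rfl⟩ := (opp G.sc).surjective d
  rw [phi_opp, zd_opp, rot_inv_apply, zd]
  cases he : e.2
  · have := G.corner_aux hy (tw e) (by simp [he]) (!f) f
    rw [tw_tw] at this
    cases f <;> exact this
  · have := G.corner_aux hy e he f f
    cases f <;> exact this.symm

end Geo

end Pool.Agent.MP_920d98_co

end

section

set_option autoImplicit false

/-!
The faces of an arrangement of Jordan curves correspond to the faces of its combinatorial model.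
-/

namespace Pool.Agent.MP_920d98_co

open Complex Set Topology Metric Filter Equiv

variable {n : ℕ}

theorem Circ.cons' {sc : Perm (Inc n)} {Z : D n → ℂ} (h : Circ sc Z) :
    Cons sc fun e => Z (e, true) := fun e => by
  have a1 := h.anti (e, false)
  have a2 := h.anti (tw e, false)
  rw [opp_false] at a1 a2
  linear_combination h.cons e - a1 - a2

theorem Circ.map {R S : Type} [AddCommGroup R] [AddCommGroup S] {sc : Perm (Inc n)} {Z : D n → R}
    (h : Circ sc Z) (f : R →+ S) : Circ sc fun d => f (Z d) :=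
  ⟨fun d => by rw [h.anti, map_neg], fun e => by
    rw [← map_add, ← map_add, ← map_add, h.cons, map_zero]⟩

theorem Pot.map {R S : Type} [AddCommGroup R] [AddCommGroup S] {sc : Perm (Inc n)} {Z w : D n → R}
    (h : Pot sc Z w) (f : R →+ S) : Pot sc (fun d => f (Z d)) fun d => f (w d) :=
  ⟨fun d => by rw [h.inv], fun d => by rw [← map_sub, h.jump]⟩

theorem Pot.unique {R : Type} [AddCommGroup R] {sc : Perm (Inc n)}
    (hc : ∀ e e', cur e = cur e' → sc.SameCycle e e') {Z w w' : D n → R} (h : Pot sc Z w)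
    (h' : Pot sc Z w') (d d' : D n) : w d - w' d = w d' - w' d' :=
  dart_const hc (u := fun d => w d - w' d) (fun d => by rw [h.inv, h'.inv])
    (fun d => by
      rw [sub_eq_sub_iff_sub_eq_sub, ← neg_inj, neg_sub, neg_sub, h.jump, h'.jump]) d d'

theorem vtx_phi {sc : Perm (Inc n)} (hs : ∀ e, cur (sc e) = cur e)
    (hc : ∀ e e', cur e = cur e' → sc.SameCycle e e') (d : D n) :
    vtx (phi sc d).1 ≠ vtx d.1 := by
  have key : ∀ e, vtx e ≠ vtx (sc e) := fun e h => by
    rcases vtx_eq_iff.1 h with h | h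
    · have := (hc e (e.1, !e.2) rfl).eq_of_left h
      exact Bool.self_ne_not _ (congrArg Prod.snd this)
    · exact cur_ne_oth e (by rw [← hs e, h, cur_tw])
  obtain ⟨e, _ | _⟩ := d
  · rw [phi_false, vtx_tw]
    simpa using key (sc⁻¹ e)
  · rw [phi_true, vtx_tw]
    exact (key e).symm

theorem vtx_injOn {sc : Perm (Inc n)} (hs : ∀ e, cur (sc e) = cur e)
    (hc : ∀ e e', cur e = cur e' → sc.SameCycle e e') {d : D n} (h3 : (face sc d).card = 3)
    {x y : D n} (hx : x ∈ face sc d) (hy : y ∈ face sc d) (h : vtx x.1 = vtx y.1) : x = y := by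
  by_contra hne
  have hp : ∀ x, phi sc x ≠ x := fun x e => vtx_phi hs hc x (by rw [e])
  have a1 : phi sc x ≠ y := fun e => vtx_phi hs hc x (by rw [e, h])
  have a2 : phi sc y ≠ x := fun e => vtx_phi hs hc y (by rw [e, h])
  have a3 : phi sc y ≠ phi sc x := fun e => hne ((phi sc).injective e).symm
  have hsub : ({phi sc y, x, phi sc x, y} : Finset (D n)) ⊆ face sc d := by
    simp only [Finset.insert_subset_iff, Finset.singleton_subset_iff, phi_mem_face]
    exact ⟨hy, hx, hx, hy⟩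
  have := Finset.card_le_card hsub
  rw [Finset.card_insert_of_notMem (by simp [a2, a3, hp y]),
    Finset.card_insert_of_notMem (by simp [(hp x).symm, hne]),
    Finset.card_insert_of_notMem (by simp [a1]), Finset.card_singleton] at this
  omega

namespace Geo

variable (G : Geo n)

theorem μ_ne (c : Fin n) : G.μ ≠ 0 := (G.pos c).ne

theorem potC {Z : D n → ℂ} (h : Circ G.sc Z) :
    Pot G.sc Z fun d => W G.edge (fun e => Z (e, true)) (G.zd d) / G.μ := by
  refine ⟨fun d => by rw [G.W_phi h.cons'], fun d => ?_⟩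
  have h0 := G.μ_ne (cur d.1)
  have h1 := G.W_jump h.cons' (G.ed d)
  rw [zd_opp, zd, ← sub_div, div_eq_iff h0]
  obtain ⟨e, _ | _⟩ := d
  · have := h.anti (e, false)
    rw [opp_false] at this
    simp only [ed, Bool.false_eq_true, if_false, Bool.not_false] at h1 ⊢
    linear_combination -h1 - G.μ * this
  · simp only [ed, if_true, Bool.not_true] at h1 ⊢
    linear_combination h1

theorem planar (Z : D n → ℤ) (h : Circ G.sc Z) : ∃ w, Pot G.sc Z w := by
  have hp := G.potC (h.map (Int.castAddHom ℂ))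
  refine ⟨fun d => ⌊(W G.edge (fun e => (Z (e, true) : ℂ)) (G.zd d) / G.μ).re⌋,
    fun d => congrArg (fun x : ℂ => ⌊x.re⌋) (hp.inv d), fun d => ?_⟩
  have := sub_eq_iff_eq_add'.1 (hp.jump d)
  simp only [Int.coe_castAddHom] at this
  rw [this, add_re, intCast_re, Int.floor_add_intCast, add_sub_cancel_left]

/-- the combinatorial model -/
def arr : Arr n := ⟨G.sc, G.cyc.cur_sc, G.cyc.cyc, G.planar⟩

theorem supp_subset (y : Inc n → ℂ) : supp G.edge y ⊆ G.K := fun _ ⟨e, _, h⟩ =>
  mem_iUnion.2 ⟨_, G.im_J e h⟩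

theorem W_cc {y : Inc n → ℂ} (hy : Cons G.sc y) {p q : ℂ} (h : q ∈ connectedComponentIn G.Kᶜ p) :
    W G.edge y q = W G.edge y p :=
  W_const (G.closed hy) isPreconnected_connectedComponentIn
    (fun _ hz h => connectedComponentIn_subset G.Kᶜ p hz (G.supp_subset y h)) h
    (mem_connectedComponentIn (connectedComponentIn_nonempty_iff.1 ⟨q, h⟩))

/-- the boundary map -/
def bd : (Inc n → ℂ) →ₗ[ℂ] (Inc n → ℂ) where
  toFun y e := y e - y (G.sc⁻¹ e) + y (tw e) - y (G.sc⁻¹ (tw e))
  map_add' y y' := by ext e; simp only [Pi.add_apply]; ring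
  map_smul' c y := by ext e; simp only [Pi.smul_apply, smul_eq_mul, RingHom.id_apply]; ring

theorem bd_single (e : Inc n) : G.bd (Pi.single e 1) = Pi.single e 1 - Pi.single (G.sc e) 1 +
    Pi.single (tw e) 1 - Pi.single (tw (G.sc e)) 1 := by
  ext f
  have a1 : ∀ f e : Inc n, G.sc⁻¹ f = e ↔ f = G.sc e := fun f e => Perm.inv_eq_iff_eq
  have a2 : ∀ f e : Inc n, tw f = e ↔ f = tw e := fun f e =>
    ⟨fun h => by rw [← h, tw_tw], fun h => by rw [h, tw_tw]⟩
  simp only [bd, LinearMap.coe_mk, AddHom.coe_mk, Pi.sub_apply, Pi.add_apply, Pi.single_apply,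
    a1, a2]

theorem same_cc {p q : ℂ} (hp : p ∉ G.K) (hq : q ∉ G.K)
    (h : ∀ y, Cons G.sc y → W G.edge y p = W G.edge y q) :
    connectedComponentIn G.Kᶜ p = connectedComponentIn G.Kᶜ q := by
  classical
  let φ : Module.Dual ℂ (Inc n → ℂ) :=
    Fintype.linearCombination ℂ fun e => (G.edge e).inc p - (G.edge e).inc q
  have hφ : φ ∈ (LinearMap.ker G.bd).dualAnnihilator := by
    rw [Submodule.mem_dualAnnihilator]
    intro y hy
    have := h y fun e => congrFun (LinearMap.mem_ker.1 hy) e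
    simp only [φ, Fintype.linearCombination_apply, smul_eq_mul, mul_sub, Finset.sum_sub_distrib]
    exact sub_eq_zero.2 this
  rw [← LinearMap.range_dualMap_eq_dualAnnihilator_ker] at hφ
  obtain ⟨ψ, hψ⟩ := hφ
  let g1 : Inc n → ℂ := fun e => -(ψ (Pi.single e 1) + ψ (Pi.single (tw e) 1))
  have t1 : ∀ e, g1 (tw e) = g1 e := fun e => by simp only [g1, tw_tw]; ring
  have t2 : ∀ e, g1 (G.sc e) - g1 e = (G.edge e).inc p - (G.edge e).inc q := fun e => by
    have := congrArg (fun f => f (Pi.single e 1)) hψ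
    simp only [LinearMap.dualMap_apply, G.bd_single, map_sub, map_add, φ,
      Fintype.linearCombination_apply_single, one_smul] at this
    simp only [g1]
    linear_combination this
  have hpe : ∀ e, p ∉ (G.edge e).im := fun e h => hp (G.K_eq ▸ mem_iUnion.2 ⟨e, h⟩)
  have hqe : ∀ e, q ∉ (G.edge e).im := fun e h => hq (G.K_eq ▸ mem_iUnion.2 ⟨e, h⟩)
  have hp0 : ∀ e, G.P e - p ≠ 0 := fun e h => hpe e (sub_eq_zero.1 h ▸ (G.edge e).ini_mem)
  have hq0 : ∀ e, G.P e - q ≠ 0 := fun e h => hqe e (sub_eq_zero.1 h ▸ (G.edge e).ini_mem)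
  obtain ⟨e0, -⟩ := G.exists_inc ⟨0, by linarith [G.two]⟩
  have t3 := fun e => inc_const G.cyc.cyc
    (u := fun e => exp (g1 e) * ((G.P e - q) / (G.P e - p))) (fun e => by
      rw [sub_eq_iff_eq_add.1 (t2 e), exp_add, exp_sub, (G.edge e).exp_inc (hpe e),
        (G.edge e).exp_inc (hqe e), edge_ini, edge_fin]
      have := hp0 e
      have := hq0 e
      have := hp0 (G.sc e)
      have := hq0 (G.sc e)
      field_simp) (fun e => by rw [t1, G.P_tw]) e e0
  have k0 : exp (g1 e0) * ((G.P e0 - q) / (G.P e0 - p)) ≠ 0 :=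
    mul_ne_zero (exp_ne_zero _) (div_ne_zero (hq0 e0) (hp0 e0))
  set κ := exp (g1 e0) * ((G.P e0 - q) / (G.P e0 - p))
  obtain ⟨g, hg⟩ : ∃ g : ℂ → ℂ, ∀ e, g (G.P e) = g1 e - log κ := by
    refine ⟨fun z => if h : ∃ e, G.P e = z then g1 h.choose - log κ else 0, fun e => ?_⟩
    have hex : ∃ e', G.P e' = G.P e := ⟨e, rfl⟩
    simp only [dif_pos hex]
    rcases G.P_inj hex.choose_spec.symm with h | h <;> rw [h]
    rw [t1]
  refine eilenberg G.K_compact hp hq one_ne_zero one_ne_zero ?_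
  rw [K_eq]
  refine hasLog_graph G.edge_cross hpe hqe (g := g) (fun e => ?_) fun e => ?_
  · rw [edge_ini, hg, exp_sub, exp_log k0, ← t3 e]
    have := hp0 e
    have := hq0 e
    have := exp_ne_zero (g1 e)
    field_simp
  · rw [edge_ini, edge_fin, hg, hg]
    push_cast
    linear_combination t2 e

theorem exists_zd (e : Inc n) (σ : Bool) : ∃ d, G.zd d = G.z e σ := by
  cases σ
  · exact ⟨opp G.sc (e, true), G.zd_opp _⟩
  · exact ⟨(e, true), rfl⟩

theorem exists_dart {p : ℂ} (hp : p ∉ G.K) :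
    ∃ d, connectedComponentIn G.Kᶜ p = connectedComponentIn G.Kᶜ (G.zd d) := by
  have hX : IsPreconnected (range G.P)ᶜ :=
    ((finite_range G.P).countable.isPathConnected_compl_of_one_lt_rank
      (by rw [rank_real_complex]; norm_num)).isConnected.isPreconnected
  have hPK : range G.P ⊆ G.K := by
    rintro _ ⟨e, rfl⟩
    exact mem_iUnion.2 ⟨_, G.P_cur e⟩
  obtain ⟨x, hx, hx'⟩ : ∃ x ∈ frontier (connectedComponentIn G.Kᶜ p), x ∉ range G.P := by
    by_contra h
    push Not at h
    obtain ⟨e0, -⟩ := G.exists_inc ⟨0, by linarith [G.two]⟩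
    refine connectedComponentIn_subset _ p (hX.subset_of_closure_inter_subset
      G.K_compact.isClosed.isOpen_compl.connectedComponentIn
      ⟨p, fun h => hp (hPK h), mem_connectedComponentIn hp⟩ ?_ (a := G.mid e0) ?_)
      (mem_iUnion.2 ⟨_, G.op_J e0 (G.mid_mem e0)⟩)
    · rintro z ⟨hz, hz'⟩
      rw [closure_eq_self_union_frontier] at hz
      exact hz.resolve_right fun h' => hz' (h z h')
    · rintro ⟨e, he⟩
      exact G.P_not_op e0 e (he ▸ G.mid_mem e0)
  have hK := frontier_cc G.K_compact.isClosed p hx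
  rw [K_eq] at hK
  obtain ⟨e, he⟩ := mem_iUnion.1 hK
  have hop : x ∈ G.op e :=
    ((G.mem_im he).resolve_left fun h => hx' ⟨_, h.symm⟩).resolve_left fun h => hx' ⟨_, h.symm⟩
  obtain ⟨r, hr, h⟩ := G.side' hop
  obtain ⟨q, hq, hq'⟩ := mem_closure_iff.1 hx.1 _ isOpen_ball (mem_ball_self hr)
  have hqK : q ∉ G.K := connectedComponentIn_subset _ _ hq'
  obtain ⟨σ, hσ⟩ := Curve.exists_sd (C := G.C (cur e)) fun h => hqK (mem_iUnion.2 ⟨_, h⟩)
  obtain ⟨d, hd⟩ := G.exists_zd e σ
  exact ⟨d, by rw [connectedComponentIn_eq hq', hd]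
               exact G.same_cc hqK (G.z_not_K _ _) (h q hq σ hσ).2⟩

/-- the component of the complement on the left of a dart -/
noncomputable def F (d : D n) : Set ℂ := connectedComponentIn G.Kᶜ (G.zd d)

theorem F_face {d x : D n} (h : x ∈ face G.sc d) : G.F x = G.F d :=
  inv_of_sameCycle (u := G.F)
    (fun x => G.same_cc (G.zd_not_K _) (G.zd_not_K _) fun _ hy => G.W_phi hy x) (mem_face.1 h)

/-- the indicator of a face -/
def ind (d x : D n) : ℂ := if x ∈ face G.sc d then 1 else 0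

/-- the boundary of a face -/
def bdF (d : D n) (e : Inc n) : ℂ := G.ind d (e, true) - G.ind d (opp G.sc (e, true))

theorem circ_ind (d : D n) : Circ G.sc fun x => G.ind d x - G.ind d (opp G.sc x) :=
  circ_of_face fun x => by simp only [ind, phi_mem_face]

theorem cons_bdF (d : D n) : Cons G.sc (G.bdF d) := (G.circ_ind d).cons'

theorem mem_face_of_W {d x : D n}
    (h : W G.edge (G.bdF d) (G.zd x) = W G.edge (G.bdF d) (G.zd d)) : x ∈ face G.sc d := by
  have := (G.potC (G.circ_ind d)).unique G.cyc.cyc (w' := G.ind d)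
    ⟨fun x => by simp only [ind, phi_mem_face], fun _ => rfl⟩ x d
  change W G.edge (G.bdF d) (G.zd x) / G.μ - _ = W G.edge (G.bdF d) (G.zd d) / G.μ - _ at this
  rw [h, sub_right_inj, ind, ind, if_pos (mem_face_self _ _)] at this
  by_contra hx
  simp [hx] at this

theorem mem_face_of_F {d x : D n} (h : G.F x = G.F d) : x ∈ face G.sc d :=
  G.mem_face_of_W (G.W_cc (G.cons_bdF d) (by
    change _ ∈ G.F d
    rw [← h]
    exact mem_connectedComponentIn (G.zd_not_K x)))

theorem op_subset (d : D n) : G.op (G.ed d) ⊆ closure (G.F d) := fun x hx => by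
  obtain ⟨r, hr, h⟩ := G.side' hx
  refine mem_closure_iff.2 fun U hU hxU => ?_
  obtain ⟨q, hq, hq'⟩ := mem_closure_iff.1 ((G.pos _).closure_sd d.2 (G.op_J _ hx)) _
    (hU.inter isOpen_ball) ⟨hxU, mem_ball_self hr⟩
  refine ⟨q, hq.1, ?_⟩
  have := G.same_cc (h q hq.2 _ hq').1 (G.z_not_K _ _) (h q hq.2 _ hq').2
  rw [F, zd, ← this]
  exact mem_connectedComponentIn (h q hq.2 _ hq').1

theorem closure_F (d : D n) :
    closure (G.F d) ∩ range G.P = (fun x : D n => G.P x.1) '' (face G.sc d : Set (D n)) := by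
  ext v
  constructor
  · rintro ⟨hv, e, rfl⟩
    by_contra hn
    have hn' : ∀ x ∈ face G.sc d, G.P e ≠ G.P x.1 := fun x hx h => hn ⟨x, hx, h.symm⟩
    have hs : G.P e ∉ supp G.edge (G.bdF d) := by
      rintro ⟨f, hf, hf'⟩
      have a1 : G.P (phi G.sc (f, true)).1 = G.P (G.sc f) := by rw [phi_true, G.P_tw]
      have a2 : G.P (phi G.sc (G.sc f, false)).1 = G.P f := by rw [phi_false, G.P_tw]; simp
      have : (f, true) ∈ face G.sc d ∨ (G.sc f, false) ∈ face G.sc d := by
        by_contra h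
        push Not at h
        simp [bdF, ind, h.1, h.2] at hf
      rcases G.mem_im hf' with h | h | h
      · exact this.elim (fun h' => hn' _ h' h) fun h' => hn' _ (phi_mem_face.2 h') (h.trans a2.symm)
      · exact this.elim (fun h' => hn' _ (phi_mem_face.2 h') (h.trans a1.symm)) fun h' => hn' _ h' h
      · exact G.P_not_op _ _ h
    obtain ⟨U, hU, hUo, hUe⟩ :=
      _root_.eventually_nhds_iff.1 (W_eventually (G.closed (G.cons_bdF d)) hs)
    obtain ⟨p, hp, hp'⟩ := mem_closure_iff.1 hv U hUo hUe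
    obtain ⟨x, hx, hx'⟩ := mem_closure_iff.1 (G.im_subset_closure e (G.edge e).ini_mem) U hUo hUe
    obtain ⟨q, hq, hq'⟩ := mem_closure_iff.1 (G.op_subset (e, true) hx') U hUo hx
    refine hn' (e, true) (G.mem_face_of_W ?_) rfl
    rw [← G.W_cc (G.cons_bdF d) hq', ← G.W_cc (G.cons_bdF d) hp', hU p hp, hU q hq]
  · rintro ⟨x, hx, rfl⟩
    refine ⟨?_, x.1, rfl⟩
    rw [← G.F_face hx, ← closure_closure]
    exact closure_mono (G.op_subset x) (G.im_subset_closure _ (G.P_mem_ed x))

theorem range_P : range G.P = {p : ℂ | ∃ i j, i ≠ j ∧ p ∈ (G.C i).J ∧ p ∈ (G.C j).J} := by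
  ext p
  constructor
  · rintro ⟨e, rfl⟩
    exact ⟨_, _, cur_ne_oth e, G.P_cur e, G.P_oth e⟩
  · rintro ⟨i, j, h, hi, hj⟩
    obtain ⟨e, -, -, rfl⟩ := G.cross_pt h hi hj
    exact ⟨e, rfl⟩

theorem triangles_le : ((faces G.sc).filter fun O => O.card = 3).card ≤
    Set.ncard {F : Set ℂ | (∃ x, x ∉ G.K ∧ F = connectedComponentIn G.Kᶜ x) ∧
      (closure F ∩ range G.P).ncard = 3} := by
  classical
  have hfin : {F : Set ℂ | (∃ x, x ∉ G.K ∧ F = connectedComponentIn G.Kᶜ x) ∧
      (closure F ∩ range G.P).ncard = 3}.Finite := (finite_range G.F).subset (by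
    rintro _ ⟨⟨x, hx, rfl⟩, -⟩
    obtain ⟨d, hd⟩ := G.exists_dart hx
    exact ⟨d, hd.symm⟩)
  obtain ⟨e0, -⟩ := G.exists_inc ⟨0, by linarith [G.two]⟩
  have : Nonempty (D n) := ⟨(e0, true)⟩
  have hf : ∀ O ∈ faces G.sc, face G.sc (Function.invFun (face G.sc) O) = O := fun O hO => by
    obtain ⟨d, -, hd⟩ := Finset.mem_image.1 hO
    exact Function.invFun_eq ⟨d, hd⟩
  rw [← ncard_coe_finset]
  refine ncard_le_ncard_of_injOn (fun O => G.F (Function.invFun (face G.sc) O)) (fun O hO => ?_)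
    (fun O hO O' hO' h => ?_) hfin
  · obtain ⟨h1, h2⟩ := Finset.mem_filter.1 hO
    refine ⟨⟨_, G.zd_not_K _, rfl⟩, ?_⟩
    rw [← hf O h1] at h2
    rw [closure_F, InjOn.ncard_image, ncard_coe_finset, h2]
    intro x hx y hy h
    exact vtx_injOn G.cyc.cur_sc G.cyc.cyc h2 hx hy (vtx_eq_iff.2 (G.P_inj h))
  · rw [← hf O (Finset.mem_filter.1 hO).1, ← hf O' (Finset.mem_filter.1 hO').1]
    exact face_eq_of_mem (G.mem_face_of_F h)

theorem pot_ne {c : Fin n} {w : D n → ℤ} (hw : Pot G.sc (curZ c) w) {p q : ℂ} {d d' : D n}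
    (hp : p ∈ G.F d) (hq : q ∈ G.F d') (h : q ∉ connectedComponentIn (G.C c).Jᶜ p) :
    w d ≠ w d' := by
  intro e
  have hJ : ∀ {p d}, p ∈ G.F d → p ∉ (G.C c).J := fun hp h =>
    connectedComponentIn_subset _ _ hp (mem_iUnion.2 ⟨c, h⟩)
  have := (G.potC ((circ_curZ G.cyc.cur_sc c).map (Int.castAddHom ℂ))).unique G.cyc.cyc
    (hw.map (Int.castAddHom ℂ)) d d'
  have e1 : (fun e => Int.castAddHom ℂ (curZ c (e, true))) = one c := by
    ext e
    simp [curZ, one]
  rw [e1, e, sub_left_inj, div_left_inj' (G.μ_ne c), ← G.W_cc (G.cons_one c) hp,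
    ← G.W_cc (G.cons_one c) hq, G.W_one (hJ hp), G.W_one (hJ hq)] at this
  rcases (G.C c).sep (hJ hp) (hJ hq) h with a | a
  · exact a.1.2 (this.trans a.2.2)
  · exact a.2.2 (this.symm.trans a.1.2)

end Geo

/-- The bridge from the frozen statement to the combinatorial model. -/
theorem bridge (hn : 2 ≤ n) {γ : Fin n → Circle → ℂ}
    (h1 : ∀ i, Continuous (γ i) ∧ Function.Injective (γ i))
    (h2 : ∀ i j, i ≠ j → (range (γ i) ∩ range (γ j)).ncard = 2 ∧
      ∃ x ∈ range (γ i) \ range (γ j), ∃ y ∈ range (γ i) \ range (γ j),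
        y ∉ connectedComponentIn (range (γ j))ᶜ x)
    (h3 : ∀ i j k, i ≠ j → j ≠ k → i ≠ k → range (γ i) ∩ range (γ j) ∩ range (γ k) = ∅) :
    ∃ A : Arr n, ((faces A.sc).filter fun O => O.card = 3).card ≤
      Set.ncard {F : Set ℂ | (∃ x, x ∉ (⋃ i, range (γ i)) ∧
          F = connectedComponentIn (⋃ i, range (γ i))ᶜ x) ∧
        (closure F ∩ {p : ℂ | ∃ i j, i ≠ j ∧ p ∈ range (γ i) ∧ p ∈ range (γ j)}).ncard = 3} ∧
      ∀ p ∉ ⋃ i, range (γ i), ∀ q ∉ ⋃ i, range (γ i), ∃ d d' : D n, ∀ c w, Pot A.sc (curZ c) w →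
        q ∉ connectedComponentIn (range (γ c))ᶜ p → w d ≠ w d' := by
  obtain ⟨G, hG⟩ := exists_geo hn h1 h2 h3
  simp only [← hG]
  refine ⟨G.arr, G.range_P ▸ G.triangles_le, fun p hp q hq => ?_⟩
  obtain ⟨d, hd⟩ := G.exists_dart hp
  obtain ⟨d', hd'⟩ := G.exists_dart hq
  exact ⟨d, d', fun c w hw h => G.pot_ne hw (hd ▸ mem_connectedComponentIn hp :)
    (hd' ▸ mem_connectedComponentIn hq :) h⟩

end Pool.Agent.MP_920d98_co

end

section

set_option autoImplicit false

/-!
Euler's formula for the combinatorial model, planarity over every field, and cuts.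
-/

namespace Pool.Agent.MP_920d98_co

open Equiv Module

variable {n : ℕ} {F : Type} [Field F]

/-- the coboundary of a function on the crossings -/
def cob (F : Type) [Field F] (sc : Perm (Inc n)) : (V n → F) →ₗ[F] (Inc n → F) where
  toFun g e := g (vtx (sc e)) - g (vtx e)
  map_add' g g' := by ext e; simp only [Pi.add_apply]; ring
  map_smul' c g := by ext e; simp only [Pi.smul_apply, smul_eq_mul, RingHom.id_apply]; ring

/-- the face of a dart as an element of `faces` -/
def fc (sc : Perm (Inc n)) (d : D n) : faces sc :=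
  ⟨face sc d, Finset.mem_image_of_mem _ (Finset.mem_univ d)⟩

/-- the boundary of a function on the faces -/
def fbd (F : Type) [Field F] (sc : Perm (Inc n)) : (faces sc → F) →ₗ[F] (Inc n → F) where
  toFun c e := c (fc sc (e, true)) - c (fc sc (opp sc (e, true)))
  map_add' g g' := by ext e; simp only [Pi.add_apply]; ring
  map_smul' c g := by ext e; simp only [Pi.smul_apply, smul_eq_mul, RingHom.id_apply]; ring

/-- edge functions orthogonal to all coboundaries -/
def cycS (F : Type) [Field F] (sc : Perm (Inc n)) : Submodule F (Inc n → F) :=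
  LinearMap.ker ((cob F sc).dualMap ∘ₗ (dotProductEquiv F (Inc n)).toLinearMap)

theorem fc_phi (sc : Perm (Inc n)) (d : D n) : fc sc (phi sc d) = fc sc d :=
  Subtype.ext (face_eq_of_mem (phi_mem_face.2 (mem_face_self sc d)))

theorem fc_surj (sc : Perm (Inc n)) : Function.Surjective (fc sc) := fun O => by
  obtain ⟨d, -, hd⟩ := Finset.mem_image.1 O.2
  exact ⟨d, Subtype.ext hd⟩

theorem vtx_true (v : V n) : vtx (v, true) = v := rfl

theorem finrank_ker_const {ι M : Type} [Nonempty ι] [AddCommGroup M] [Module F M]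
    {f : (ι → F) →ₗ[F] M} (h1 : f 1 = 0) (h : ∀ c, f c = 0 → ∀ i j, c i = c j) :
    finrank F (LinearMap.ker f) = 1 := by
  have : LinearMap.ker f = F ∙ (1 : ι → F) := by
    refine le_antisymm (fun c hc => ?_) ((Submodule.span_singleton_le_iff_mem _ _).2 h1)
    obtain ⟨i⟩ := ‹Nonempty ι›
    exact Submodule.mem_span_singleton.2 ⟨c i, funext fun j => by simp [h c hc i j]⟩
  rw [this, finrank_span_singleton one_ne_zero]

theorem mem_cyc {sc : Perm (Inc n)} {y : Inc n → F} : y ∈ cycS F sc ↔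
    ∀ e, y e - y (sc⁻¹ e) + y (tw e) - y (sc⁻¹ (tw e)) = 0 := by
  have key : ∀ g : V n → F, y ⬝ᵥ cob F sc g = ∑ e, (y (sc⁻¹ e) - y e) * g (vtx e) := fun g => by
    simp only [dotProduct, cob, LinearMap.coe_mk, AddHom.coe_mk, mul_sub, sub_mul,
      Finset.sum_sub_distrib]
    rw [← Equiv.sum_comp sc fun e => y (sc⁻¹ e) * g (vtx e)]
    simp
  have key2 : ∀ g : V n → F, y ⬝ᵥ cob F sc g = ∑ v, -(y (v, true) - y (sc⁻¹ (v, true)) +
      y (tw (v, true)) - y (sc⁻¹ (tw (v, true)))) * g v := fun g => by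
    rw [key, Fintype.sum_prod_type_right, Fintype.sum_bool,
      ← Equiv.sum_comp (⟨V.swap, V.swap, V.swap_swap, V.swap_swap⟩ : Perm (V n))
        fun v => (y (sc⁻¹ (v, false)) - y (v, false)) * g (vtx (v, false)),
      ← Finset.sum_add_distrib]
    refine Finset.sum_congr rfl fun v _ => ?_
    change _ * g v + (y (sc⁻¹ (tw (v, true))) - y (tw (v, true))) * g v = _
    ring
  have key3 : y ∈ cycS F sc ↔ ∀ g : V n → F, y ⬝ᵥ cob F sc g = 0 := by
    rw [cycS, LinearMap.mem_ker, LinearMap.ext_iff]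
    rfl
  rw [key3]
  constructor
  · intro h
    have h1 : ∀ v, y (v, true) - y (sc⁻¹ (v, true)) + y (tw (v, true)) -
        y (sc⁻¹ (tw (v, true))) = 0 := fun v => by
      have := h (Pi.single v 1)
      rw [key2, Finset.sum_eq_single v (fun w _ hw => by simp [hw]) (by simp)] at this
      rw [← neg_eq_zero]
      simpa using this
    rintro ⟨v, _ | _⟩
    · have := h1 v.swap
      change y (tw (v, false)) - y (sc⁻¹ (tw (v, false))) + y (v, false) -
        y (sc⁻¹ (v, false)) = 0 at this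
      linear_combination this
    · exact h1 v
  · intro h g
    simp only [key2, h, neg_zero, zero_mul, Finset.sum_const_zero]

section

variable {sc : Perm (Inc n)} (hn : 2 ≤ n) (hc : ∀ e e', cur e = cur e' → sc.SameCycle e e')
include hn hc

omit hc in
theorem nonempty_V : Nonempty (V n) :=
  ⟨⟨(⟨0, by omega⟩, ⟨1, by omega⟩), by simp⟩⟩

theorem finrank_cyc : finrank F (cycS F sc) = Fintype.card (V n) + 1 := by
  have := nonempty_V hn
  have h1 := finrank_ker_const (f := cob F sc) (by ext e; simp [cob]) fun c h v w =>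
    inc_const hc (u := fun e => c (vtx e)) (fun e => sub_eq_zero.1 (congrFun h e))
      (fun e => by rw [vtx_tw]) (v, true) (w, true)
  have h2 := (cob F sc).finrank_range_add_finrank_ker
  have h3 := ((cob F sc).dualMap ∘ₗ
    (dotProductEquiv F (Inc n)).toLinearMap).finrank_range_add_finrank_ker
  rw [LinearMap.range_comp_of_range_eq_top _ (LinearEquiv.range _),
    LinearMap.finrank_range_dualMap_eq_finrank_range] at h3
  simp only [finrank_fintype_fun_eq_card, Fintype.card_prod, Fintype.card_bool] at h2 h3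
  rw [cycS]
  omega

theorem finrank_fbd : finrank F (LinearMap.range (fbd F sc)) + 1 = (faces sc).card := by
  obtain ⟨v⟩ := nonempty_V hn
  have : Nonempty (faces sc) := ⟨fc sc ((v, true), true)⟩
  have h1 := finrank_ker_const (f := fbd F sc) (by ext e; simp [fbd]) fun c h O O' => by
    obtain ⟨d, rfl⟩ := fc_surj sc O
    obtain ⟨d', rfl⟩ := fc_surj sc O'
    refine dart_const hc (u := fun d => c (fc sc d)) (fun d => by rw [fc_phi]) ?_ d d'
    rintro ⟨e, _ | _⟩
    · have := sub_eq_zero.1 (congrFun h (sc⁻¹ e))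
      simpa using this
    · exact (sub_eq_zero.1 (congrFun h e)).symm
  have h2 := (fbd F sc).finrank_range_add_finrank_ker
  rwa [h1, finrank_fintype_fun_eq_card, Fintype.card_coe] at h2

end

theorem Circ.mem_cyc {sc : Perm (Inc n)} {Z : D n → F} (h : Circ sc Z) :
    (fun e => Z (e, true)) ∈ cycS F sc := MP_920d98_co.mem_cyc.2 fun e => by
  have a1 := h.anti (e, false)
  have a2 := h.anti (tw e, false)
  rw [opp_false] at a1 a2
  linear_combination h.cons e - a1 - a2

theorem range_fbd_le (sc : Perm (Inc n)) : LinearMap.range (fbd F sc) ≤ cycS F sc := by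
  rintro _ ⟨c, rfl⟩
  exact (circ_of_face (w := fun d => c (fc sc d)) fun d => by rw [fc_phi]).mem_cyc

theorem card_V : Fintype.card (V n) = n * (n - 1) := by
  rw [Fintype.card_subtype_compl, Fintype.card_prod, Fintype.card_fin, Nat.mul_sub_one]
  congr 1
  refine Eq.trans ?_ (Fintype.card_fin n)
  refine Fintype.card_congr ⟨fun p => p.1.1, fun i => ⟨(i, i), rfl⟩, ?_, fun i => rfl⟩
  rintro ⟨⟨i, j⟩, h⟩
  exact Subtype.ext (Prod.ext rfl h)

/-- Euler's formula -/
theorem Arr.card_faces (A : Arr n) (hn : 2 ≤ n) : (faces A.sc).card = n * (n - 1) + 2 := by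
  have h : LinearMap.range (fbd ℚ A.sc) = cycS ℚ A.sc := by
    refine (range_fbd_le A.sc).antisymm fun y hy => ?_
    obtain ⟨b, hb⟩ := IsLocalization.exist_integer_multiples_of_finite (nonZeroDivisors ℤ) y
    choose z hz using hb
    have hz' : ∀ e, (z e : ℚ) = (b : ℤ) * y e := fun e => by simpa using hz e
    have hb0 : ((b : ℤ) : ℚ) ≠ 0 := by exact_mod_cast nonZeroDivisors.coe_ne_zero b
    obtain ⟨w, hw⟩ := A.planar (fun d => if d.2 then z d.1 else -z (A.sc⁻¹ d.1)) ⟨by
      rintro ⟨e, _ | _⟩ <;> simp, fun e => by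
      have := mem_cyc.1 hy e
      have h2 : ((z e + -z (A.sc⁻¹ e) + z (tw e) + -z (A.sc⁻¹ (tw e)) : ℤ) : ℚ) = 0 := by
        push_cast
        simp only [hz']
        linear_combination ((b : ℤ) : ℚ) * this
      exact_mod_cast h2⟩
    obtain ⟨r, hr⟩ := (fc_surj A.sc).hasRightInverse
    have hw' : ∀ d, w (r (fc A.sc d)) = w d := fun d => by
      have : face A.sc (r (fc A.sc d)) = face A.sc d := congrArg Subtype.val (hr (fc A.sc d))
      exact hw.const (this ▸ mem_face_self _ _)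
    refine ⟨fun O => w (r O) / (b : ℤ), funext fun e => ?_⟩
    have := hw.jump (e, true)
    simp only [fbd, LinearMap.coe_mk, AddHom.coe_mk, hw']
    rw [← sub_div, ← Int.cast_sub, this, div_eq_iff hb0, mul_comm]
    exact hz' e
  rw [← finrank_fbd (F := ℚ) hn A.cyc, h, finrank_cyc hn A.cyc, card_V]

theorem Arr.range_fbd (A : Arr n) (hn : 2 ≤ n) : LinearMap.range (fbd F A.sc) = cycS F A.sc := by
  refine Submodule.eq_of_le_of_finrank_eq (range_fbd_le A.sc) ?_
  have := finrank_fbd (F := F) hn A.cyc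
  rw [A.card_faces hn] at this
  rw [finrank_cyc hn A.cyc, card_V]
  omega

/-- planarity over every field -/
theorem Arr.planarF (A : Arr n) (hn : 2 ≤ n) {Z : D n → F} (h : Circ A.sc Z) :
    ∃ w, Pot A.sc Z w := by
  obtain ⟨c, hc⟩ : (fun e => Z (e, true)) ∈ LinearMap.range (fbd F A.sc) := by
    rw [A.range_fbd hn]; exact h.mem_cyc
  refine ⟨fun d => c (fc A.sc d), fun d => by rw [fc_phi], ?_⟩
  rintro ⟨e, _ | _⟩
  · have a1 := congrFun hc (A.sc⁻¹ e)
    have a2 := h.anti (e, false)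
    simp only [fbd, LinearMap.coe_mk, AddHom.coe_mk, opp_true, opp_false] at a1 a2 ⊢
    rw [show A.sc (A.sc⁻¹ e) = e by simp] at a1
    linear_combination -a1 - a2
  · exact congrFun hc e

/-- An antisymmetric function on darts with sum zero on every face is a coboundary. -/
theorem Arr.exists_cut (A : Arr n) (hn : 2 ≤ n) {Z : D n → F} (h : ∀ d, Z (opp A.sc d) = -Z d)
    (h0 : ∀ d, ∑ x ∈ face A.sc d, Z x = 0) :
    ∃ g : V n → F, ∀ d, Z d = g (vtx (opp A.sc d).1) - g (vtx d.1) := by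
  classical
  have key : (fun e => Z (e, true)) ∈ LinearMap.range (cob F A.sc) := by
    rw [← Subspace.dualAnnihilator_dualCoannihilator_eq (W := LinearMap.range (cob F A.sc)),
      Submodule.mem_dualCoannihilator]
    intro φ hφ
    obtain ⟨y, rfl⟩ := (dotProductEquiv F (Inc n)).surjective φ
    have hy : y ∈ cycS F A.sc := by
      rw [← LinearMap.ker_dualMap_eq_dualAnnihilator_range] at hφ
      exact hφ
    rw [← A.range_fbd hn] at hy
    obtain ⟨c, rfl⟩ := hy
    have e1 : ∑ d, c (fc A.sc d) * Z d = 0 := by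
      rw [← Finset.sum_fiberwise_of_maps_to (t := Finset.univ) (g := fc A.sc)
        fun _ _ => Finset.mem_univ _]
      refine Finset.sum_eq_zero fun O _ => ?_
      obtain ⟨d, rfl⟩ := fc_surj A.sc O
      rw [← mul_zero (c (fc A.sc d)), ← h0 d, Finset.mul_sum]
      refine Finset.sum_congr (Finset.ext fun x => ?_) fun x hx => ?_
      · simp only [Finset.mem_filter, Finset.mem_univ, true_and, fc, Subtype.mk.injEq]
        exact ⟨fun h => h ▸ mem_face_self _ _, face_eq_of_mem⟩
      · rw [show fc A.sc x = fc A.sc d from Subtype.ext (face_eq_of_mem hx)]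
    rw [Fintype.sum_prod_type_right, Fintype.sum_bool,
      ← Equiv.sum_comp A.sc fun e => c (fc A.sc (e, false)) * Z (e, false),
      ← Finset.sum_add_distrib] at e1
    rw [← e1]
    refine Finset.sum_congr rfl fun e _ => ?_
    have := h (e, true)
    rw [opp_true] at this
    simp only [fbd, LinearMap.coe_mk, AddHom.coe_mk, opp_true, this]
    ring
  obtain ⟨g, hg⟩ := key
  refine ⟨g, ?_⟩
  rintro ⟨e, _ | _⟩
  · have a1 := congrFun hg (A.sc⁻¹ e)
    have a2 := h (e, false)
    simp only [cob, LinearMap.coe_mk, AddHom.coe_mk, opp_false] at a1 a2 ⊢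
    rw [show A.sc (A.sc⁻¹ e) = e by simp] at a1
    linear_combination a1 + a2
  · exact (congrFun hg e).symm

end Pool.Agent.MP_920d98_co

end
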