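import Pool.Agent.Mg.F920d98p.G0847c9
import Pool.Agent.Mg.F920d98p.G1423bb

set_option linter.all false

set_option autoImplicit false

/-!
Long rainbow walks give many triangles; the cylindrical case.
-/

namespace Pool.Agent.MP_920d98_co

open Equiv Finset Function

namespace Sys

variable {X V C : Type} {G : Sys X V C} {σ : C → X → ℤ}
variable [Fintype X] [DecidableEq V] [Fintype V]

theorem path_bound (hM : G.Meet) {g y : ℕ → X} {l : ℕ} (hw : G.Walk g y l) (hr : G.Rain y l)
    {j : ℕ} (hj : j ≤ l) : Fintype.card X + 2 * l + 4 + (if (G.fc (g j)).card = 3 then 2 else 0) ≤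
      4 * G.fcs.card + 2 * (G.fcs.filter fun O => O.card = 3).card := by
  classical
  let Src := (range (l + 1)).image fun i => G.fc (g i)
  have hS : Src ⊆ G.fcs := image_subset_iff.2 fun i _ => fc_mem _
  have a := count hM hS (T := (range l).image y ∪ (range l).image fun i => G.o (y i))
    (fun x hx => by
      simp only [mem_union, mem_image] at hx ⊢
      rcases hx with ⟨i, a, rfl⟩ | ⟨i, a, rfl⟩
      exacts [Or.inr ⟨i, a, rfl⟩, Or.inl ⟨i, a, (G.oo _).symm⟩])
    fun a b ha hb => by
      obtain ⟨i, hi, e⟩ := mem_image.1 ha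
      obtain ⟨k, hk, e'⟩ := mem_image.1 hb
      rw [mem_range] at hi hk
      rw [fc_eq] at e e'
      rcases le_total i k with c | c
      · refine ⟨fun t => g (i + t), fun t => y (i + t), k - i, fun t ht => hw _ (by omega),
          fun s hs t ht e => ?_, e.symm, by simpa [c] using e'.symm, fun h => mem_union_left _
            (mem_image_of_mem _ (mem_range.2 (by omega)))⟩
        have := hr _ (by omega) _ (by omega) e
        omega
      · refine ⟨fun t => g (i - t), fun t => G.o (y (i - 1 - t)), i - k, fun t ht => ?_,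
          fun s hs t ht e => ?_, e.symm, by simpa [Nat.sub_sub_self c] using e'.symm,
          fun h => mem_union_right _ (mem_image_of_mem _ (mem_range.2 (by omega)))⟩
        · simp only [G.oo]
          rw [show i - t = i - 1 - t + 1 by omega, show i - (t + 1) = i - 1 - t by omega]
          exact (hw _ (by omega)).symm
        · simp only [G.cu_o] at e
          have := hr _ (by omega) _ (by omega) e
          omega
  have b : Src.card = l + 1 := by
    rw [card_image_of_injOn, card_range]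
    intro i hi k hk e
    simp only [coe_range, Set.mem_Iio, fc_eq] at hi hk e
    rcases lt_trichotomy i k with c | c | c
    exacts [(hw.ne hr c (by omega) e).elim, c, (hw.ne hr c (by omega) e.symm).elim]
  have c := (card_union_le ((range l).image y) ((range l).image fun i => G.o (y i))).trans
    (add_le_add card_image_le card_image_le)
  rw [card_range] at c
  have d : (G.fcs \ Src).filter (fun O => O.card = 3) ⊆ G.fcs.filter fun O => O.card = 3 :=
    filter_subset_filter _ sdiff_subset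
  split_ifs with e
  · have := card_lt_card ⟨d, fun h => (mem_sdiff.1 (mem_filter.1 (h (mem_filter.2
      ⟨fc_mem _, e⟩))).1).2 (mem_image_of_mem _ (mem_range.2 (by omega)))⟩
    omega
  · have := card_le_card d
    omega

variable [Fintype C]

omit [Fintype X] [DecidableEq V] [Fintype V] in
theorem Side.level (h : G.Side σ) {x f : X} (h1 : G.SF (G.o x) f) (h2 : σ (G.cu x) x = 1) :
    ∑ c, σ c x = ∑ c, σ c f + 1 := by
  classical
  have : ∀ c, σ c x = σ c f + if G.cu x = c then 1 else 0 := fun c => by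
    rw [← h1 _ (h.inv c)]
    split_ifs with e
    · subst e
      rw [h2, (h.zo _ _).resolve_right fun e => (h.eq _ x).1 (h2.trans e.symm) rfl]; rfl
    · simpa using (h.eq c x).2 e
  simp [this, sum_add_distrib]

theorem Side.path (h : G.Side σ) (hM : G.Meet) (hC : G.Cyc) {P Q : X} (hP : ∀ c, σ c P = 1)
    (hQ : ∀ c, σ c Q = 0) (f : X) : ∃ g y j, G.Walk g y (Fintype.card C) ∧
      G.Rain y (Fintype.card C) ∧ j ≤ Fintype.card C ∧ g j = f := by
  have up : ∀ (k : ℕ) f, ∑ c, σ c f + k = Fintype.card C →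
      ∃ g y, G.Walk g y k ∧ (∀ i < k, σ (G.cu (y i)) (y i) = 1) ∧ g 0 = f := fun k => by
    induction k with
    | zero => exact fun f _ => ⟨fun _ => f, fun _ => f, fun _ h => by omega, by omega, rfl⟩
    | succ k ih =>
      intro f hf
      obtain ⟨x, x1, x2⟩ := h.up hM hC hP hQ (f := f) fun e => by
        simp [fun c => e _ (h.inv c), hP] at hf
        omega
      obtain ⟨g, y, a1, a2, rfl⟩ := ih x (by rw [h.level x1 x2, ← hf]; push_cast; ring)
      refine ⟨_, _, a1.cons x1 (SF.refl _), ?_, rfl⟩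
      rintro (_ | i) hi
      exacts [x2, a2 i (by omega)]
  have dn : ∀ (t k : ℕ) g y, G.Walk g y k → (∀ i < k, σ (G.cu (y i)) (y i) = 1) →
      ∑ c, σ c (g 0) = t → ∃ g' y', G.Walk g' y' (k + t) ∧
        (∀ i < k + t, σ (G.cu (y' i)) (y' i) = 1) ∧ ∀ i, g' (i + t) = g i := fun t => by
    induction t with
    | zero => exact fun k g y a b _ => ⟨g, y, a, b, fun _ => rfl⟩
    | succ t ih =>
      intro k g y a b e
      obtain ⟨x, x1, x2⟩ := h.compl.up hM hC (P := Q) (Q := P) (by simp [hQ]) (by simp [hP])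
        (f := g 0) fun e' => by
          simp [fun c => e' _ (h.inv c), hQ] at e
          omega
      have x3 : σ (G.cu (G.o x)) (G.o x) = 1 := by
        rw [G.cu_o]
        exact (h.zo _ _).resolve_left fun e => (h.eq _ x).1 (by rw [e]; linarith) rfl
      have x4 : G.SF (G.o (G.o x)) x := by rw [G.oo]; exact SF.refl _
      obtain ⟨g', y', a1, a2, a3⟩ := ih _ _ _ (a.cons x4 x1) (by
        rintro (_ | i) hi
        exacts [x3, b i (by omega)]) (by
          have := h.level x4 x3
          rw [sum_congr rfl fun c _ => x1 _ (h.inv c), e] at this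
          push_cast at this
          exact (add_left_inj 1).1 this.symm)
      rw [Nat.add_right_comm] at a1 a2
      exact ⟨g', y', a1, a2, fun i => (congrArg g' (by omega)).trans (a3 (i + 1))⟩
  obtain ⟨t, ht⟩ := Int.eq_ofNat_of_zero_le (a := ∑ c, σ c f)
    (sum_nonneg fun c _ => by rcases h.zo c f with e | e <;> simp [e])
  have ht' : t ≤ Fintype.card C := by
    have := sum_le_card_nsmul univ (fun c => σ c f) 1 fun c _ => by
      rcases h.zo c f with e | e <;> simp [e]
    simpa [ht] using this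
  obtain ⟨g, y, a1, a2, rfl⟩ := up (Fintype.card C - t) f (by rw [ht]; omega)
  obtain ⟨g', y', b1, b2, b3⟩ := dn t _ g y a1 a2 ht
  rw [Nat.sub_add_cancel ht'] at b1 b2
  have mono : ∀ c i j, i ≤ j → j ≤ Fintype.card C → σ c (g' i) ≤ σ c (g' j) := fun c i j hij hj => by
    induction j, hij using Nat.le_induction with
    | base => rfl
    | succ j _ ih =>
      refine (ih (by omega)).trans ?_
      rw [← (b1 j hj).1 _ (h.inv c), ← (b1 j hj).2 _ (h.inv c)]
      by_cases e : G.cu (y' j) = c
      · rw [← e, b2 j hj]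
        rcases h.zo (G.cu (y' j)) (G.o (y' j)) with e | e <;> simp [e]
      · exact ((h.eq c _).2 e).ge
  have k : ∀ i j, i < j → j < Fintype.card C → G.cu (y' i) ≠ G.cu (y' j) := fun i j hij hj e => by
    have := mono (G.cu (y' j)) (i + 1) j hij hj.le
    rw [← (b1 i (by omega)).2 _ (h.inv _), ← (b1 j hj).1 _ (h.inv _), (h.zo _ _).resolve_right
      fun e => (h.eq _ _).1 ((b2 j hj).trans e.symm) rfl, ← e, b2 i (by omega)] at this
    omega
  refine ⟨g', y', t, b1, fun i hi j hj e => ?_, ht', by simpa using b3 0⟩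
  rcases lt_trichotomy i j with c | c | c
  exacts [(k i j c hj e).elim, c, (k j i c hi e.symm).elim]

end Sys

variable {n : ℕ}

/-- the plane map of an arrangement -/
def Arr.sys (A : Arr n) : Sys (D n) (V n) (Fin n) where
  o := opp A.sc
  r := rot⁻¹
  vt d := vtx d.1
  cu d := cur d.1
  dir d := d.2
  oo := opp_opp _
  r4 := by rintro ⟨⟨v, _ | _⟩, _ | _⟩ <;> simp [rot_inv_apply, tw]
  vt_r := fun ⟨e, f⟩ => vtx_tw e
  vt_eq := by
    rintro ⟨⟨v, b⟩, f⟩ ⟨e', f'⟩ h
    obtain rfl | rfl := vtx_eq_iff.1 h <;> cases b <;> cases f <;> cases f' <;>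
      simp [rot_inv_apply, tw]
  cu_o := by
    rintro ⟨e, _ | _⟩
    · rw [← A.cur_sc]; simp
    · exact A.cur_sc e
  cu_rr := fun ⟨_, _⟩ => rfl
  cu_r := fun ⟨e, _⟩ => (cur_ne_oth e).symm
  dir_o := fun _ => rfl
  dir_rr := by rintro ⟨⟨v, _ | _⟩, _ | _⟩ <;> rfl
  two := by
    rintro ⟨x, _⟩ ⟨y, _⟩ ⟨z, _⟩ h1 h2 h3 h4
    by_cases c1 : y.2 = x.2
    · exact Or.inl (congrArg vtx (inc_ext h1 h3 c1).symm)
    by_cases c2 : z.2 = x.2
    · exact Or.inr (Or.inr (congrArg vtx (inc_ext h2 h4 c2).symm))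
    · exact Or.inr (Or.inl (congrArg vtx (inc_ext (h1.trans h2.symm) (h3.trans h4.symm)
        (by revert c1 c2; cases x.2 <;> cases y.2 <;> cases z.2 <;> simp))))
  planar Z h1 h2 := by
    obtain ⟨w, hw⟩ := A.planar Z ⟨h1, fun e => by
      have := h2 (e, true)
      obtain ⟨v, _ | _⟩ := e <;> simp [rot_inv_apply, tw] at this ⊢ <;> linarith⟩
    exact ⟨w, hw.inv, hw.jump⟩

theorem Arr.cyc' (A : Arr n) : A.sys.Cyc := by
  rintro ⟨e, f⟩ ⟨e', f'⟩ h
  have a : ∀ k e, A.sys.st^[k] (e, true) = ((A.sc ^ k) e, true) := fun k e => by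
    induction k with
    | zero => rfl
    | succ k ih =>
      rw [iterate_succ_apply', ih, pow_succ', Perm.mul_apply]
      generalize (A.sc ^ k) e = t
      change rot⁻¹ (rot⁻¹ (A.sc t, false)) = _
      generalize A.sc t = t
      obtain ⟨v, _ | _⟩ := t <;> rfl
  have b : ∀ k e, A.sys.st^[k] (e, false) = ((A.sc⁻¹ ^ k) e, false) := fun k e => by
    induction k with
    | zero => rfl
    | succ k ih =>
      rw [iterate_succ_apply', ih, pow_succ', Perm.mul_apply]
      generalize (A.sc⁻¹ ^ k) e = t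
      change rot⁻¹ (rot⁻¹ (A.sc⁻¹ t, true)) = _
      generalize A.sc⁻¹ t = t
      obtain ⟨v, _ | _⟩ := t <;> rfl
  cases f
  · obtain ⟨k, hk⟩ := (Perm.sameCycle_inv.2 (A.cyc e e' h)).exists_nat_pow_eq
    exact ⟨k, by rw [b, hk]; rfl⟩
  · obtain ⟨k, hk⟩ := (A.cyc e e' h).exists_nat_pow_eq
    exact ⟨k, by rw [a, hk]; rfl⟩

theorem Arr.meet (A : Arr n) : A.sys.Meet := fun x y => by
  by_cases c : cur x.1 = cur y.1
  · exact (A.cyc' x y c).imp fun k e => ⟨0, e⟩
  · obtain ⟨k, a⟩ := A.cyc' x ((⟨(cur x.1, cur y.1), c⟩, true), true) rfl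
    obtain ⟨l, b⟩ := A.cyc' y (tw (⟨(cur x.1, cur y.1), c⟩, true), true) rfl
    exact ⟨k, l, a.trans (b.trans (vtx_tw (⟨(cur x.1, cur y.1), c⟩, true))).symm⟩

theorem Arr.fc_eq (A : Arr n) (d : D n) : A.sys.fc d = face A.sc d := by
  classical
  ext x
  rw [Sys.mem_fc]
  refine ⟨fun h => ?_, fun h w hw => (inv_of_sameCycle (σ := phi A.sc) hw (mem_face.1 h)).symm⟩
  have := h (fun z => if z ∈ face A.sc d then 1 else 0) fun z => if_congr phi_mem_face rfl rfl
  by_contra c
  simp [c, mem_face_self] at this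

theorem Arr.fcs_eq (A : Arr n) : A.sys.fcs = faces A.sc := by
  ext O
  simp only [Sys.fcs, faces, mem_image, A.fc_eq]

theorem card_D : Fintype.card (D n) = 4 * (n * (n - 1)) := by
  simp only [Fintype.card_prod, card_V, Fintype.card_bool]; ring

/-- the cylindrical case -/
theorem Arr.cyl (A : Arr n) (hn : 3 ≤ n) {P Q : D n}
    (h : ∀ c w, Pot A.sc (curZ c) w → w P ≠ w Q) :
    n - 1 ≤ ((faces A.sc).filter fun O => O.card = 3).card := by
  obtain ⟨σ, s1, s2, s3⟩ := Sys.exists_sides A.meet A.cyc' (P := P) (Q := Q)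
    fun c s a b => h c s ⟨a, fun d => (b d).trans (@if_congr _ _ _ (_) (_) _ _ _ _ Iff.rfl rfl rfl)⟩
  have k : ∀ f, 2 * n + (if (face A.sc f).card = 3 then 2 else 0) ≤
      4 + 2 * ((faces A.sc).filter fun O => O.card = 3).card := fun f => by
    obtain ⟨g, y, j, a1, a2, a3, rfl⟩ := s1.path A.meet A.cyc' s2 s3 f
    have := Sys.path_bound A.meet a1 a2 a3
    rw [A.fc_eq, A.fcs_eq, card_D, A.card_faces (by omega), Fintype.card_fin] at this
    omega
  have a := k P
  obtain ⟨O, hO⟩ := card_pos.1 (show 0 < ((faces A.sc).filter fun O => O.card = 3).card by omega)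
  obtain ⟨f, -, rfl⟩ := mem_image.1 (mem_filter.1 hO).1
  have := k f
  rw [if_pos (mem_filter.1 hO).2] at this
  omega

end Pool.Agent.MP_920d98_co
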